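import Pool.Agent.MP_92db0f_lc_gold.Query

/-!
Division, counting, and flattening of rounds.
-/

set_option autoImplicit false
set_option linter.unusedSectionVars false

namespace Pool.Agent.MP_92db0f_lc_gold

open Lib.helper60 Function Turing Computability
open MP_92db0f_lc hiding answers
open MP_92db0f_lc_alg (answers PolyTime)

/-! ### division -/

/-- the quotient of `n` by `K` -/
def dv (K n : ℕ) : ℕ := ((List.range n).filter fun j => decide ((j + 1) * K ≤ n)).length

lemma PT_dv {α : Type} [DEnc α] {K n : α → ℕ} (hK : PT K) (hn : PT n) :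
    PT (fun a => dv (K a) (n a)) := by
  unfold dv
  exact PT.length (PT.filter (p := fun y : α × ℕ => decide ((y.2 + 1) * K y.1 ≤ n y.1))
    (PT.range hn) (PT.nle (PT.nmul (PT.nsucc PT.snd) (hK.comp PT.fst)) (hn.comp PT.fst)))

lemma dv_eq {K ρ j : ℕ} (hj : j < K) : dv K (ρ * K + j) = ρ := by
  unfold dv
  have h0 : ρ ≤ ρ * K := Nat.le_mul_of_pos_right _ (by omega)
  obtain ⟨s, hs⟩ := Nat.exists_eq_add_of_le (show ρ ≤ ρ * K + j by omega)
  have h1 : ((List.range (ρ * K + j)).filter fun i => decide ((i + 1) * K ≤ ρ * K + j)) =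
      ((List.range (ρ + s)).filter fun i => decide (i < ρ)) := by
    rw [← hs]
    apply List.filter_congr
    intro i _
    rw [Bool.eq_iff_iff, decide_eq_true_eq, decide_eq_true_eq]
    constructor
    · intro h
      by_contra hn
      have h2 : (ρ + 1) * K ≤ (i + 1) * K := Nat.mul_le_mul_right _ (by omega)
      rw [Nat.add_mul, Nat.one_mul] at h2
      omega
    · intro h
      have h2 : (i + 1) * K ≤ ρ * K := Nat.mul_le_mul_right _ (by omega)
      omega
  rw [h1, List.range_add, List.filter_append]
  have h2 : (List.range ρ).filter (fun i => decide (i < ρ)) = List.range ρ := by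
    rw [List.filter_eq_self]
    intro i hi
    rw [List.mem_range] at hi
    simpa using hi
  have h3 : (List.map (fun x => ρ + x) (List.range s)).filter (fun i => decide (i < ρ)) = [] := by
    rw [List.filter_eq_nil_iff]
    intro i hi
    rw [List.mem_map] at hi
    obtain ⟨k, _, rfl⟩ := hi
    simp
  rw [h2, h3, List.append_nil, List.length_range]

/-- division with remainder -/
lemma exists_dv {K : ℕ} (hK : 1 ≤ K) (n : ℕ) : ∃ ρ j, j < K ∧ n = ρ * K + j ∧ dv K n = ρ := by
  refine ⟨n / K, n % K, Nat.mod_lt _ (by omega), ?_, ?_⟩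
  · rw [Nat.mul_comm]
    exact (Nat.div_add_mod n K).symm
  · have h1 : n = n / K * K + n % K := by
      rw [Nat.mul_comm]
      exact (Nat.div_add_mod n K).symm
    conv_lhs => rw [h1]
    exact dv_eq (Nat.mod_lt _ (by omega))

lemma dv_mul_le (K n : ℕ) (hK : 1 ≤ K) : dv K n * K ≤ n := by
  obtain ⟨ρ, j, _, h1, h2⟩ := exists_dv hK n
  rw [h2]
  omega

/-! ### counting -/

/-- the number of ones in the round `ρ` -/
def cnt (K ρ : ℕ) (v : List Bool) : ℕ :=
  ((List.range K).filter fun j => v.getD (ρ * K + j) false).length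

lemma PT_cnt {α : Type} [DEnc α] {K ρ : α → ℕ} {v : α → List Bool} (hK : PT K) (hρ : PT ρ)
    (hv : PT v) : PT (fun a => cnt (K a) (ρ a) (v a)) := by
  unfold cnt
  exact PT.length (PT.filter (p := fun y : α × ℕ => (v y.1).getD (ρ y.1 * K y.1 + y.2) false)
    (PT.range hK) (PT.getD (hv.comp PT.fst) (PT.nadd (PT.nmul (hρ.comp PT.fst) (hK.comp PT.fst))
      PT.snd) (PT.const false)))

lemma cnt_le (K ρ : ℕ) (v : List Bool) : cnt K ρ v ≤ K := by
  unfold cnt
  refine (List.length_filter_le _ _).trans ?_
  rw [List.length_range]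

lemma cnt_eq {K ρ : ℕ} {v v' : List Bool} (h : cnt K ρ v' = cnt K ρ v)
    (h1 : ∀ j < K, v'.getD (ρ * K + j) false = true → v.getD (ρ * K + j) false = true) :
    ∀ j < K, v'.getD (ρ * K + j) false = v.getD (ρ * K + j) false := by
  unfold cnt at h
  have h2 : ((List.range K).filter fun j => v'.getD (ρ * K + j) false) =
      ((List.range K).filter fun j => v.getD (ρ * K + j) false) := by
    have h3 : List.Sublist ((List.range K).filter fun j => v'.getD (ρ * K + j) false)
        ((List.range K).filter fun j => v.getD (ρ * K + j) false) := by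
      have h4 : ((List.range K).filter fun j => v'.getD (ρ * K + j) false) =
          (((List.range K).filter fun j => v.getD (ρ * K + j) false).filter
            fun j => v'.getD (ρ * K + j) false) := by
        rw [List.filter_filter]
        apply List.filter_congr
        intro j hj
        rw [List.mem_range] at hj
        have := h1 j hj
        cases h5 : v'.getD (ρ * K + j) false
        · simp
        · rw [this h5]
          rfl
      rw [h4]
      exact List.filter_sublist
    exact h3.eq_of_length h
  intro j hj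
  have h3 : j ∈ ((List.range K).filter fun j => v'.getD (ρ * K + j) false) ↔
      j ∈ ((List.range K).filter fun j => v.getD (ρ * K + j) false) := by rw [h2]
  rw [List.mem_filter, List.mem_filter, List.mem_range] at h3
  rw [Bool.eq_iff_iff]
  constructor
  · intro h4
    exact (h3.mp ⟨hj, h4⟩).2
  · intro h4
    exact (h3.mpr ⟨hj, h4⟩).2

/-! ### conjunctions -/

section

variable {α : Type} [DEnc α] [Meas α] {O : Set (List Bool)}

lemma OPT.all {p : α × ℕ → Bool} (hp : OPT O p) {n : α → ℕ} (hn : PT n) :
    OPT O (fun a => (List.range (n a)).all fun i => p (a, i)) := by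
  have h1 : OPT O (fun z : α × ℕ => !p z) := hp.map (h := fun b : Bool => !b) (PT.bnot PT.id)
  have h2 := (h1.any hn).map (h := fun b : Bool => !b) (PT.bnot PT.id)
  refine h2.congr fun a => ?_
  rw [Bool.eq_iff_iff, Bool.not_eq_true', List.any_eq_false, List.all_eq_true]
  refine forall₂_congr fun i _ => ?_
  cases p (a, i) <;> simp

end

end Pool.Agent.MP_92db0f_lc_gold
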