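import Pool.Agent.MP_92db0f_lc_alg.Defs

/-!
The class `NE` and computations with an oracle in `NP`, relative to an oracle, that proceed in
rounds of parallel queries, and the cost of the rounds.
-/

set_option autoImplicit false

namespace Pool.Agent.MP_92db0f_lc_gold

open Turing Computability Lib.helper60
open MP_92db0f_lc_alg (PolyTime)

/-- The class `NE` relative to the oracle `O`: membership of `x` is witnessed by certificates of
length at most `2 ^ (k |x| + k)`, which a deterministic machine with the oracle `O` checks in time
polynomial in the length of `x` and the certificate. -/
def InNE (O L : Set (List Bool)) : Prop :=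
  ∃ (k : ℕ) (R : List Bool × List Bool → Prop), PolyTime encPair O R ∧
    ∀ x, x ∈ L ↔ ∃ y : List Bool, y.length ≤ 2 ^ (k * x.length + k) ∧ R (x, y)

/-- The set of all strings `Q` that have a certificate `c`, i.e. `R (Q, c)` holds. -/
def Certified (R : List Bool × List Bool → Prop) : Set (List Bool) := {Q | ∃ c, R (Q, c)}

/-- The cost of the query `Q`: the length of the shortest certificate of `Q`, and `0` if `Q` has no
certificate. -/
noncomputable def cost (R : List Bool × List Bool → Prop) (Q : List Bool) : ℕ :=
  sInf {l | ∃ c : List Bool, c.length = l ∧ R (Q, c)}

open Classical in
/-- The answers to the queries of the first `i` rounds, when `w` queries are asked in parallel in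
each round: the query with the number `j < w` of a round is `q ((z, v), j)`, where `v` is the list
of all the answers in the previous rounds. -/
noncomputable def roundAnswers (B : Set (List Bool))
    (q : ((List Bool × List Bool) × List Bool) × ℕ → List Bool) (z : List Bool × List Bool)
    (w : ℕ) : ℕ → List Bool
  | 0 => []
  | i + 1 => roundAnswers B q z w i ++
      (List.range w).map fun j => decide (q ((z, roundAnswers B q z w i), j) ∈ B)

/-- The largest cost of a query in the round `i`. -/
noncomputable def roundCost (R : List Bool × List Bool → Prop)
    (q : ((List Bool × List Bool) × List Bool) × ℕ → List Bool) (z : List Bool × List Bool)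
    (w i : ℕ) : ℕ :=
  (Finset.range w).sup fun j => cost R (q ((z, roundAnswers (Certified R) q z w i), j))

/-- The language `L` is decided by a deterministic polynomial-time computation with advice and with
an oracle in `NP` relative to `O`. The oracle in `NP` is the set of the strings `Q` that have a
certificate; certificates are checked in polynomial time by a machine with the oracle `O`, and their
length is at most `P |Q|`. The computation consists of `N n` rounds with `W n` parallel queries in
each round, where `n` is the length of the input, `W` is a polynomial and `N n ≤ P n`. The functions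
`q` and `d` give the queries and the final decision; they are computed by Turing machines in time
polynomial in the length of the input, the advice, the answers in the previous rounds and the number
of the query in the round. The advice `a n` depends on `n` only. -/
structure Decides (O L : Set (List Bool)) (R : List Bool × List Bool → Prop)
    (q : ((List Bool × List Bool) × List Bool) × ℕ → List Bool)
    (d : (List Bool × List Bool) × List Bool → Bool) (a : ℕ → List Bool) (N : ℕ → ℕ)
    (W P : Polynomial ℕ) : Prop where
  verifier : PolyTime encPair O R
  length : ∀ Q c : List Bool, R (Q, c) → c.length ≤ P.eval Q.length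
  query : Nonempty (TM2ComputableInPolyTime
    (fun z : ((List Bool × List Bool) × List Bool) × ℕ =>
      encPair (encPair (encPair z.1.1, z.1.2), List.replicate z.2 true)) (fun w => w) q)
  decision : Nonempty (TM2ComputableInPolyTime
    (fun z : (List Bool × List Bool) × List Bool => encPair (encPair z.1, z.2)) encodeBool d)
  number : ∀ n, N n ≤ P.eval n
  decides : ∀ x : List Bool, x ∈ L ↔ d ((x, a x.length),
    roundAnswers (Certified R) q (x, a x.length) (W.eval x.length) (N x.length)) = true

/-- Languages decided by a computation as above with `O(n ^ γ)` bits of advice in which all queries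
cost `O(n ^ k)` and in all but `O(n ^ γ)` rounds all queries cost `O(n ^ δ)`. -/
def InTradeoff (O : Set (List Bool)) (k γ δ : ℝ) (L : Set (List Bool)) : Prop :=
  ∃ (R : List Bool × List Bool → Prop)
    (q : ((List Bool × List Bool) × List Bool) × ℕ → List Bool)
    (d : (List Bool × List Bool) × List Bool → Bool) (a : ℕ → List Bool) (N : ℕ → ℕ)
    (W P : Polynomial ℕ) (C : ℕ),
    Decides O L R q d a N W P ∧ (∀ n : ℕ, ((a n).length : ℝ) ≤ C * (n : ℝ) ^ γ + C) ∧
    ∀ x : List Bool,
      (∀ i < N x.length, (roundCost R q (x, a x.length) (W.eval x.length) i : ℝ) ≤
        C * (x.length : ℝ) ^ k + C) ∧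
      (({i | i < N x.length ∧ C * (x.length : ℝ) ^ δ + C <
        (roundCost R q (x, a x.length) (W.eval x.length) i : ℝ)}.ncard : ℕ) : ℝ) ≤
          C * (x.length : ℝ) ^ γ + C

/-- Languages decided by a computation as above, without advice, in which the sum over all rounds of
the largest cost of a query in the round is `O(n ^ s)`. -/
def InTotal (O : Set (List Bool)) (s : ℝ) (L : Set (List Bool)) : Prop :=
  ∃ (R : List Bool × List Bool → Prop)
    (q : ((List Bool × List Bool) × List Bool) × ℕ → List Bool)
    (d : (List Bool × List Bool) × List Bool → Bool) (N : ℕ → ℕ) (W P : Polynomial ℕ) (C : ℕ),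
    Decides O L R q d (fun _ => []) N W P ∧
    ∀ x : List Bool, ((∑ i ∈ Finset.range (N x.length),
      roundCost R q (x, []) (W.eval x.length) i : ℕ) : ℝ) ≤ C * (x.length : ℝ) ^ s + C

end Pool.Agent.MP_92db0f_lc_gold
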