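import Pool.Agent.MP_92db0f_lc_gold.OPT
import Pool.Agent.MP_92db0f_lc_gold.Defs

/-!
A complete problem for the class `NE` relative to an oracle.
-/

set_option autoImplicit false
set_option linter.unusedSectionVars false

namespace Pool.Agent.MP_92db0f_lc_gold

open Lib.helper60 Function Turing Computability
open MP_92db0f_lc hiding answers
open MP_92db0f_lc_alg (answers PolyTime)

/-- the code of the input of a computation -/
def enc3 (z : (List Bool × List Bool) × List Bool) : List Bool := encPair (encPair z.1, z.2)

/-! ### machines and functions -/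

lemma PT_enc3 {α : Type} [DEnc α] {f : α → (List Bool × List Bool) × List Bool} (hf : PT f) :
    PT (fun a => enc3 (f a)) :=
  PT_encPair (PT_encPair hf.p1.p1 hf.p1.p2) hf.p2

/-- decoding -/
def dec3 (w : List Bool) : (List Bool × List Bool) × List Bool :=
  (unpair (unpair w).1, (unpair w).2)

lemma dec3_enc3 (z : (List Bool × List Bool) × List Bool) : dec3 (enc3 z) = z := by
  unfold dec3 enc3
  simp only [unpair_enc]

lemma PT_dec3 : PT dec3 := PT.pair (PT_unpair.comp PT_unpair.p1) PT_unpair.p2

lemma PT_of_str {q : (List Bool × List Bool) × List Bool → List Bool}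
    (h : Nonempty (TM2ComputableInPolyTime
      (fun z : (List Bool × List Bool) × List Bool => encPair (encPair z.1, z.2))
        (fun w => w) q)) : PT q := by
  obtain ⟨F, hF, h1⟩ := exists_PT h
  exact (hF.comp (PT_enc3 PT.id)).congr fun z => h1 z

lemma PT_of_bool {d : (List Bool × List Bool) × List Bool → Bool}
    (h : Nonempty (TM2ComputableInPolyTime
      (fun z : (List Bool × List Bool) × List Bool => encPair (encPair z.1, z.2))
        encodeBool d)) : PT d := by
  obtain ⟨F, hF, h1⟩ := exists_PT h
  refine (PT.headD (hF.comp (PT_enc3 PT.id)) (PT.const false)).congr fun z => ?_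
  have h2 : F (enc3 z) = encodeBool (d z) := h1 z
  rw [h2]
  rfl

lemma TM_of_str {q : (List Bool × List Bool) × List Bool → List Bool} (hq : PT q) :
    Nonempty (TM2ComputableInPolyTime
      (fun z : (List Bool × List Bool) × List Bool => encPair (encPair z.1, z.2))
        (fun w => w) q) :=
  PT.toTM2 (F := fun w => q (dec3 w)) (hq.comp PT_dec3) fun z => by
    have h : dec3 (encPair (encPair z.1, z.2)) = z := dec3_enc3 z
    rw [h]

lemma TM_of_bool {d : (List Bool × List Bool) × List Bool → Bool} (hd : PT d) :
    Nonempty (TM2ComputableInPolyTime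
      (fun z : (List Bool × List Bool) × List Bool => encPair (encPair z.1, z.2))
        encodeBool d) :=
  PT.decider (F := fun w => d (dec3 w)) (hd.comp PT_dec3) fun z => by
    have h : dec3 (encPair (encPair z.1, z.2)) = z := dec3_enc3 z
    rw [h]

/-- verifiers in polynomial time with an oracle are functions of the class `OPT` -/
lemma exists_OPT {O : Set (List Bool)} {R : List Bool × List Bool → Prop}
    (h : PolyTime encPair O R) : ∃ f : List Bool × List Bool → Bool, OPT O f ∧
      ∀ p, R p ↔ f p = true := by
  obtain ⟨q, d, P, hq, hd, hR⟩ := h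
  refine ⟨fun p => d (p, answers O q p (P.eval (encPair p).length)),
    ⟨q, d, fun p => P.eval (encPair p).length, PT_of_str hq, PT_of_bool hd,
      PT_peval P (PT.length (PT_encPair PT.fst PT.snd)), fun _ => rfl⟩, hR⟩

lemma meas_pair_le (p : List Bool × List Bool) : Meas.m p ≤ (encPair p).length := by
  have h1 : Meas.m p = p.1.length + p.2.length + 2 := rfl
  have h2 : (encPair p).length = 2 * p.1.length + 2 + p.2.length := length_encPair p.1 p.2
  omega

lemma OPT.polyTime {O : Set (List Bool)} {f : List Bool × List Bool → Bool} (hf : OPT O f) :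
    PolyTime encPair O (fun p => f p = true) := by
  obtain ⟨q, g, N, hq, hg, hN, hf⟩ := hf
  obtain ⟨P, hP⟩ := pbMeas (natPB hN)
  refine ⟨q, fun z => g (z.1, z.2.take (N z.1)), P, TM_of_str hq,
    TM_of_bool (hg.comp (PT.pair PT.fst (PT_take (hN.comp PT.fst) PT.snd))), fun p => ?_⟩
  beta_reduce
  rw [hf p, answers_take O q p _ _ (hP p _ (meas_pair_le p))]

/-! ### the complete problem -/

/-- the next query of the universal verifier -/
def qK (z : (List Bool × List Bool) × List Bool) : List Bool :=
  tout (parse (unpair (unpair z.1.1).1).1) (trun (parse (unpair (unpair z.1.1).1).1)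
    (enc3 (((unpair z.1.1).2, (unpair z.1.2).1), z.2)) (unpair (unpair z.1.2).2).2.length)

/-- the decision of the universal verifier -/
def gK (z : (List Bool × List Bool) × List Bool) : Bool :=
  ((List.range (unpair (unpair z.1.2).2).1.length).all fun i =>
    thalt (parse (unpair (unpair z.1.1).1).1) (trun (parse (unpair (unpair z.1.1).1).1)
      (enc3 (((unpair z.1.1).2, (unpair z.1.2).1), z.2.take i))
        (unpair (unpair z.1.2).2).2.length)) &&
  (thalt (parse (unpair (unpair z.1.1).1).2) (trun (parse (unpair (unpair z.1.1).1).2)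
      (enc3 (((unpair z.1.1).2, (unpair z.1.2).1), z.2)) (unpair (unpair z.1.2).2).2.length) &&
  (tout (parse (unpair (unpair z.1.1).1).2) (trun (parse (unpair (unpair z.1.1).1).2)
      (enc3 (((unpair z.1.1).2, (unpair z.1.2).1), z.2))
        (unpair (unpair z.1.2).2).2.length)).headD false)

/-- the number of queries of the universal verifier -/
def nK (p : List Bool × List Bool) : ℕ := (unpair (unpair p.2).2).1.length

lemma PT_qK : PT qK := by
  unfold qK
  have h1 : PT (fun z : (List Bool × List Bool) × List Bool => unpair z.1.1) :=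
    PT_unpair.comp PT.fst.p1
  have h2 : PT (fun z : (List Bool × List Bool) × List Bool => unpair z.1.2) :=
    PT_unpair.comp PT.fst.p2
  have h3 : PT (fun z : (List Bool × List Bool) × List Bool => unpair (unpair z.1.2).2) :=
    PT_unpair.comp h2.p2
  have hφ : PT (fun z : (List Bool × List Bool) × List Bool =>
      parse (unpair (unpair z.1.1).1).1) := PT_parse.comp (PT_unpair.comp h1.p1).p1
  exact PT_tout hφ (PT_trun hφ (PT_enc3 (PT.pair (PT.pair h1.p2 h2.p1) PT.snd))
    (PT.length h3.p2))

lemma PT_gK : PT gK := by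
  unfold gK
  have h1 : PT (fun z : (List Bool × List Bool) × List Bool => unpair z.1.1) :=
    PT_unpair.comp PT.fst.p1
  have h2 : PT (fun z : (List Bool × List Bool) × List Bool => unpair z.1.2) :=
    PT_unpair.comp PT.fst.p2
  have h3 : PT (fun z : (List Bool × List Bool) × List Bool => unpair (unpair z.1.2).2) :=
    PT_unpair.comp h2.p2
  have hφ : PT (fun z : (List Bool × List Bool) × List Bool =>
      parse (unpair (unpair z.1.1).1).1) := PT_parse.comp (PT_unpair.comp h1.p1).p1
  have hψ : PT (fun z : (List Bool × List Bool) × List Bool =>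
      parse (unpair (unpair z.1.1).1).2) := PT_parse.comp (PT_unpair.comp h1.p1).p2
  have hr := PT_trun hψ (PT_enc3 (PT.pair (PT.pair h1.p2 h2.p1)
    (PT.snd (α := List Bool × List Bool) (β := List Bool)))) (PT.length h3.p2)
  refine PT.band ?_ (PT.band (PT_thalt hψ hr) (PT.headD (PT_tout hψ hr) (PT.const false)))
  refine PT.all (p := fun y : ((List Bool × List Bool) × List Bool) × ℕ =>
    thalt (parse (unpair (unpair y.1.1.1).1).1) (trun (parse (unpair (unpair y.1.1.1).1).1)
      (enc3 (((unpair y.1.1.1).2, (unpair y.1.1.2).1), y.1.2.take y.2))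
        (unpair (unpair y.1.1.2).2).2.length)) (PT.range (PT.length h3.p1)) ?_
  have hφ' := hφ.comp (PT.fst (α := (List Bool × List Bool) × List Bool) (β := ℕ))
  exact PT_thalt hφ' (PT_trun hφ' (PT_enc3 (PT.pair (PT.pair (h1.comp PT.fst).p2
    (h2.comp PT.fst).p1) (PT_take PT.snd PT.fst.p2))) (PT.length (h3.comp PT.fst).p2))

lemma PT_nK : PT nK := by
  unfold nK
  exact PT.length (PT_unpair.comp (PT_unpair.comp PT.snd).p2).p1

/-- the universal verifier -/
noncomputable def VK (O : Set (List Bool)) (p : List Bool × List Bool) : Bool :=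
  gK (p, answers O qK p (nK p))

lemma OPT_VK (O : Set (List Bool)) : OPT O (VK O) := ⟨qK, gK, nK, PT_qK, PT_gK, PT_nK, fun _ => rfl⟩

/-- the complete problem -/
def KL (O : Set (List Bool)) : Set (List Bool) :=
  {z | ∃ y : List Bool, y.length ≤ 2 ^ (1 * z.length + 1) ∧ VK O (z, y) = true}

theorem KL_mem (O : Set (List Bool)) : InNE O (KL O) :=
  ⟨1, fun p => VK O p = true, (OPT_VK O).polyTime, fun _ => Iff.rfl⟩

/-- The universal verifier simulates all verifiers. -/
theorem VK_spec {O : Set (List Bool)} {V : List Bool × List Bool → Bool} (hV : OPT O V) :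
    ∃ (U : ℕ → List Bool) (T : Polynomial ℕ), (∀ s₀, s₀ ≤ (U s₀).length) ∧
      ∀ (s₀ : ℕ) (w y : List Bool) (s t : ℕ),
        (VK O (encPair (U s₀, w), encPair (y, encPair (List.replicate s true,
          List.replicate t true))) = true → V (w, y) = true) ∧
        (V (w, y) = true → T.eval (encPair (w, y)).length ≤ s →
          T.eval ((encPair (w, y)).length + s) ≤ t →
          VK O (encPair (U s₀, w), encPair (y, encPair (List.replicate s true,
            List.replicate t true))) = true) := by
  obtain ⟨q, g, N, hq, hg, hN, hqg⟩ := hV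
  obtain ⟨G, hG⟩ : ∃ G : (List Bool × List Bool) × List Bool → Bool,
    G = fun z => decide (N z.1 ≤ z.2.length) && g (z.1, z.2.take (N z.1)) := ⟨_, rfl⟩
  have hG' : PT G := by
    rw [hG]
    exact PT.band (PT.nle (hN.comp PT.fst) (PT.length PT.snd))
      (hg.comp (PT.pair PT.fst (PT_take (hN.comp PT.fst) PT.snd)))
  have hGz : ∀ z, G z = true ↔ N z.1 ≤ z.2.length ∧ g (z.1, z.2.take (N z.1)) = true := by
    intro z
    rw [hG]
    simp
  obtain ⟨cq⟩ := TM_of_str hq
  obtain ⟨φ, T, hs⟩ := exists_table cq
  obtain ⟨cg⟩ := TM_of_bool hG'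
  obtain ⟨ψ, T', hs'⟩ := exists_table cg
  obtain ⟨P, hP⟩ := pbMeas (natPB hN)
  refine ⟨fun s₀ => encPair (encCNF φ, encCNF ψ ++ List.replicate s₀ true),
    P + T.comp (2 * Polynomial.X + 2) + T'.comp (2 * Polynomial.X + 2), ?_, ?_⟩
  · intro s₀
    rw [length_encPair, List.length_append, List.length_replicate]
    omega
  intro s₀ w y s t
  have hTe : ∀ n, (P + T.comp (2 * Polynomial.X + 2) + T'.comp (2 * Polynomial.X + 2)).eval n =
      P.eval n + T.eval (2 * n + 2) + T'.eval (2 * n + 2) := by
    intro n
    simp [Polynomial.eval_comp]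
  obtain ⟨z, hz⟩ : ∃ z, z = encPair (encPair (encCNF φ, encCNF ψ ++ List.replicate s₀ true), w) :=
    ⟨_, rfl⟩
  obtain ⟨c, hc⟩ : ∃ c, c = encPair (y, encPair (List.replicate s true,
      List.replicate t true)) := ⟨_, rfl⟩
  rw [← hz, ← hc]
  have hu1 : (unpair c).1 = y := by rw [hc, unpair_enc]
  have hu2 : (unpair (unpair c).2).1.length = s := by
    rw [hc, unpair_enc]
    simp only [unpair_enc, List.length_replicate]
  have hu3 : (unpair (unpair c).2).2.length = t := by
    rw [hc, unpair_enc]
    simp only [unpair_enc, List.length_replicate]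
  have hqK : ∀ v, qK ((z, c), v) = tout φ (trun φ (enc3 ((w, y), v)) t) := by
    intro v
    rw [hz]
    unfold qK
    simp only [unpair_enc, parse_enc, hu1, hu3]
  have hgK : ∀ v, gK ((z, c), v) = true ↔
      (∀ i < s, thalt φ (trun φ (enc3 ((w, y), v.take i)) t) = true) ∧
      thalt ψ (trun ψ (enc3 ((w, y), v)) t) = true ∧
      (tout ψ (trun ψ (enc3 ((w, y), v)) t)).headD false = true := by
    intro v
    rw [hz]
    unfold gK
    simp only [unpair_enc, parse_enc, parse_append_true, Bool.and_eq_true, List.all_eq_true,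
      List.mem_range, hu1, hu2, hu3]
  have hsq : ∀ a t, (T.eval (enc3 a).length ≤ t → thalt φ (trun φ (enc3 a) t) = true) ∧
    (thalt φ (trun φ (enc3 a) t) = true → tout φ (trun φ (enc3 a) t) = q a) := hs
  have hsg : ∀ a t, (T'.eval (enc3 a).length ≤ t → thalt ψ (trun ψ (enc3 a) t) = true) ∧
    (thalt ψ (trun ψ (enc3 a) t) = true → tout ψ (trun ψ (enc3 a) t) = encodeBool (G a)) := hs'
  have hn : nK (z, c) = s := hu2
  constructor
  · intro hc
    unfold VK at hc
    obtain ⟨h1, h2, h3⟩ := (hgK _).mp hc
    rw [hn] at h1 h2 h3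
    -- the answers agree
    have h4 : ∀ i ≤ s, answers O qK (z, c) i = answers O q (w, y) i := by
      intro i
      induction i with
      | zero => intro _; rfl
      | succ i ih =>
        intro hi
        have h5 := h1 i (by omega)
        rw [answers_take O qK (z, c) _ _ (by omega)] at h5
        have h6 := (hsq _ _).2 h5
        rw [answers, answers, ← ih (by omega), hqK, h6]
    rw [h4 _ le_rfl] at h2 h3
    have h5 := (hsg _ _).2 h2
    rw [h5] at h3
    have h6 : G ((w, y), answers O q (w, y) s) = true := h3
    obtain ⟨h7, h8⟩ := (hGz _).mp h6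
    simp only at h7 h8
    rw [length_answers] at h7
    rw [answers_take _ _ _ _ _ h7, ← hqg] at h8
    exact h8
  · intro h1 hs1 ht1
    rw [hTe] at hs1 ht1
    obtain ⟨n, hn'⟩ : ∃ n, n = (encPair (w, y)).length := ⟨_, rfl⟩
    rw [← hn'] at hs1 ht1
    have hNn : N (w, y) ≤ P.eval n := by rw [hn']; exact hP _ _ (meas_pair_le _)
    have hl : ∀ v : List Bool, v.length ≤ s →
        (enc3 ((w, y), v)).length ≤ 2 * (n + s) + 2 := by
      intro v hv
      have h2 : (enc3 ((w, y), v)).length = 2 * (encPair (w, y)).length + 2 + v.length :=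
        length_encPair _ _
      rw [h2, ← hn']
      omega
    have hhalt : ∀ v : List Bool, v.length ≤ s →
        thalt φ (trun φ (enc3 ((w, y), v)) t) = true := by
      intro v hv
      have h2 : T.eval (enc3 ((w, y), v)).length ≤ T.eval (2 * (n + s) + 2) :=
        evalMono T (hl v hv)
      exact (hsq _ _).1 (by omega)
    have h4 : ∀ i ≤ s, answers O qK (z, c) i = answers O q (w, y) i := by
      intro i
      induction i with
      | zero => intro _; rfl
      | succ i ih =>
        intro hi
        rw [answers, answers, ← ih (by omega), hqK,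
          (hsq _ _).2 (hhalt _ (by rw [length_answers]; omega))]
    unfold VK
    rw [hgK, hn, h4 _ le_rfl]
    have h5 : thalt ψ (trun ψ (enc3 ((w, y), answers O q (w, y) s)) t) = true := by
      have h2 : T'.eval (enc3 ((w, y), answers O q (w, y) s)).length ≤
          T'.eval (2 * (n + s) + 2) := evalMono T' (hl _ (by rw [length_answers]))
      exact (hsg _ _).1 (by omega)
    refine ⟨?_, h5, ?_⟩
    · intro i hi
      exact hhalt _ ((List.length_take_le _ _).trans (by omega))
    · rw [(hsg _ _).2 h5]
      have h6 : G ((w, y), answers O q (w, y) s) = true := by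
        rw [hGz]
        dsimp only
        refine ⟨by rw [length_answers]; omega, ?_⟩
        rw [answers_take _ _ _ _ _ (by omega), ← hqg]
        exact h1
      rw [h6]
      rfl

/-- every certificate has the form of a triple, as far as the verifier is concerned -/
lemma VK_norm (O : Set (List Bool)) (z c : List Bool) : VK O (z, c) =
    VK O (z, encPair ((unpair c).1, encPair (List.replicate (unpair (unpair c).2).1.length true,
      List.replicate (unpair (unpair c).2).2.length true))) := by
  obtain ⟨c', hc'⟩ : ∃ c', c' = encPair ((unpair c).1, encPair (List.replicate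
    (unpair (unpair c).2).1.length true, List.replicate (unpair (unpair c).2).2.length true)) :=
    ⟨_, rfl⟩
  rw [← hc']
  have h1 : (unpair c').1 = (unpair c).1 := by rw [hc', unpair_enc]
  have h2 : (unpair (unpair c').2).1.length = (unpair (unpair c).2).1.length := by
    rw [hc', unpair_enc]
    simp only [unpair_enc, List.length_replicate]
  have h3 : (unpair (unpair c').2).2.length = (unpair (unpair c).2).2.length := by
    rw [hc', unpair_enc]
    simp only [unpair_enc, List.length_replicate]
  have hn : nK (z, c) = nK (z, c') := h2.symm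
  have hq : ∀ v, qK ((z, c), v) = qK ((z, c'), v) := by
    intro v
    unfold qK
    simp only [h1, h3]
  have hg : ∀ v, gK ((z, c), v) = gK ((z, c'), v) := by
    intro v
    unfold gK
    simp only [h1, h2, h3]
  unfold VK
  rw [hg, hn, answers_congr O (fun v _ => hq v) _ le_rfl]

/-- Completeness for exponentially long certificates. -/
theorem KL_complete {O : Set (List Bool)} {V : List Bool × List Bool → Bool} (hV : OPT O V)
    (κ : ℕ) : ∃ (u : List Bool) (K : ℕ), ∀ w,
      encPair (u, encPair (w, List.replicate (K * (w.length + 1)) true)) ∈ KL O ↔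
        ∃ y : List Bool, y.length ≤ 2 ^ (w.length + κ) ∧ V (w, y) = true := by
  let V' : List Bool × List Bool → Bool := fun p =>
    decide (p.2.length - 1 ≤ p2 p.2.length ((unpair p.1).1.length + κ)) && V ((unpair p.1).1, p.2)
  have hV' : OPT O V' := by
    have h1 : PT (fun p : List Bool × List Bool => (unpair p.1).1) := (PT_unpair.comp PT.fst).p1
    have h2 : PT (fun p : List Bool × List Bool => p.2.length) := PT.length PT.snd
    exact OPT.band (OPT.of_PT (PT.nle (PT.nsub h2 (PT.const 1)) (PT_p2 h2 (PT.nadd (PT.length h1)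
      (PT.const κ))))) (hV.comp_PT (PT.pair h1 PT.snd))
  have hV'' : ∀ w t y : List Bool, V' (encPair (w, t), y) = true ↔
      y.length ≤ 2 ^ (w.length + κ) ∧ V (w, y) = true := by
    intro w t y
    simp only [V', unpair_enc, Bool.and_eq_true, decide_eq_true_eq]
    rw [p2_eq]
    have h1 : 1 ≤ 2 ^ (w.length + κ) := Nat.one_le_pow _ _ (by norm_num)
    refine and_congr_left fun _ => ?_
    omega
  obtain ⟨U, T, hU, hspec⟩ := VK_spec hV'
  obtain ⟨TT, hTT⟩ : ∃ TT : Polynomial ℕ, TT = 2 * T + 2 + T.comp (Polynomial.X + T) := ⟨_, rfl⟩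
  have hTe : ∀ n, TT.eval n = 2 * T.eval n + 2 + T.eval (n + T.eval n) := by
    intro n
    rw [hTT]
    simp [Polynomial.eval_comp]
  obtain ⟨s₀, hs₀⟩ : ∃ s₀, s₀ = κ + 2 + TT.eval 13 + TT.natDegree * (κ + TT.natDegree) := ⟨_, rfl⟩
  refine ⟨U s₀, TT.natDegree, fun w => ?_⟩
  obtain ⟨w', hw'⟩ : ∃ w', w' = encPair (w, List.replicate (TT.natDegree * (w.length + 1)) true) :=
    ⟨_, rfl⟩
  rw [← hw']
  constructor
  · rintro ⟨c, _, hc⟩
    rw [VK_norm] at hc
    have h1 := (hspec s₀ w' _ _ _).1 hc
    rw [hw'] at h1
    exact ⟨_, (hV'' _ _ _).mp h1⟩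
  · rintro ⟨y, hy1, hy2⟩
    have h1 : V' (w', y) = true := by rw [hw']; exact (hV'' _ _ _).mpr ⟨hy1, hy2⟩
    obtain ⟨n, hn⟩ : ∃ n, n = (encPair (w', y)).length := ⟨_, rfl⟩
    have h2 := (hspec s₀ w' y (T.eval n) (T.eval (n + T.eval n))).2 h1 (by rw [← hn])
      (by rw [← hn])
    refine ⟨_, ?_, h2⟩
    rw [length_encPair, length_encPair, length_encPair, List.length_replicate,
      List.length_replicate]
    have h3 := cert_bound TT κ w.length y.length 0 s₀ hs₀ hy1
    have h4 := hTe n
    have h5 : n = 2 * (2 * w.length + 2 + TT.natDegree * (w.length + 1)) + 2 + y.length := by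
      rw [hn, length_encPair, hw', length_encPair, List.length_replicate]
    rw [← h5] at h3
    have h6 : w'.length = 2 * w.length + 2 + TT.natDegree * (w.length + 1) := by
      rw [hw', length_encPair, List.length_replicate]
    rw [← h6] at h3
    have h7 := hU s₀
    have h8 : 2 * y.length + 2 + (2 * T.eval n + 2 + T.eval (n + T.eval n)) ≤
        2 * y.length + 2 + TT.eval n := by rw [h4]
    refine (h8.trans h3).trans (Nat.pow_le_pow_right (by norm_num) ?_)
    omega

end Pool.Agent.MP_92db0f_lc_gold
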