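import Pool.Agent.MP_92db0f_lc_gold.Flat
import Pool.Agent.MP_92db0f_lc_thr.Defs

/-!
Sequential computations with few long queries as computations in rounds.
-/

set_option autoImplicit false
set_option linter.unusedSectionVars false

namespace Pool.Agent.MP_92db0f_lc_gold

open Lib.helper60 Function Turing Computability
open MP_92db0f_lc hiding answers
open MP_92db0f_lc_alg (answers PolyTime join)

/-! ### the oracle -/

open Classical in
lemma OPT_mem (A : Set (List Bool)) : OPT A (fun u : List Bool => decide (u ∈ A)) := by
  refine ⟨fun z => z.1, fun z => z.2.headD false, fun _ => 1, PT.fst,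
    PT.headD PT.snd (PT.const false), PT.const 1, fun u => ?_⟩
  rw [answers, answers]
  rfl

open Classical in
/-- the verifier of the combined oracle -/
noncomputable def RB (A : Set (List Bool)) (f : List Bool × List Bool → Bool)
    (w : List Bool × List Bool) : Bool :=
  (decide (w.1.take 1 = [false]) && (decide (w.2 = []) && decide (w.1.drop 1 ∈ A))) ||
  (decide (w.1.take 1 = [true]) && (decide (w.2.length ≤ (w.1.drop 1).length) &&
    f (w.1.drop 1, w.2)))

lemma OPT_RB {A : Set (List Bool)} {f : List Bool × List Bool → Bool} (hf : OPT A f) :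
    OPT A (RB A f) := by
  unfold RB
  have h1 : PT (fun w : List Bool × List Bool => w.1.take 1) := PT_take (PT.const 1) PT.fst
  have h2 : PT (fun w : List Bool × List Bool => w.1.drop 1) := PT.drop (PT.const 1) PT.fst
  refine OPT.bor (OPT.band (OPT.of_PT (PT_leq h1 (PT.const [false]))) (OPT.band
    (OPT.of_PT (PT_leq PT.snd (PT.const []))) ((OPT_mem A).comp_PT h2))) ?_
  exact OPT.band (OPT.of_PT (PT_leq h1 (PT.const [true]))) (OPT.band
    (OPT.of_PT (PT.nle (PT.length PT.snd) (PT.length h2))) (hf.comp_PT (PT.pair h2 PT.snd)))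

lemma RB_nil (A : Set (List Bool)) (f : List Bool × List Bool → Bool) (c : List Bool) :
    RB A f ([], c) = false := by
  simp [RB]

lemma RB_false (A : Set (List Bool)) (f : List Bool × List Bool → Bool) (u c : List Bool) :
    RB A f (false :: u, c) = true ↔ c = [] ∧ u ∈ A := by
  simp [RB]

lemma RB_true (A : Set (List Bool)) (f : List Bool × List Bool → Bool) (u c : List Bool) :
    RB A f (true :: u, c) = true ↔ c.length ≤ u.length ∧ f (u, c) = true := by
  simp [RB]

lemma certified_RB (A : Set (List Bool)) (f : List Bool × List Bool → Bool) :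
    Certified (fun p => RB A f p = true) =
      join A (MP_92db0f_lc_thr.certified (fun w => w) fun p => f p = true) := by
  ext w
  unfold Certified join MP_92db0f_lc_thr.certified
  rcases w with _ | ⟨b, u⟩
  · constructor
    · rintro ⟨c, hc⟩
      rw [RB_nil] at hc
      exact absurd hc (by simp)
    · rintro (⟨u, h, _⟩ | ⟨u, h, _⟩)
      · exact absurd h (by simp)
      · exact absurd h (by simp)
  · cases b
    · constructor
      · rintro ⟨c, hc⟩
        rw [RB_false] at hc
        exact Or.inl ⟨u, rfl, hc.2⟩
      · rintro (⟨u', h, h'⟩ | ⟨u', h, _⟩)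
        · obtain rfl : u = u' := by simpa using h
          exact ⟨[], (RB_false _ _ _ _).mpr ⟨rfl, h'⟩⟩
        · exact absurd h (by simp)
    · constructor
      · rintro ⟨c, hc⟩
        rw [RB_true] at hc
        exact Or.inr ⟨u, rfl, c, hc⟩
      · rintro (⟨u', h, _⟩ | ⟨u', h, c, h'⟩)
        · exact absurd h (by simp)
        · obtain rfl : u = u' := by simpa using h
          exact ⟨c, (RB_true _ _ _ _).mpr h'⟩

lemma cost_le_of {R : List Bool × List Bool → Prop} {Q : List Bool} {l : ℕ}
    (h : ∀ c, R (Q, c) → ∃ c', R (Q, c') ∧ c'.length ≤ l) : cost R Q ≤ l := by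
  unfold cost
  rcases Set.eq_empty_or_nonempty {l | ∃ c : List Bool, c.length = l ∧ R (Q, c)} with he | hne
  · rw [he, Nat.sInf_empty]
    exact Nat.zero_le _
  · obtain ⟨_, c, _, hc⟩ := hne
    obtain ⟨c', hc1, hc2⟩ := h c hc
    exact (Nat.sInf_le (show c'.length ∈ {l | ∃ c : List Bool, c.length = l ∧ R (Q, c)} from
      ⟨c', rfl, hc1⟩)).trans hc2

lemma cost_RB (A : Set (List Bool)) (f : List Bool × List Bool → Bool) (Q : List Bool) :
    cost (fun p => RB A f p = true) Q = 0 ∨ ∃ u, Q = true :: u ∧
      cost (fun p => RB A f p = true) Q ≤ u.length := by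
  rcases Q with _ | ⟨b, u⟩
  · left
    have h := cost_le_of (R := fun p => RB A f p = true) (Q := []) (l := 0) fun c hc => by
      rw [RB_nil] at hc
      exact absurd hc (by simp)
    omega
  · cases b
    · left
      have h := cost_le_of (R := fun p => RB A f p = true) (Q := false :: u) (l := 0)
        fun c hc => ⟨c, hc, by
          rw [RB_false] at hc
          rw [hc.1]
          exact le_rfl⟩
      omega
    · right
      exact ⟨u, rfl, cost_le_of fun c hc => ⟨c, hc, ((RB_true _ _ _ _).mp hc).1⟩⟩

/-! ### one query in each round -/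

lemma roundAnswers_one (B : Set (List Bool))
    (q : (List Bool × List Bool) × List Bool → List Bool) (z : List Bool × List Bool) (i : ℕ) :
    roundAnswers B (fun w => q w.1) z 1 i = answers B q z i := by
  induction i with
  | zero => rfl
  | succ i ih =>
    rw [roundAnswers, ih, answers]
    rfl

lemma roundCost_one (R : List Bool × List Bool → Prop)
    (q : (List Bool × List Bool) × List Bool → List Bool) (z : List Bool × List Bool) (i : ℕ) :
    roundCost R (fun w => q w.1) z 1 i = cost R (q (z, answers (Certified R) q z i)) := by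
  unfold roundCost
  rw [roundAnswers_one]
  simp

/-- the translation -/
theorem conv {A L : Set (List Bool)} {T : ℕ → ℕ} {F : ℕ → ℕ → ℕ}
    {R : List Bool × List Bool → Prop} {q : (List Bool × List Bool) × List Bool → List Bool}
    {d : (List Bool × List Bool) × List Bool → Bool} {C : ℕ} (hT : ∀ n, 2 ^ T n ≤ C * n + C)
    (hD : MP_92db0f_lc_thr.Decides A T F (fun _ => []) (fun w => w) R q d L) :
    ∃ (R' : List Bool × List Bool → Prop)
      (q' : ((List Bool × List Bool) × List Bool) × ℕ → List Bool) (P : Polynomial ℕ),
      Decides A L R' q' d (fun _ => []) (fun n => 2 ^ T n) 1 P ∧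
      ∀ (x : List Bool) (i : ℕ), roundCost R' q' (x, []) 1 i = 0 ∨ ∃ Q : List Bool,
        q ((x, []), answers (join A (MP_92db0f_lc_thr.certified (fun w => w) R)) q (x, []) i) =
          true :: Q ∧ roundCost R' q' (x, []) 1 i ≤ Q.length := by
  obtain ⟨f, hf, hff⟩ := exists_OPT hD.oracle
  obtain rfl : R = fun p => f p = true := by
    funext p
    exact propext (hff p)
  have hq := PT_of_str hD.query
  refine ⟨fun p => RB A f p = true, fun w => q w.1, Polynomial.C C * Polynomial.X +
    Polynomial.C C + Polynomial.X, ⟨(OPT_RB hf).polyTime, ?_, TM_of_strN (hq.comp PT.fst),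
      hD.decision, ?_, ?_⟩, ?_⟩
  · intro Q c h
    simp only [Polynomial.eval_add, Polynomial.eval_mul, Polynomial.eval_C, Polynomial.eval_X]
    rcases Q with _ | ⟨b, u⟩
    · rw [RB_nil] at h
      exact absurd h (by simp)
    · cases b
      · rw [RB_false] at h
        rw [h.1]
        exact Nat.zero_le _
      · rw [RB_true] at h
        have := h.1
        rw [List.length_cons]
        omega
  · intro n
    simp only [Polynomial.eval_add, Polynomial.eval_mul, Polynomial.eval_C, Polynomial.eval_X]
    exact (hT n).trans (Nat.le_add_right _ _)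
  · intro x
    rw [Polynomial.eval_one, roundAnswers_one, certified_RB]
    exact hD.decides x
  · intro x i
    rw [roundCost_one, certified_RB]
    rcases cost_RB A f (q ((x, []), answers (join A (MP_92db0f_lc_thr.certified (fun w => w)
      fun p => f p = true)) q (x, []) i)) with h | ⟨u, h1, h2⟩
    · exact Or.inl h
    · exact Or.inr ⟨u, h1, h2⟩

end Pool.Agent.MP_92db0f_lc_gold
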