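import Pool.Agent.MP_92db0f_lc_gold.Round

/-!
Deterministic evaluation of a computation that decides the complete problem.
-/

set_option autoImplicit false
set_option linter.unusedSectionVars false

namespace Pool.Agent.MP_92db0f_lc_gold

open Lib.helper60 Function Turing Computability
open MP_92db0f_lc hiding answers
open MP_92db0f_lc_alg (answers PolyTime)

/-- a computation that decides the complete problem -/
structure Mach (O : Set (List Bool)) where
  R : List Bool × List Bool → Bool
  q : (List Bool × List Bool) × List Bool → List Bool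
  d : (List Bool × List Bool) × List Bool → Bool
  a : ℕ → List Bool
  N : ℕ → ℕ
  W : Polynomial ℕ
  P : Polynomial ℕ
  hR : OPT O R
  hround : ∀ z a v v' : List Bool, v.length = v'.length →
    v.take (dv (W.eval z.length) v.length * W.eval z.length) =
      v'.take (dv (W.eval z.length) v.length * W.eval z.length) → q ((z, a), v) = q ((z, a), v')
  hq : PT q
  hd : PT d
  hlen : ∀ Q c : List Bool, R (Q, c) = true → c.length ≤ P.eval Q.length
  hN : ∀ n, N n ≤ P.eval n
  hNW : ∀ n, W.eval n = 0 → N n = 0
  hL : ∀ z : List Bool, z ∈ KL O ↔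
    d ((z, a z.length), answers (Certified fun p => R p = true) q (z, a z.length)
      (N z.length)) = true

variable {O : Set (List Bool)}

namespace Mach

variable (M : Mach O)

/-- the oracle -/
def B : Set (List Bool) := Certified fun p => M.R p = true

/-- the answers -/
noncomputable def v (z : List Bool) (i : ℕ) : List Bool := answers M.B M.q (z, M.a z.length) i

/-- the queries -/
noncomputable def Q (z : List Bool) (i : ℕ) : List Bool := M.q ((z, M.a z.length), M.v z i)

open Classical in
lemma v_succ (z : List Bool) (i : ℕ) :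
    M.v z (i + 1) = M.v z i ++ [decide (M.Q z i ∈ M.B)] := by
  unfold v
  rw [answers]
  rfl

lemma length_v (z : List Bool) (i : ℕ) : (M.v z i).length = i := length_answers _ _ _ _

lemma v_take (z : List Bool) (i j : ℕ) (h : j ≤ i) : (M.v z i).take j = M.v z j :=
  answers_take _ _ _ _ _ h

open Classical in
lemma v_getD (z : List Bool) (i j : ℕ) (h : j < i) :
    (M.v z i).getD j false = decide (M.Q z j ∈ M.B) := by
  have h1 := M.v_take z i (j + 1) h
  rw [v_succ] at h1
  have h2 : (M.v z i).getD j false = ((M.v z i).take (j + 1)).getD j false := by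
    rw [List.getD_eq_getElem?_getD, List.getD_eq_getElem?_getD, List.getElem?_take]
    simp
  rw [h2, h1, List.getD_append_right _ _ _ _ (by rw [length_v]), length_v, Nat.sub_self]
  rfl

end Mach

/-! ### environments -/

/-- the number in the advice -/
def tE (e : List Bool × List Bool × ℕ) : ℕ := (unpair e.2.1).1.length

/-- the advice of the computation -/
def aE (e : List Bool × List Bool × ℕ) : List Bool := (unpair (unpair e.2.1).2).1

/-- further advice -/
def pE (e : List Bool × List Bool × ℕ) : List Bool := (unpair (unpair (unpair e.2.1).2).2).1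

/-- the number of queries -/
def nE (e : List Bool × List Bool × ℕ) : ℕ :=
  vlc e.2.2 (unpair (unpair (unpair e.2.1).2).2).2

/-- the advice string -/
def adv (t : ℕ) (a β : List Bool) (n : ℕ) : List Bool :=
  encPair (List.replicate t true, encPair (a, encPair (β, str n)))

lemma PT_tE : PT tE := PT.length (PT_unpair.comp PT.snd.p1).p1
lemma PT_aE : PT aE := (PT_unpair.comp (PT_unpair.comp PT.snd.p1).p2).p1
lemma PT_pE : PT pE := (PT_unpair.comp (PT_unpair.comp (PT_unpair.comp PT.snd.p1).p2).p2).p1
lemma PT_nE : PT nE :=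
  PT_vlc PT.snd.p2 (PT_unpair.comp (PT_unpair.comp (PT_unpair.comp PT.snd.p1).p2).p2).p2

section

variable (x : List Bool) (t : ℕ) (a β : List Bool) (n pad : ℕ)

lemma tE_adv : tE (x, adv t a β n, pad) = t := by
  simp [tE, adv, unpair_enc]

lemma aE_adv : aE (x, adv t a β n, pad) = a := by
  simp [aE, adv, unpair_enc]

lemma pE_adv : pE (x, adv t a β n, pad) = β := by
  simp [pE, adv, unpair_enc]

lemma nE_adv (h : n ≤ pad) : nE (x, adv t a β n, pad) = n := by
  simp only [nE, adv, unpair_enc]
  rw [vlc_eq, vl_str, min_eq_right h]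

lemma length_adv : (adv t a β n).length =
    2 * t + 2 + (2 * a.length + 2 + (2 * β.length + 2 + (str n).length)) := by
  unfold adv
  simp only [length_encPair, List.length_replicate]

end

/-- the input of the complete problem -/
def zE (u : List Bool) (K c p : ℕ) (e : List Bool × List Bool × ℕ) : List Bool :=
  zred u K c p (e.1, tE e)

lemma PT_zE (u : List Bool) (K c p : ℕ) : PT (zE u K c p) :=
  (PT_zred u K c p).comp (PT.pair PT.fst PT_tE)

/-- the number of queries is bounded -/
lemma Mach.exists_N (M : Mach O) (u : List Bool) (K c p r : ℕ) (hr : 1 ≤ r) (hp : r ≤ p) :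
    ∃ D, ∀ m, M.N (zlen u K c p m (wd r m)) + 2 ≤ 2 ^ (D * wd r m) := by
  obtain ⟨c₀, hc₀⟩ := zlen_le u K c p
  obtain ⟨s₀, hs⟩ := exists_poly_le (M.P.comp (Polynomial.C c₀ * Polynomial.X ^ p) + 2)
  refine ⟨s₀ + 1, fun m => ?_⟩
  have ht := wd_pos r m
  have hm : m ≤ wd r m ^ p :=
    (lt_wd_pow hr m).le.trans (Nat.pow_le_pow_right ht hp)
  have h1 := hs (wd r m)
  have h2 : (M.P.comp (Polynomial.C c₀ * Polynomial.X ^ p) + 2).eval (wd r m) =
      M.P.eval (c₀ * wd r m ^ p) + 2 := by
    simp [Polynomial.eval_comp]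
  rw [h2] at h1
  have h3 : M.P.eval (zlen u K c p m (wd r m)) ≤ M.P.eval (c₀ * wd r m ^ p) :=
    evalMono M.P (hc₀ m _ ht hm)
  have h4 := M.hN (zlen u K c p m (wd r m))
  refine (show M.N (zlen u K c p m (wd r m)) + 2 ≤ M.P.eval (c₀ * wd r m ^ p) + 2 by omega).trans
    (h1.trans (Nat.pow_le_pow_right (by norm_num) ?_))
  have h5 : s₀ ≤ s₀ * wd r m := Nat.le_mul_of_pos_right _ (by omega)
  have h6 : (s₀ + 1) * wd r m = s₀ * wd r m + wd r m := by ring
  omega

/-- **Evaluation.** The function `F` gives the answers of the oracle. -/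
theorem eval_lemma (M : Mach O) {r p κ : ℕ} (hr : 2 ≤ r) (hp : r ≤ p) (hκ : 1 ≤ κ)
    {L : Set (List Bool)} {u : List Bool} {K c : ℕ}
    (hL : ∀ x : List Bool, x ∈ L ↔ zred u K c p (x, wd r x.length) ∈ KL O) {A : ℕ}
    (ha : ∀ m, (M.a (zlen u K c p m (wd r m))).length ≤ A * wd r m ^ (r - 1))
    {β : ℕ → List Bool} (hβ : ∀ m, (β m).length ≤ A * wd r m ^ (r - 1))
    {F : (List Bool × List Bool × ℕ) × List Bool → Bool} (hF : OPT O F)
    (hFc : ∀ (x : List Bool) (pad : ℕ), 2 ^ (A * wd r x.length ^ κ) ≤ pad →
      ∀ i < M.N (zlen u K c p x.length (wd r x.length)),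
        (F ((x, adv (wd r x.length) (M.a (zlen u K c p x.length (wd r x.length)))
          (β x.length) (M.N (zlen u K c p x.length (wd r x.length))), pad),
          M.v (zred u K c p (x, wd r x.length)) i) = true ↔
            M.Q (zred u K c p (x, wd r x.length)) i ∈ M.B)) :
    InDA O r κ L := by
  classical
  obtain ⟨D, hD⟩ := M.exists_N u K c p r (by omega) hp
  have hgen : OPT O (fun e : List Bool × List Bool × ℕ => gen F e (nE e)) :=
    (OPT.gen hF).comp_PT (PT.pair PT.id PT_nE)
  have hW : OPT O (fun e : List Bool × List Bool × ℕ =>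
      M.d ((zE u K c p e, aE e), gen F e (nE e))) :=
    ((OPT.of_PT (PT.pair (PT_zE u K c p) PT_aE)).pair hgen).map
      (h := fun w : (List Bool × List Bool) × List Bool => M.d w) M.hd
  refine ⟨_, fun m => adv (wd r m) (M.a (zlen u K c p m (wd r m))) (β m)
    (M.N (zlen u K c p m (wd r m))), A + D + (4 * A + 8 + D), hW, ?_, ?_⟩
  · intro m
    rw [length_adv]
    have h1 := wd_pos r m
    have h2 : wd r m ≤ wd r m ^ (r - 1) := Nat.le_self_pow (by omega) _
    have h3 : (str (M.N (zlen u K c p m (wd r m)))).length < D * wd r m + 1 := by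
      apply length_str_lt
      have h4 := hD m
      rw [pow_succ]
      omega
    have h4 := ha m
    have h5 := hβ m
    have h6 : D * wd r m ≤ D * wd r m ^ (r - 1) := Nat.mul_le_mul_left _ h2
    have h7 : (A + D + (4 * A + 8 + D)) * wd r m ^ (r - 1) = A * wd r m ^ (r - 1) +
      D * wd r m ^ (r - 1) + (4 * (A * wd r m ^ (r - 1)) + 8 * wd r m ^ (r - 1) +
        D * wd r m ^ (r - 1)) := by ring
    rw [h7]
    omega
  · intro x pad hpad
    have h1 := wd_pos r x.length
    have hκ' : wd r x.length ≤ wd r x.length ^ κ := Nat.le_self_pow (by omega) _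
    have hA : 2 ^ (A * wd r x.length ^ κ) ≤ pad := by
      refine le_trans (Nat.pow_le_pow_right (by norm_num) ?_) hpad
      exact Nat.mul_le_mul_right _ (by omega)
    have hNp : M.N (zlen u K c p x.length (wd r x.length)) ≤ pad := by
      have h2 := hD x.length
      have h3 : 2 ^ (D * wd r x.length) ≤ pad := by
        refine le_trans (Nat.pow_le_pow_right (by norm_num) ?_) hpad
        exact (Nat.mul_le_mul_left _ hκ').trans (Nat.mul_le_mul_right _ (by omega))
      omega
    obtain ⟨z, hz⟩ : ∃ z, z = zred u K c p (x, wd r x.length) := ⟨_, rfl⟩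
    have hzl : zlen u K c p x.length (wd r x.length) = z.length := by
      rw [hz, length_zred]
    have hFx := hFc x pad hA
    rw [← hz, hzl] at hFx
    rw [hzl] at hNp
    obtain ⟨e, he⟩ : ∃ e, e = (x, adv (wd r x.length) (M.a z.length) (β x.length)
      (M.N z.length), pad) := ⟨_, rfl⟩
    rw [← he] at hFx
    have hn : nE e = M.N z.length := by rw [he]; exact nE_adv _ _ _ _ _ _ hNp
    have hza : zE u K c p e = z := by
      unfold zE
      rw [he, tE_adv, hz]
    have haa : aE e = M.a z.length := by rw [he]; exact aE_adv _ _ _ _ _ _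
    have hgenv : ∀ i ≤ M.N z.length, gen F e i = M.v z i := by
      intro i
      induction i with
      | zero => intro _; rfl
      | succ i ih =>
        intro hi
        have h2 := ih (by omega)
        rw [gen, h2, Mach.v_succ]
        congr 2
        rw [Bool.eq_iff_iff, decide_eq_true_eq]
        exact hFx i (by omega)
    rw [hL x, ← hz]
    beta_reduce
    rw [hzl, ← he, hn, hza, haa, hgenv _ le_rfl]
    exact M.hL z

/-- **The base case.** If all queries are cheap enough, certificates are found by search. -/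
theorem base (M : Mach O) {r κ : ℕ} (hr : 2 ≤ r) (hκ : 1 ≤ κ)
    (hb : ∀ c₀ : ℕ, ∃ A, ∀ (z : List Bool) (t : ℕ), 1 ≤ t → z.length ≤ c₀ * t ^ r →
      (M.a z.length).length ≤ A * t ^ (r - 1) ∧
      ∀ i < M.N z.length, cost (fun p => M.R p = true) (M.Q z i) ≤ A * t ^ κ)
    {L : Set (List Bool)} (hL : InN O r r L) : InDA O r κ L := by
  obtain ⟨u, K, c, hu⟩ := reduce (by omega) hL
  obtain ⟨c₀, hc₀⟩ := zlen_le u K c r
  obtain ⟨A, hA⟩ := hb c₀
  have hlen : ∀ x : List Bool, (zred u K c r (x, wd r x.length)).length ≤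
      c₀ * wd r x.length ^ r := by
    intro x
    rw [length_zred]
    exact hc₀ _ _ (wd_pos r _) (lt_wd_pow (by omega) _).le
  have hF : OPT O (fun w : (List Bool × List Bool × ℕ) × List Bool =>
      brute M.R (M.q ((zE u K c r w.1, aE w.1), w.2), w.1.2.2)) :=
    (OPT_brute M.hR).comp_PT (PT.pair (M.hq.comp (PT.pair (PT.pair
      ((PT_zE u K c r).comp PT.fst) (PT_aE.comp PT.fst)) PT.snd)) PT.fst.p2.p2)
  refine eval_lemma M hr le_rfl hκ hu (A := A + 1) ?_ (β := fun _ => [])
    (fun m => by simp) hF ?_
  · intro m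
    have h1 := (hA (zred u K c r (List.replicate m true, wd r m)) (wd r m) (wd_pos r m) (by
      have := hlen (List.replicate m true)
      rwa [List.length_replicate] at this)).1
    rw [length_zred, List.length_replicate] at h1
    exact h1.trans (Nat.mul_le_mul_right _ (by omega))
  · intro x pad hpad i hi
    obtain ⟨z, hz⟩ : ∃ z, z = zred u K c r (x, wd r x.length) := ⟨_, rfl⟩
    have hzl : zlen u K c r x.length (wd r x.length) = z.length := by rw [hz, length_zred]
    rw [hzl] at hi ⊢
    rw [← hz]
    dsimp only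
    rw [aE_adv]
    have hza : zE u K c r (x, adv (wd r x.length) (M.a z.length) [] (M.N z.length), pad) = z := by
      unfold zE
      rw [tE_adv, hz]
    rw [hza]
    have h1 := (hA z (wd r x.length) (wd_pos r _) (by rw [hz]; exact hlen x)).2 i hi
    constructor
    · exact brute_sound
    · intro h
      refine brute_complete (l := A * wd r x.length ^ κ) ?_ h h1
      have h2 : 1 ≤ wd r x.length ^ κ := Nat.one_le_pow _ _ (wd_pos r _)
      have h3 : A * wd r x.length ^ κ + 1 ≤ (A + 1) * wd r x.length ^ κ := by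
        rw [Nat.add_mul, Nat.one_mul]
        omega
      have h4 : 2 ^ (A * wd r x.length ^ κ + 1) ≤ 2 ^ ((A + 1) * wd r x.length ^ κ) :=
        Nat.pow_le_pow_right (by norm_num) h3
      omega

end Pool.Agent.MP_92db0f_lc_gold
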