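import Pool.Agent.MP_92db0f_lc_gold.Eval
import Pool.Agent.MP_92db0f_lc_gold.Defs

/-!
Computations that proceed in rounds as sequential computations.
-/

set_option autoImplicit false
set_option linter.unusedSectionVars false

namespace Pool.Agent.MP_92db0f_lc_gold

open Lib.helper60 Function Turing Computability
open MP_92db0f_lc hiding answers
open MP_92db0f_lc_alg (answers PolyTime)

/-- encoding of the inputs of a query function -/
def encN (z : ((List Bool × List Bool) × List Bool) × ℕ) : List Bool :=
  encPair (encPair (encPair z.1.1, z.1.2), List.replicate z.2 true)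

/-- decoding -/
def decN (w : List Bool) : ((List Bool × List Bool) × List Bool) × ℕ :=
  (dec3 (unpair w).1, (unpair w).2.length)

lemma decN_encN (z : ((List Bool × List Bool) × List Bool) × ℕ) : decN (encN z) = z := by
  unfold decN encN
  rw [unpair_enc]
  have h : dec3 (encPair (encPair z.1.1, z.1.2)) = z.1 := dec3_enc3 z.1
  rw [h, List.length_replicate]

lemma PT_encN : PT encN :=
  PT_encPair (PT_encPair (PT_encPair PT.fst.p1.p1 PT.fst.p1.p2) PT.fst.p2)
    (PT.replicate PT.snd (PT.const true))

lemma PT_decN : PT decN := PT.pair (PT_dec3.comp PT_unpair.p1) (PT.length PT_unpair.p2)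

lemma PT_of_strN {q : ((List Bool × List Bool) × List Bool) × ℕ → List Bool}
    (h : Nonempty (TM2ComputableInPolyTime
      (fun z : ((List Bool × List Bool) × List Bool) × ℕ =>
        encPair (encPair (encPair z.1.1, z.1.2), List.replicate z.2 true)) (fun w => w) q)) :
    PT q := by
  obtain ⟨F, hF, h1⟩ := exists_PT h
  exact (hF.comp PT_encN).congr fun z => h1 z

lemma TM_of_strN {q : ((List Bool × List Bool) × List Bool) × ℕ → List Bool} (hq : PT q) :
    Nonempty (TM2ComputableInPolyTime
      (fun z : ((List Bool × List Bool) × List Bool) × ℕ =>
        encPair (encPair (encPair z.1.1, z.1.2), List.replicate z.2 true)) (fun w => w) q) :=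
  PT.toTM2 (F := fun w => q (decN w)) (hq.comp PT_decN) fun z => by
    have h : decN (encPair (encPair (encPair z.1.1, z.1.2), List.replicate z.2 true)) = z :=
      decN_encN z
    rw [h]

/-- the query function of the sequential computation -/
def flatQ (W : Polynomial ℕ) (q : ((List Bool × List Bool) × List Bool) × ℕ → List Bool)
    (w : (List Bool × List Bool) × List Bool) : List Bool :=
  q ((w.1, w.2.take (dv (W.eval w.1.1.length) w.2.length * W.eval w.1.1.length)),
    w.2.length - dv (W.eval w.1.1.length) w.2.length * W.eval w.1.1.length)

lemma PT_flatQ (W : Polynomial ℕ) {q : ((List Bool × List Bool) × List Bool) × ℕ → List Bool}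
    (hq : PT q) : PT (flatQ W q) := by
  unfold flatQ
  have hK : PT (fun w : (List Bool × List Bool) × List Bool => W.eval w.1.1.length) :=
    PT_peval W (PT.length PT.fst.p1)
  have hm : PT (fun w : (List Bool × List Bool) × List Bool =>
      dv (W.eval w.1.1.length) w.2.length * W.eval w.1.1.length) :=
    PT.nmul (PT_dv hK (PT.length PT.snd)) hK
  exact hq.comp (PT.pair (PT.pair PT.fst (PT_take hm PT.snd)) (PT.nsub (PT.length PT.snd) hm))

lemma flatQ_round (W : Polynomial ℕ) (q : ((List Bool × List Bool) × List Bool) × ℕ → List Bool)
    (z a v v' : List Bool) (hl : v.length = v'.length)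
    (h : v.take (dv (W.eval z.length) v.length * W.eval z.length) =
      v'.take (dv (W.eval z.length) v.length * W.eval z.length)) :
    flatQ W q ((z, a), v) = flatQ W q ((z, a), v') := by
  unfold flatQ
  dsimp only
  rw [h, hl]

open Classical in
lemma flat_answers (B : Set (List Bool)) (W : Polynomial ℕ)
    (q : ((List Bool × List Bool) × List Bool) × ℕ → List Bool) (z : List Bool × List Bool)
    (i : ℕ) : ∀ j ≤ W.eval z.1.length,
      answers B (flatQ W q) z (i * W.eval z.1.length + j) =
        roundAnswers B q z (W.eval z.1.length) i ++ (List.range j).map fun j =>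
          decide (q ((z, roundAnswers B q z (W.eval z.1.length) i), j) ∈ B) := by
  obtain ⟨K, hK⟩ : ∃ K, K = W.eval z.1.length := ⟨_, rfl⟩
  rw [← hK]
  have hlen : ∀ i, (roundAnswers B q z K i).length = i * K := by
    intro i
    induction i with
    | zero => simp [roundAnswers]
    | succ i ih =>
      rw [roundAnswers, List.length_append, ih, List.length_map, List.length_range]
      ring
  induction i with
  | zero =>
    intro j
    induction j with
    | zero => intro _; simp [answers, roundAnswers]
    | succ j ih =>
      intro hj
      have h1 := ih (by omega)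
      rw [Nat.zero_mul, Nat.zero_add] at h1 ⊢
      rw [answers, h1, roundAnswers, List.nil_append, List.range_succ, List.map_append,
        List.map_singleton, List.nil_append]
      congr 3
      unfold flatQ
      have h2 := dv_eq (K := K) (ρ := 0) (j := j) (by omega)
      rw [Nat.zero_mul, Nat.zero_add] at h2
      simp only [List.length_map, List.length_range, ← hK, h2, Nat.zero_mul, List.take_zero,
        Nat.sub_zero]
  | succ i ihi =>
    intro j
    induction j with
    | zero =>
      intro _
      have h1 := ihi K le_rfl
      rw [Nat.add_zero, List.range_zero, List.map_nil, List.append_nil, roundAnswers, ← h1]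
      congr 1
      ring
    | succ j ih =>
      intro hj
      have h1 := ih (by omega)
      rw [show (i + 1) * K + (j + 1) = (i + 1) * K + j + 1 by ring, answers, h1, List.range_succ,
        List.map_append, List.map_singleton, ← List.append_assoc]
      congr 3
      unfold flatQ
      have h2 := dv_eq (K := K) (ρ := i + 1) (j := j) (by omega)
      have h3 : (roundAnswers B q z K (i + 1) ++ (List.range j).map fun j =>
          decide (q ((z, roundAnswers B q z K (i + 1)), j) ∈ B)).length = (i + 1) * K + j := by
        rw [List.length_append, hlen, List.length_map, List.length_range]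
      simp only [h3, ← hK, h2, Nat.add_sub_cancel_left]
      rw [List.take_append_of_le_length (by rw [hlen]), List.take_of_length_le (by rw [hlen])]

lemma roundAnswers_eq (B : Set (List Bool)) (W : Polynomial ℕ)
    (q : ((List Bool × List Bool) × List Bool) × ℕ → List Bool) (z : List Bool × List Bool)
    (i : ℕ) : roundAnswers B q z (W.eval z.1.length) i =
      answers B (flatQ W q) z (i * W.eval z.1.length) := by
  have h := flat_answers B W q z i 0 (Nat.zero_le _)
  rw [Nat.add_zero, List.range_zero, List.map_nil, List.append_nil] at h
  exact h.symm

/-- the queries of the sequential computation -/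
lemma flatQ_query (B : Set (List Bool)) (W : Polynomial ℕ)
    (q : ((List Bool × List Bool) × List Bool) × ℕ → List Bool) (z : List Bool × List Bool)
    (i j : ℕ) (hj : j < W.eval z.1.length) :
    flatQ W q (z, answers B (flatQ W q) z (i * W.eval z.1.length + j)) =
      q ((z, roundAnswers B q z (W.eval z.1.length) i), j) := by
  have hl := length_answers B (flatQ W q) z (i * W.eval z.1.length + j)
  have ht := answers_take B (flatQ W q) z (i * W.eval z.1.length + j) (i * W.eval z.1.length)
    (by omega)
  rw [roundAnswers_eq, ← ht]
  obtain ⟨v, hv⟩ : ∃ v, v = answers B (flatQ W q) z (i * W.eval z.1.length + j) := ⟨_, rfl⟩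
  rw [← hv] at hl ⊢
  unfold flatQ
  dsimp only
  rw [hl, dv_eq hj, Nat.add_sub_cancel_left]

end Pool.Agent.MP_92db0f_lc_gold
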