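import Pool.Agent.MP_92db0f_lc_gold.Root

/-!
A language that cannot be decided with a smaller exponent.
-/

set_option autoImplicit false
set_option linter.unusedSectionVars false

namespace Pool.Agent.MP_92db0f_lc_gold

open Lib.helper60 Function Turing Computability
open MP_92db0f_lc hiding answers
open MP_92db0f_lc_alg (answers PolyTime)

/-- the certificate used for the simulation -/
def dcert (b : List Bool) (P S T : ℕ) : List Bool :=
  encPair (encPair (b, List.replicate P true), encPair (List.replicate S true,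
    List.replicate T true))

/-- the number in an input -/
def dnum (X : List Bool) : ℕ := (unpair (unpair (unpair X).2).2).1.length

/-- the verifier of the diagonal language -/
noncomputable def VD (O : Set (List Bool)) (r κ : ℕ) (w : List Bool × List Bool) : Bool :=
  (decide (dnum w.1 ^ r ≤ w.1.length) &&
    decide (p2 (w.2.length + 1) (dnum w.1 ^ (κ + 3)) ≤ w.2.length)) &&
  !VK O (encPair ((unpair w.1).1, w.1), dcert (unpair (unpair w.1).2).1
    (p2 w.2.length (dnum w.1 ^ (κ + 1))) (p2 w.2.length (dnum w.1 ^ (κ + 2)))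
    (p2 w.2.length (dnum w.1 ^ (κ + 3))))

lemma OPT_VD (O : Set (List Bool)) (r κ : ℕ) : OPT O (VD O r κ) := by
  unfold VD dcert dnum
  have u1 : PT (fun w : List Bool × List Bool => unpair w.1) := PT_unpair.comp PT.fst
  have u2 : PT (fun w : List Bool × List Bool => unpair (unpair w.1).2) := PT_unpair.comp u1.p2
  have u3 : PT (fun w : List Bool × List Bool => unpair (unpair (unpair w.1).2).2) :=
    PT_unpair.comp u2.p2
  have hu := PT.length u3.p1
  have hy : PT (fun w : List Bool × List Bool => w.2.length) := PT.length PT.snd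
  refine OPT.band (OPT.of_PT (PT.band (PT.nle (PT_npow hu r) (PT.length PT.fst))
    (PT.nle (PT_p2 (PT.nsucc hy) (PT_npow hu _)) hy))) ?_
  refine OPT.map (h := fun b : Bool => !b) ((OPT_VK O).comp_PT (PT.pair (PT_encPair u1.p1 PT.fst)
    (PT_encPair (PT_encPair u2.p1 (PT.replicate (PT_p2 hy (PT_npow hu _)) (PT.const true)))
      (PT_encPair (PT.replicate (PT_p2 hy (PT_npow hu _)) (PT.const true))
        (PT.replicate (PT_p2 hy (PT_npow hu _)) (PT.const true)))))) (PT.bnot PT.id)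

/-- the diagonal language -/
def LD (O : Set (List Bool)) (r κ : ℕ) : Set (List Bool) :=
  {X | ∃ y : List Bool, y.length ≤ 2 ^ (1 * wd r X.length ^ (κ + 3)) ∧ VD O r κ (X, y) = true}

lemma LD_mem (O : Set (List Bool)) (r κ : ℕ) : InN O r (κ + 3) (LD O r κ) :=
  ⟨VD O r κ, 1, OPT_VD O r κ, fun _ => Iff.rfl⟩

lemma mem_LD {O : Set (List Bool)} {r κ : ℕ} (hr : 1 ≤ r) (X : List Bool) :
    X ∈ LD O r κ ↔ dnum X ^ r ≤ X.length ∧
      VK O (encPair ((unpair X).1, X), dcert (unpair (unpair X).2).1 (2 ^ dnum X ^ (κ + 1) - 1)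
        (2 ^ dnum X ^ (κ + 2) - 1) (2 ^ dnum X ^ (κ + 3) - 1)) = false := by
  have hle : ∀ k, k ≤ κ + 3 → 1 ≤ k → dnum X ^ k ≤ dnum X ^ (κ + 3) := by
    intro k hk hk1
    rcases Nat.eq_zero_or_pos (dnum X) with h | h
    · rw [h, zero_pow (by omega)]
      exact Nat.zero_le _
    · exact Nat.pow_le_pow_right h hk
  have hV : ∀ y : List Bool, VD O r κ (X, y) = true ↔
      (dnum X ^ r ≤ X.length ∧ 2 ^ dnum X ^ (κ + 3) ≤ y.length + 1) ∧
      VK O (encPair ((unpair X).1, X), dcert (unpair (unpair X).2).1 (2 ^ dnum X ^ (κ + 1) - 1)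
        (2 ^ dnum X ^ (κ + 2) - 1) (2 ^ dnum X ^ (κ + 3) - 1)) = false := by
    intro y
    unfold VD
    dsimp only
    rw [Bool.and_eq_true, Bool.and_eq_true, decide_eq_true_eq, decide_eq_true_eq,
      Bool.not_eq_true']
    have h1 : p2 (y.length + 1) (dnum X ^ (κ + 3)) ≤ y.length ↔
        2 ^ dnum X ^ (κ + 3) ≤ y.length + 1 := by
      rw [p2_eq]
      omega
    rw [h1]
    refine and_congr_right fun h2 => ?_
    have h3 : ∀ k, k ≤ κ + 3 → 1 ≤ k → p2 y.length (dnum X ^ k) = 2 ^ dnum X ^ k - 1 := by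
      intro k hk hk1
      exact p2_eq' ((Nat.pow_le_pow_right (by norm_num) (hle k hk hk1)).trans h2.2)
    rw [h3 (κ + 1) (by omega) (by omega), h3 (κ + 2) (by omega) (by omega),
      h3 (κ + 3) (by omega) (by omega)]
  constructor
  · rintro ⟨y, _, hy⟩
    obtain ⟨⟨h1, _⟩, h2⟩ := (hV y).mp hy
    exact ⟨h1, h2⟩
  · rintro ⟨h1, h2⟩
    refine ⟨List.replicate (2 ^ dnum X ^ (κ + 3)) true, ?_, ?_⟩
    · rw [List.length_replicate, Nat.one_mul]
      exact Nat.pow_le_pow_right (by norm_num) (Nat.pow_le_pow_left (self_le_wd hr h1).le _)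
    · rw [hV, List.length_replicate]
      exact ⟨⟨h1, Nat.le_succ _⟩, h2⟩

lemma eval_two_pow (T : Polynomial ℕ) (n v : ℕ) (h : n ≤ 2 ^ v) :
    T.eval n ≤ 2 ^ (T.eval 1 + v * T.natDegree) := by
  have h1 : T.eval n ≤ T.eval (1 * 2 ^ v) := evalMono T (by omega)
  have h2 := eval_mul_le T 1 (2 ^ v) (Nat.one_le_pow _ _ (by norm_num))
  refine (h1.trans h2).trans ?_
  rw [pow_add, pow_mul 2 v]
  exact Nat.mul_le_mul_right _ Nat.lt_two_pow_self.le

/-- **The hierarchy theorem.** -/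
theorem hierarchy (O : Set (List Bool)) {r κ : ℕ} (hr : 2 ≤ r) : ¬ InDA O r κ (LD O r κ) := by
  rintro ⟨W, b, c, hW, hb, hL⟩
  have hV : OPT O (fun w : List Bool × List Bool =>
      W (w.1, (unpair w.2).1, (unpair w.2).2.length)) := by
    have h1 : PT (fun w : List Bool × List Bool => unpair w.2) := PT_unpair.comp PT.snd
    exact hW.comp_PT (PT.pair PT.fst (PT.pair h1.p1 (PT.length h1.p2)))
  obtain ⟨U, T, _, hspec⟩ := VK_spec hV
  obtain ⟨z, hz⟩ : ∃ z, z = U 0 := ⟨_, rfl⟩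
  obtain ⟨a, ha⟩ : ∃ a, a = T.eval 1 := ⟨_, rfl⟩
  obtain ⟨g, hg⟩ : ∃ g, g = T.natDegree := ⟨_, rfl⟩
  obtain ⟨G, hG⟩ : ∃ G, G = 2 * z.length + 8 + 2 * (c * 2 ^ (r - 1)) := ⟨_, rfl⟩
  obtain ⟨u, hu⟩ : ∃ u, u = G + (c * 2 ^ κ + 1) + (a + 1 + (r + 7) * g) + 1 := ⟨_, rfl⟩
  have hu1 : 1 ≤ u := by omega
  obtain ⟨m, hm⟩ : ∃ m, m = u ^ r := ⟨_, rfl⟩
  have hwd : wd r m = u + 1 := by
    apply le_antisymm
    · refine wd_le_of_lt (by omega) ?_
      rw [hm]
      exact Nat.pow_lt_pow_left (by omega) (by omega)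
    · exact self_le_wd (by omega) (by rw [hm])
  have hu2 : ∀ k, (u + 1) ^ k ≤ 2 ^ k * u ^ k := by
    intro k
    rw [← mul_pow]
    exact Nat.pow_le_pow_left (by omega) _
  have hup : u ^ (r - 1) * u = u ^ r := by
    rw [← pow_succ]
    congr 1
    omega
  have hu3 : u ≤ u ^ (r - 1) := Nat.le_self_pow (by omega) _
  have hbm : (b m).length ≤ c * 2 ^ (r - 1) * u ^ (r - 1) := by
    have h1 := hb m
    rw [hwd] at h1
    refine h1.trans ?_
    rw [Nat.mul_assoc]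
    exact Nat.mul_le_mul_left _ (hu2 _)
  have hfit : 2 * z.length + 2 + (2 * (b m).length + 2 + (2 * u + 2)) ≤ m := by
    have h1 : G * u ^ (r - 1) ≤ u * u ^ (r - 1) := Nat.mul_le_mul_right _ (by omega)
    have h2 : G * u ^ (r - 1) = 2 * z.length * u ^ (r - 1) + 8 * u ^ (r - 1) +
      2 * (c * 2 ^ (r - 1) * u ^ (r - 1)) := by rw [hG]; ring
    have h3 : 1 ≤ u ^ (r - 1) := Nat.one_le_pow _ _ hu1
    have h4 : 2 * z.length ≤ 2 * z.length * u ^ (r - 1) := Nat.le_mul_of_pos_right _ (by omega)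
    have h5 : m = u * u ^ (r - 1) := by rw [hm, ← hup, Nat.mul_comm]
    rw [h2, ← h5] at h1
    omega
  obtain ⟨X, hX⟩ : ∃ X, X = encPair (z, encPair (b m, encPair (List.replicate u true,
    List.replicate (m - (2 * z.length + 2 + (2 * (b m).length + 2 + (2 * u + 2)))) true))) :=
    ⟨_, rfl⟩
  have hXl : X.length = m := by
    rw [hX]
    simp only [length_encPair, List.length_replicate]
    omega
  have hX1 : (unpair X).1 = z := by rw [hX, unpair_enc]
  have hX2 : (unpair (unpair X).2).1 = b m := by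
    rw [hX]
    simp only [unpair_enc]
  have hX3 : dnum X = u := by
    unfold dnum
    rw [hX]
    simp only [unpair_enc, List.length_replicate]
  have h1 := mem_LD (O := O) (κ := κ) (by omega : 1 ≤ r) X
  rw [hX1, hX2, hX3, hXl] at h1
  obtain ⟨P, hP⟩ : ∃ P, P = 2 ^ u ^ (κ + 1) - 1 := ⟨_, rfl⟩
  obtain ⟨S, hS⟩ : ∃ S, S = 2 ^ u ^ (κ + 2) - 1 := ⟨_, rfl⟩
  obtain ⟨T', hT'⟩ : ∃ T', T' = 2 ^ u ^ (κ + 3) - 1 := ⟨_, rfl⟩
  rw [← hP, ← hS, ← hT', ← hm] at h1
  obtain ⟨y, hy⟩ : ∃ y, y = encPair (b m, List.replicate P true) := ⟨_, rfl⟩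
  have hs := hspec 0 X y S T'
  rw [← hz] at hs
  have hdc : dcert (b m) P S T' = encPair (y, encPair (List.replicate S true,
      List.replicate T' true)) := by
    unfold dcert
    rw [hy]
  rw [hdc] at h1
  have hVy : W ((X, y).1, (unpair (X, y).2).1, (unpair (X, y).2).2.length) = W (X, b m, P) := by
    rw [hy]
    simp only [unpair_enc, List.length_replicate]
  rw [hVy] at hs
  have hpk : u ^ κ * u = u ^ (κ + 1) := (pow_succ _ _).symm
  have hpk1 : u ^ (κ + 1) * u = u ^ (κ + 2) := (pow_succ _ _).symm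
  have hpk2 : u ^ (κ + 2) * u = u ^ (κ + 3) := (pow_succ _ _).symm
  have hk1 : 1 ≤ u ^ κ := Nat.one_le_pow _ _ hu1
  have hk2 : 1 ≤ u ^ (κ + 1) := Nat.one_le_pow _ _ hu1
  have hk3 : 1 ≤ u ^ (κ + 2) := Nat.one_le_pow _ _ hu1
  have hk4 : u ≤ u ^ (κ + 1) := Nat.le_self_pow (by omega) _
  -- the padding is long enough
  have hPc : 2 ^ (c * wd r X.length ^ κ) ≤ P := by
    rw [hXl, hwd, hP]
    have h2 : c * (u + 1) ^ κ + 1 ≤ u ^ (κ + 1) := by
      have h3 : c * (u + 1) ^ κ ≤ c * (2 ^ κ * u ^ κ) := Nat.mul_le_mul_left _ (hu2 _)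
      have h4 : (c * 2 ^ κ + 1) * u ^ κ ≤ u * u ^ κ := Nat.mul_le_mul_right _ (by omega)
      have h5 : (c * 2 ^ κ + 1) * u ^ κ = c * (2 ^ κ * u ^ κ) + u ^ κ := by ring
      rw [← hpk, Nat.mul_comm (u ^ κ) u]
      omega
    have h3 : 2 ^ (c * (u + 1) ^ κ + 1) ≤ 2 ^ u ^ (κ + 1) := Nat.pow_le_pow_right (by norm_num) h2
    have h4 : 1 ≤ 2 ^ (c * (u + 1) ^ κ) := Nat.one_le_pow _ _ (by norm_num)
    rw [pow_succ] at h3
    omega
  have h2 := hL X P hPc
  rw [hXl] at h2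
  -- the simulation is long enough
  obtain ⟨n, hn⟩ : ∃ n, n = (encPair (X, y)).length := ⟨_, rfl⟩
  have hn1 : n ≤ 2 ^ ((r + 5) * u ^ (κ + 1)) := by
    have h3 : m ≤ 2 ^ (r * u) := by
      rw [hm, Nat.mul_comm, pow_mul]
      exact Nat.pow_le_pow_left Nat.lt_two_pow_self.le _
    have h4 : n = 2 * m + 2 + (2 * (b m).length + 2 + P) := by
      rw [hn, hy, length_encPair, length_encPair, List.length_replicate, hXl]
    have h5 : 1 ≤ 2 ^ (r * u) := Nat.one_le_pow _ _ (by norm_num)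
    have h6 : 1 ≤ 2 ^ u ^ (κ + 1) := Nat.one_le_pow _ _ (by norm_num)
    have h7 : n ≤ 7 * 2 ^ (r * u) + 2 ^ u ^ (κ + 1) := by
      have : 2 * (b m).length ≤ m := by omega
      omega
    have h8 : 7 * 2 ^ (r * u) + 2 ^ u ^ (κ + 1) ≤ 8 * (2 ^ (r * u) * 2 ^ u ^ (κ + 1)) := by
      have h9 : 2 ^ (r * u) ≤ 2 ^ (r * u) * 2 ^ u ^ (κ + 1) := Nat.le_mul_of_pos_right _ (by omega)
      have h10 : 2 ^ u ^ (κ + 1) ≤ 2 ^ (r * u) * 2 ^ u ^ (κ + 1) :=
        Nat.le_mul_of_pos_left _ (by omega)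
      omega
    have h9 : 8 * (2 ^ (r * u) * 2 ^ u ^ (κ + 1)) = 2 ^ (3 + (r * u + u ^ (κ + 1))) := by
      rw [pow_add 2 3, pow_add 2 (r * u)]
      norm_num
    rw [h9] at h8
    refine (h7.trans h8).trans (Nat.pow_le_pow_right (by norm_num) ?_)
    have h10 : r * u ≤ r * u ^ (κ + 1) := Nat.mul_le_mul_left _ hk4
    have h11 : (r + 5) * u ^ (κ + 1) = r * u ^ (κ + 1) + 5 * u ^ (κ + 1) := by ring
    omega
  have hle1 : T.eval n ≤ S := by
    have h3 := eval_two_pow T n _ hn1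
    rw [← ha, ← hg] at h3
    have h4 : a + (r + 5) * u ^ (κ + 1) * g + 1 ≤ u ^ (κ + 2) := by
      have h5 : (a + 1 + (r + 7) * g) * u ^ (κ + 1) ≤ u * u ^ (κ + 1) :=
        Nat.mul_le_mul_right _ (by omega)
      have h6 : (a + 1 + (r + 7) * g) * u ^ (κ + 1) = a * u ^ (κ + 1) + u ^ (κ + 1) +
        ((r + 5) * u ^ (κ + 1) * g + 2 * (u ^ (κ + 1) * g)) := by ring
      have h7 : a ≤ a * u ^ (κ + 1) := Nat.le_mul_of_pos_right _ (by omega)
      rw [← hpk1, Nat.mul_comm (u ^ (κ + 1)) u]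
      omega
    have h5 : 2 ^ (a + (r + 5) * u ^ (κ + 1) * g + 1) ≤ 2 ^ u ^ (κ + 2) :=
      Nat.pow_le_pow_right (by norm_num) h4
    have h6 : 1 ≤ 2 ^ (a + (r + 5) * u ^ (κ + 1) * g) := Nat.one_le_pow _ _ (by norm_num)
    rw [pow_succ] at h5
    omega
  have hle2 : T.eval (n + S) ≤ T' := by
    have hn2 : n + S ≤ 2 ^ ((r + 7) * u ^ (κ + 2)) := by
      have h3 : 1 ≤ 2 ^ ((r + 5) * u ^ (κ + 1)) := Nat.one_le_pow _ _ (by norm_num)
      have h4 : 1 ≤ 2 ^ u ^ (κ + 2) := Nat.one_le_pow _ _ (by norm_num)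
      have h5 : n + S ≤ 2 * (2 ^ ((r + 5) * u ^ (κ + 1)) * 2 ^ u ^ (κ + 2)) := by
        have h9 : 2 ^ ((r + 5) * u ^ (κ + 1)) ≤
            2 ^ ((r + 5) * u ^ (κ + 1)) * 2 ^ u ^ (κ + 2) := Nat.le_mul_of_pos_right _ (by omega)
        have h10 : 2 ^ u ^ (κ + 2) ≤ 2 ^ ((r + 5) * u ^ (κ + 1)) * 2 ^ u ^ (κ + 2) :=
          Nat.le_mul_of_pos_left _ (by omega)
        omega
      have h6 : 2 * (2 ^ ((r + 5) * u ^ (κ + 1)) * 2 ^ u ^ (κ + 2)) =
          2 ^ (1 + ((r + 5) * u ^ (κ + 1) + u ^ (κ + 2))) := by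
        rw [pow_add 2 1, pow_add 2 ((r + 5) * u ^ (κ + 1))]
        norm_num
      rw [h6] at h5
      refine h5.trans (Nat.pow_le_pow_right (by norm_num) ?_)
      have h7 : (r + 5) * u ^ (κ + 1) ≤ (r + 5) * u ^ (κ + 2) :=
        Nat.mul_le_mul_left _ (Nat.pow_le_pow_right hu1 (by omega))
      have h8 : (r + 7) * u ^ (κ + 2) = (r + 5) * u ^ (κ + 2) + 2 * u ^ (κ + 2) := by ring
      omega
    have h3 := eval_two_pow T (n + S) _ hn2
    rw [← ha, ← hg] at h3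
    have h4 : a + (r + 7) * u ^ (κ + 2) * g + 1 ≤ u ^ (κ + 3) := by
      have h5 : (a + 1 + (r + 7) * g) * u ^ (κ + 2) ≤ u * u ^ (κ + 2) :=
        Nat.mul_le_mul_right _ (by omega)
      have h6 : (a + 1 + (r + 7) * g) * u ^ (κ + 2) = a * u ^ (κ + 2) + u ^ (κ + 2) +
        (r + 7) * u ^ (κ + 2) * g := by ring
      have h7 : a ≤ a * u ^ (κ + 2) := Nat.le_mul_of_pos_right _ (by omega)
      rw [← hpk2, Nat.mul_comm (u ^ (κ + 2)) u]
      omega
    have h5 : 2 ^ (a + (r + 7) * u ^ (κ + 2) * g + 1) ≤ 2 ^ u ^ (κ + 3) :=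
      Nat.pow_le_pow_right (by norm_num) h4
    have h6 : 1 ≤ 2 ^ (a + (r + 7) * u ^ (κ + 2) * g) := Nat.one_le_pow _ _ (by norm_num)
    rw [pow_succ] at h5
    omega
  rw [← hn] at hs
  -- contradiction
  rw [h2] at h1
  cases h3 : W (X, b m, P)
  · rw [h3] at h1 hs
    have h4 : VK O (encPair (z, X), encPair (y, encPair (List.replicate S true,
        List.replicate T' true))) = false := by
      rw [Bool.eq_false_iff]
      intro h5
      exact absurd (hs.1 h5) (by simp)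
    exact absurd (h1.mpr ⟨le_rfl, h4⟩) (by simp)
  · rw [h3] at h1 hs
    have h4 := hs.2 rfl hle1 hle2
    have h5 := (h1.mp rfl).2
    rw [h4] at h5
    exact absurd h5 (by simp)

end Pool.Agent.MP_92db0f_lc_gold
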