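import Pool.Agent.MP_92db0f_lc_gold.Mean

/-!
The self-improvement step.
-/

set_option autoImplicit false
set_option linter.unusedSectionVars false

namespace Pool.Agent.MP_92db0f_lc_gold

open Lib.helper60 Function Turing Computability
open MP_92db0f_lc hiding answers
open MP_92db0f_lc_alg (answers PolyTime)

variable {O : Set (List Bool)}

lemma OPT_hbits (M : Mach O) {α : Type} [DEnc α] [Meas α] {z a v : α → List Bool} {b0 : α → ℕ}
    (hz : PT z) (ha : PT a) (hv : PT v) (hb : PT b0) :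
    OPT O (fun y => hbits M (z y) (a y) (v y) (b0 y)) := by
  unfold hbits
  have hK : PT (fun y => M.W.eval (z y).length) := PT_peval M.W (PT.length hz)
  have hd : PT (fun y : α × ℕ => dv (M.W.eval (z y.1).length + 1) y.2) :=
    PT_dv (PT.nsucc (hK.comp PT.fst)) PT.snd
  refine OPT.bits (p := fun y : α × ℕ => heavy M (z y.1) (a y.1) (v y.1) (b0 y.1)
    (dv (M.W.eval (z y.1).length + 1) y.2) && decide (cnt (M.W.eval (z y.1).length)
      (dv (M.W.eval (z y.1).length + 1) y.2) (v y.1) =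
        y.2 - dv (M.W.eval (z y.1).length + 1) y.2 * (M.W.eval (z y.1).length + 1))) ?_
    (PT.nmul (PT_dv hK (PT.length hv)) (PT.nsucc hK))
  refine OPT.band ?_ (OPT.of_PT (PT.neq (PT_cnt (hK.comp PT.fst) hd (hv.comp PT.fst))
    (PT.nsub PT.snd (PT.nmul hd (PT.nsucc (hK.comp PT.fst))))))
  unfold heavy
  have hi : PT (fun y : (α × ℕ) × ℕ => dv (M.W.eval (z y.1.1).length + 1) y.1.2 *
      M.W.eval (z y.1.1).length + y.2) := PT.nadd (PT.nmul (hd.comp PT.fst)
        (hK.comp PT.fst.p1)) PT.snd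
  refine OPT.any (p := fun y : (α × ℕ) × ℕ =>
    (v y.1.1).getD (dv (M.W.eval (z y.1.1).length + 1) y.1.2 * M.W.eval (z y.1.1).length + y.2)
      false && !brute M.R (M.q ((z y.1.1, a y.1.1), (v y.1.1).take
        (dv (M.W.eval (z y.1.1).length + 1) y.1.2 * M.W.eval (z y.1.1).length + y.2)),
          b0 y.1.1)) ?_ (hK.comp PT.fst)
  refine OPT.band (OPT.of_PT (PT.getD (hv.comp PT.fst.p1) hi (PT.const false))) ?_
  refine OPT.map (h := fun b : Bool => !b) ((OPT_brute M.hR).comp_PT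
    (h := fun y : (α × ℕ) × ℕ => (M.q ((z y.1.1, a y.1.1), (v y.1.1).take
      (dv (M.W.eval (z y.1.1).length + 1) y.1.2 * M.W.eval (z y.1.1).length + y.2)),
        b0 y.1.1)) ?_) (PT.bnot PT.id)
  exact PT.pair (M.hq.comp (PT.pair (PT.pair (hz.comp PT.fst.p1) (ha.comp PT.fst.p1))
    (PT_take hi (hv.comp PT.fst.p1)))) (hb.comp PT.fst.p1)

/-- a bound for the certificates -/
lemma Mach.exists_cert (M : Mach O) (u : List Bool) (K c p r A : ℕ) (hr : 1 ≤ r) (hp : r ≤ p)
    (ha : ∀ m, (M.a (zlen u K c p m (wd r m))).length ≤ A * wd r m ^ (r - 1)) :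
    ∃ D, ∀ (x : List Bool), ∀ i < M.N (zlen u K c p x.length (wd r x.length)),
      M.P.eval (M.Q (zred u K c p (x, wd r x.length)) i).length ≤ 2 ^ (D * wd r x.length) := by
  obtain ⟨c₀, hc₀⟩ := zlen_le u K c p
  obtain ⟨Pq, hPq⟩ := pbMeas M.hq.size
  obtain ⟨PP, hPP⟩ : ∃ PP : Polynomial ℕ, PP = M.P.comp (Pq.comp (Polynomial.C c₀ *
    Polynomial.X ^ p + Polynomial.C A * Polynomial.X ^ (r - 1) + 2 +
      M.P.comp (Polynomial.C c₀ * Polynomial.X ^ p) + 2)) := ⟨_, rfl⟩
  obtain ⟨s₀, hs⟩ := exists_poly_le PP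
  refine ⟨s₀ + 1, fun x i hi => ?_⟩
  obtain ⟨t, ht⟩ : ∃ t, t = wd r x.length := ⟨_, rfl⟩
  obtain ⟨z, hz⟩ : ∃ z, z = zred u K c p (x, t) := ⟨_, rfl⟩
  have ht1 : 1 ≤ t := by rw [ht]; exact wd_pos _ _
  have hzl : zlen u K c p x.length t = z.length := by rw [hz, length_zred]
  have hx : x.length ≤ t ^ p := by
    rw [ht] at ht1 ⊢
    exact (lt_wd_pow hr _).le.trans (Nat.pow_le_pow_right ht1 hp)
  have hzc : z.length ≤ c₀ * t ^ p := by rw [← hzl]; exact hc₀ _ _ ht1 hx
  have hac := ha x.length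
  rw [← ht, hzl] at hi hac
  rw [← ht, ← hz]
  have h1 : (M.Q z i).length ≤ Pq.eval (c₀ * t ^ p + A * t ^ (r - 1) + 2 +
      M.P.eval (c₀ * t ^ p) + 2) := by
    unfold Mach.Q
    refine (length_le_tsize _).trans (hPq _ _ ?_)
    have h2 : ∀ (z a v : List Bool), Meas.m ((z, a), v) = z.length + a.length + 2 + v.length + 2 :=
      fun _ _ _ => rfl
    rw [h2, M.length_v]
    have h3 := M.hN z.length
    have h4 : M.P.eval z.length ≤ M.P.eval (c₀ * t ^ p) := evalMono M.P hzc
    omega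
  have h2 := hs t
  have h3 : PP.eval t = M.P.eval (Pq.eval (c₀ * t ^ p + A * t ^ (r - 1) + 2 +
      M.P.eval (c₀ * t ^ p) + 2)) := by
    rw [hPP]
    simp [Polynomial.eval_comp]
  rw [h3] at h2
  have h4 : M.P.eval (M.Q z i).length ≤ M.P.eval (Pq.eval (c₀ * t ^ p + A * t ^ (r - 1) + 2 +
      M.P.eval (c₀ * t ^ p) + 2)) := evalMono M.P h1
  refine h4.trans (h2.trans (Nat.pow_le_pow_right (by norm_num) ?_))
  have h5 : s₀ ≤ s₀ * t := Nat.le_mul_of_pos_right _ (by omega)
  have h6 : (s₀ + 1) * t = s₀ * t + t := by ring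
  omega

/-- **The step.** -/
theorem step (M : Mach O) {r p p' κ : ℕ} (hr : 2 ≤ r) (hp : r ≤ p) (hp' : 1 ≤ p') (hκ : p' ≤ κ)
    (hb : ∀ c₀ : ℕ, ∃ A, ∀ (z : List Bool) (t : ℕ), 1 ≤ t → z.length ≤ c₀ * t ^ p →
      (M.a z.length).length ≤ A * t ^ (r - 1) ∧
      {ρ | ∃ j < M.W.eval z.length, ρ * M.W.eval z.length + j < M.N z.length ∧
        A * t ^ p' < cost (fun p => M.R p = true) (M.Q z (ρ * M.W.eval z.length + j))}.ncard ≤
          A * t ^ (r - 1))
    (hΦ : ∀ L, InN O r p' L → InDA O r κ L) {L : Set (List Bool)} (hL : InN O r p L) :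
    InDA O r κ L := by
  classical
  obtain ⟨u, K, c, hu⟩ := reduce (by omega) hL
  obtain ⟨c₀, hc₀⟩ := zlen_le u K c p
  obtain ⟨A, hA⟩ := hb c₀
  have hlen : ∀ x : List Bool, (zred u K c p (x, wd r x.length)).length ≤
      c₀ * wd r x.length ^ p := by
    intro x
    rw [length_zred]
    exact hc₀ _ _ (wd_pos r _) ((lt_wd_pow (by omega) _).le.trans
      (Nat.pow_le_pow_right (wd_pos r _) hp))
  have ha : ∀ m, (M.a (zlen u K c p m (wd r m))).length ≤ A * wd r m ^ (r - 1) := by
    intro m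
    have h1 := (hA (zred u K c p (List.replicate m true, wd r m)) (wd r m) (wd_pos r m) (by
      have := hlen (List.replicate m true)
      rwa [List.length_replicate] at this)).1
    rwa [length_zred, List.length_replicate] at h1
  obtain ⟨D₁, hD₁⟩ := M.exists_N u K c p r (by omega) hp
  obtain ⟨D, hD⟩ : ∃ D, D = D₁ + 1 := ⟨_, rfl⟩
  obtain ⟨D₂, hD₂⟩ := M.exists_cert u K c p r A (by omega) hp ha
  obtain ⟨H, hH⟩ : ∃ H, H = A + 1 + D + (D₂ + 2) := ⟨_, rfl⟩
  obtain ⟨E, hE⟩ : ∃ E, E = 2 * (2 + 2 + (2 + 2 + (2 * A + 2 + (2 * (A * (2 * D + 2)) + 2 + D)))) +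
    2 := ⟨_, rfl⟩
  -- the language of the queries
  have hΦN : InN O r p' {w | ∃ y : List Bool,
      y.length ≤ 2 ^ ((D₂ + D + H + 5) * wd r w.length ^ p') ∧
        VPhi M u K c p H D p' (w, y) = true} :=
    ⟨VPhi M u K c p H D p', D₂ + D + H + 5, OPT_VPhi M u K c p H D p', fun _ => Iff.rfl⟩
  obtain ⟨W, bΦ, cΦ, hW, hbΦ, hWc⟩ := hΦ _ hΦN
  have hF : OPT O (fun w : (List Bool × List Bool × ℕ) × List Bool =>
      W (inst E r w.1.1 (tE w.1) (aE w.1) (flat (2 * (D * tE w.1) + 2)
        (hbits M (zE u K c p w.1) (aE w.1) w.2 (p2 w.1.2.2 (H * tE w.1 ^ p'))))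
        (str w.2.length), pE w.1, w.1.2.2)) := by
    have e1 : PT (fun w : (List Bool × List Bool × ℕ) × List Bool =>
        p2 w.1.2.2 (H * tE w.1 ^ p')) :=
      PT_p2 PT.fst.p2.p2 (PT.nmul (PT.const H) (PT_npow (PT_tE.comp PT.fst) p'))
    have e2 : OPT O (fun w : (List Bool × List Bool × ℕ) × List Bool =>
        hbits M (zE u K c p w.1) (aE w.1) w.2 (p2 w.1.2.2 (H * tE w.1 ^ p'))) :=
      OPT_hbits M ((PT_zE u K c p).comp PT.fst) (PT_aE.comp PT.fst) PT.snd e1
    have e3 : PT (fun w : (List Bool × List Bool × ℕ) × List Bool =>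
        dv (M.W.eval (zE u K c p w.1).length) w.2.length *
          (M.W.eval (zE u K c p w.1).length + 1)) :=
      PT.nmul (PT_dv (PT_peval M.W (PT.length ((PT_zE u K c p).comp PT.fst)))
        (PT.length PT.snd)) (PT.nsucc (PT_peval M.W (PT.length ((PT_zE u K c p).comp PT.fst))))
    refine OPT.bind (h := fun y : ((List Bool × List Bool × ℕ) × List Bool) × List Bool =>
      W (inst E r y.1.1.1 (tE y.1.1) (aE y.1.1) (flat (2 * (D * tE y.1.1) + 2) y.2)
        (str y.1.2.length), pE y.1.1, y.1.1.2.2)) e2 ?_ e3 ?_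
    · refine hW.comp_PT (PT.pair (PT_inst E r PT.fst.p1.p1 (PT_tE.comp PT.fst.p1)
        (PT_aE.comp PT.fst.p1) (PT_flat (PT.nadd (PT.nmul (PT.const 2) (PT.nmul (PT.const D)
          (PT_tE.comp PT.fst.p1))) (PT.const 2)) PT.snd) (PT_str (PT.length PT.fst.p2)))
          (PT.pair (PT_pE.comp PT.fst.p1) PT.fst.p1.p2.p2))
    · intro w
      exact (length_hbits M (zE u K c p w.1) (aE w.1) w.2 _).le
  refine eval_lemma M hr hp (by omega) hu (A := A + cΦ * (E + 1) ^ (r - 1) + H + D +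
    cΦ * (E + 1) ^ κ) ?_ (β := fun m => bΦ (E * wd r m ^ r)) ?_ hF ?_
  · intro m
    refine (ha m).trans (Nat.mul_le_mul_right _ ?_)
    omega
  · intro m
    have h1 := hbΦ (E * wd r m ^ r)
    have ht := wd_pos r m
    have h2 : wd r (E * wd r m ^ r) ≤ E * wd r m + 1 := wd_le_mul (by omega) le_rfl
    have h3 : E * wd r m + 1 ≤ (E + 1) * wd r m := by rw [Nat.add_mul, Nat.one_mul]; omega
    have h4 : wd r (E * wd r m ^ r) ^ (r - 1) ≤ (E + 1) ^ (r - 1) * wd r m ^ (r - 1) := by
      rw [← mul_pow]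
      exact Nat.pow_le_pow_left (h2.trans h3) _
    have h5 := Nat.mul_le_mul_left cΦ h4
    refine h1.trans (h5.trans ?_)
    rw [← Nat.mul_assoc]
    exact Nat.mul_le_mul_right _ (by omega)
  · intro x pad hpad i hi
    obtain ⟨t, ht⟩ : ∃ t, t = wd r x.length := ⟨_, rfl⟩
    have ht1 : 1 ≤ t := by rw [ht]; exact wd_pos _ _
    obtain ⟨z, hz⟩ : ∃ z, z = zred u K c p (x, t) := ⟨_, rfl⟩
    have hzl : zlen u K c p x.length t = z.length := by rw [hz, length_zred]
    have hzc : z.length ≤ c₀ * t ^ p := by rw [hz, ht]; exact hlen x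
    have hcert := hD₂ x
    have hDx := hD₁ x.length
    have haz := ha x.length
    rw [← ht] at hpad hi hcert hDx haz ⊢
    rw [hzl] at hi hcert hDx haz ⊢
    rw [← hz] at hcert ⊢
    have hDN : 2 * (M.N z.length + 2) ≤ 2 ^ (D * t) := by
      have h1 : 2 ^ (D₁ * t + 1) ≤ 2 ^ (D * t) := by
        refine Nat.pow_le_pow_right (by norm_num) ?_
        rw [hD, Nat.add_mul, Nat.one_mul]
        omega
      rw [pow_succ] at h1
      omega
    have hK1 : 1 ≤ M.W.eval z.length := by
      by_contra hn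
      have h1 := M.hNW z.length (by omega)
      omega
    have hxt : x.length < t ^ r := by rw [ht]; exact lt_wd_pow (by omega) _
    have htκ : t ^ p' ≤ t ^ κ := Nat.pow_le_pow_right ht1 hκ
    have ht1' : 1 ≤ t ^ (r - 1) := Nat.one_le_pow _ _ ht1
    have htt : t ^ (r - 1) * t = t ^ r := by
      rw [← pow_succ]
      congr 1
      omega
    have htr : t ≤ t ^ r := Nat.le_self_pow (by omega) _
    have htr1 : t ^ (r - 1) ≤ t ^ r := Nat.pow_le_pow_right ht1 (by omega)
    have htp : t ≤ t ^ p' := Nat.le_self_pow (by omega) _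
    have h1p : 1 ≤ t ^ p' := Nat.one_le_pow _ _ ht1
    obtain ⟨β, hβ⟩ : ∃ β, β = bΦ (E * t ^ r) := ⟨_, rfl⟩
    rw [← hβ]
    obtain ⟨e, he⟩ : ∃ e, e = (x, adv t (M.a z.length) β (M.N z.length), pad) := ⟨_, rfl⟩
    rw [← he]
    have he1 : e.1 = x := by rw [he]
    have he2 : e.2.2 = pad := by rw [he]
    have het : tE e = t := by rw [he]; exact tE_adv _ _ _ _ _ _
    have hea : aE e = M.a z.length := by rw [he]; exact aE_adv _ _ _ _ _ _
    have hep : pE e = β := by rw [he]; exact pE_adv _ _ _ _ _ _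
    have hez : zE u K c p e = z := by
      unfold zE
      rw [het, he1, hz]
    dsimp only
    rw [he1, he2, het, hea, hep, hez]
    -- the bound for the search
    have hHκ : 2 ^ (H * t ^ p') ≤ pad := by
      refine le_trans (Nat.pow_le_pow_right (by norm_num) ?_) hpad
      exact (Nat.mul_le_mul_left _ htκ).trans (Nat.mul_le_mul_right _ (by omega))
    obtain ⟨b0, hb0⟩ : ∃ b0, b0 = 2 ^ (H * t ^ p') - 1 := ⟨_, rfl⟩
    have hp2 : p2 pad (H * t ^ p') = b0 := by rw [p2_eq' (by omega), hb0]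
    rw [hp2]
    have h2pos : 1 ≤ 2 ^ (H * t ^ p') := Nat.one_le_pow _ _ (by norm_num)
    have hHH : H * t ^ p' = A * t ^ p' + t ^ p' + D * t ^ p' + (D₂ * t ^ p' + 2 * t ^ p') := by
      rw [hH]; ring
    have hDp : D * t ≤ D * t ^ p' := Nat.mul_le_mul_left _ htp
    have hD₂p : D₂ * t ≤ D₂ * t ^ p' := Nat.mul_le_mul_left _ htp
    have hb0' : 2 ^ (A * t ^ p' + 1) ≤ b0 + 1 := by
      have h2 : 2 ^ (A * t ^ p' + 1) ≤ 2 ^ (H * t ^ p') :=
        Nat.pow_le_pow_right (by norm_num) (by omega)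
      omega
    -- the bits
    obtain ⟨v, hv⟩ : ∃ v, v = M.v z i := ⟨_, rfl⟩
    have hvl : v.length = i := by rw [hv, M.length_v]
    obtain ⟨bits, hbits'⟩ : ∃ bits, bits = hbits M z (M.a z.length) v b0 := ⟨_, rfl⟩
    have hbl : bits.length = dv (M.W.eval z.length) i * (M.W.eval z.length + 1) := by
      rw [hbits', length_hbits, hvl]
    have hdvi := dv_mul_le (M.W.eval z.length) i hK1
    have hdvi' : dv (M.W.eval z.length) i ≤ dv (M.W.eval z.length) i * M.W.eval z.length :=
      Nat.le_mul_of_pos_right _ (by omega)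
    have hBlk : ∀ s < dv (M.W.eval z.length) i * (M.W.eval z.length + 1),
        2 * (str (s + 1)).length + 2 ≤ 2 * (D * t) + 2 := by
      intro s hs
      rw [Nat.mul_add, Nat.mul_one] at hs
      have h1 : (str (s + 1)).length < D * t := length_str_lt (by omega)
      omega
    have hcount : bits.count true ≤ A * t ^ (r - 1) := by
      have hfin : {ρ | ∃ j < M.W.eval z.length, ρ * M.W.eval z.length + j < M.N z.length ∧
          A * t ^ p' < cost (fun p => M.R p = true)
            (M.Q z (ρ * M.W.eval z.length + j))}.Finite := by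
        refine (Set.finite_lt_nat (M.N z.length)).subset ?_
        rintro ρ ⟨j, hj, h1, _⟩
        have h2 : ρ ≤ ρ * M.W.eval z.length := Nat.le_mul_of_pos_right _ (by omega)
        show ρ < M.N z.length
        omega
      rw [hbits']
      refine (count_hbits M z _ v b0 hfin ?_).trans (hA z t ht1 hzc).2
      intro ρ hρ hh
      rw [hvl] at hρ
      unfold heavy at hh
      rw [List.any_eq_true] at hh
      obtain ⟨j, hj, hh⟩ := hh
      rw [List.mem_range] at hj
      have h1 : (ρ + 1) * M.W.eval z.length ≤ dv (M.W.eval z.length) i * M.W.eval z.length :=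
        Nat.mul_le_mul_right _ hρ
      rw [Nat.add_mul, Nat.one_mul] at h1
      rw [hv, M.v_take z i _ (by omega), M.v_getD z i _ (by omega), Bool.and_eq_true,
        decide_eq_true_eq] at hh
      refine ⟨j, hj, by omega, ?_⟩
      by_contra hc
      rw [not_lt] at hc
      have h3 := brute_complete (R := M.R) hb0' hh.1 hc
      have h4 : M.q ((z, M.a z.length), M.v z (ρ * M.W.eval z.length + j)) =
        M.Q z (ρ * M.W.eval z.length + j) := rfl
      rw [h4, h3] at hh
      simp at hh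
    obtain ⟨f, hf⟩ : ∃ f, f = flat (2 * (D * t) + 2) bits := ⟨_, rfl⟩
    have hfl : f.length ≤ A * (2 * D + 2) * t ^ r := by
      rw [hf, length_flat (fun j hj => hBlk j (by rwa [hbl] at hj))]
      have h1 : 2 * (D * t) + 2 ≤ (2 * D + 2) * t := by
        have : (2 * D + 2) * t = 2 * (D * t) + 2 * t := by ring
        omega
      calc bits.count true * (2 * (D * t) + 2) ≤ A * t ^ (r - 1) * ((2 * D + 2) * t) :=
            Nat.mul_le_mul hcount h1
        _ = A * (2 * D + 2) * (t ^ (r - 1) * t) := by ring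
        _ = A * (2 * D + 2) * t ^ r := by rw [htt]
    have hil : (str i).length ≤ D * t := (length_str_lt (by omega)).le
    have hcore : 2 * (core x t (M.a z.length) f (str i)).length + 2 ≤ E * t ^ r := by
      rw [length_core]
      have h1 : D * t ≤ D * t ^ r := Nat.mul_le_mul_left _ htr
      have h2 : A * t ^ (r - 1) ≤ A * t ^ r := Nat.mul_le_mul_left _ htr1
      have h3 : E * t ^ r = 2 * (2 * t ^ r + 2 * t ^ r + (2 * t ^ r + 2 * t ^ r +
        (2 * (A * t ^ r) + 2 * t ^ r + (2 * (A * (2 * D + 2) * t ^ r) + 2 * t ^ r +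
          D * t ^ r)))) + 2 * t ^ r := by rw [hE]; ring
      rw [h3]
      omega
    obtain ⟨w, hw⟩ : ∃ w, w = inst E r x t (M.a z.length) f (str i) := ⟨_, rfl⟩
    have hwl : w.length = E * t ^ r := by rw [hw]; exact length_inst hcore
    have hipad : ∀ P, 2 ^ (H * t ^ p') ≤ P + 1 → i ≤ P := by
      intro P hP
      have h5 : 2 ^ (D * t) ≤ 2 ^ (H * t ^ p') := Nat.pow_le_pow_right (by norm_num) (by omega)
      omega
    -- the meaning of the query
    have hmean : (∃ y : List Bool, y.length ≤ 2 ^ ((D₂ + D + H + 5) * wd r w.length ^ p') ∧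
        VPhi M u K c p H D p' (w, y) = true) ↔ M.Q z i ∈ M.B := by
      constructor
      · rintro ⟨y, _, hy⟩
        rw [hw, VPhi_inst, ← hz, hf, hbits', hv, hb0] at hy
        exact ⟨_, mean_sound M hK1 (hipad _) hBlk hy⟩
      · rintro ⟨c', hc'⟩
        -- certificates of all queries
        have hgex : ∀ j, ∃ g : List Bool, g.length ≤ 2 ^ (D₂ * t) ∧
            (j < M.N z.length → M.Q z j ∈ M.B → M.R (M.Q z j, g) = true) := by
          intro j
          by_cases hj : j < M.N z.length ∧ M.Q z j ∈ M.B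
          · obtain ⟨hj1, g, hg⟩ := hj
            exact ⟨g, (M.hlen _ _ hg).trans (hcert j hj1), fun _ _ => hg⟩
          · exact ⟨[], Nat.zero_le _, fun h1 h2 => absurd ⟨h1, h2⟩ hj⟩
        choose g hg1 hg2 using hgex
        have hX : 2 ^ (D₂ * t) ≤ 2 ^ (D₂ * t ^ p') := Nat.pow_le_pow_right (by norm_num) hD₂p
        have hgp : ∀ j < i, 2 * (g j).length + 2 ≤ 2 ^ (H * t ^ p') := by
          intro j _
          have h1 := hg1 j
          have h2 : 2 ^ (D₂ * t ^ p' + 2) ≤ 2 ^ (H * t ^ p') :=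
            Nat.pow_le_pow_right (by norm_num) (by omega)
          have h3 : 1 ≤ 2 ^ (D₂ * t ^ p') := Nat.one_le_pow _ _ (by norm_num)
          rw [pow_add] at h2
          omega
        refine ⟨encPair (encPair (c', encPair (v, mkFlat (2 ^ (H * t ^ p')) i g)),
          List.replicate (2 ^ (H * t ^ p')) true), ?_, ?_⟩
        · rw [length_encPair, List.length_replicate, length_encPair, length_encPair, hvl,
            length_mkFlat hgp]
          have h1 := M.hlen _ _ hc'
          have h2 : t ≤ wd r w.length := by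
            rw [ht]
            refine wd_le_of_lt (by omega) (lt_of_le_of_lt ?_ (lt_wd_pow (by omega) _))
            rw [hwl]
            have h3 : 1 ≤ E := by omega
            have h4 : 1 * t ^ r ≤ E * t ^ r := Nat.mul_le_mul_right _ h3
            omega
          have h3 : (D₂ + D + H + 5) * t ^ p' ≤ (D₂ + D + H + 5) * wd r w.length ^ p' :=
            Nat.mul_le_mul_left _ (Nat.pow_le_pow_left h2 _)
          refine le_trans ?_ (Nat.pow_le_pow_right (by norm_num) h3)
          have h4 : (D₂ + D + H + 5) * t ^ p' = D₂ * t ^ p' + D * t ^ p' + H * t ^ p' +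
            5 * t ^ p' := by ring
          have h6 : c'.length ≤ 2 ^ (D₂ * t ^ p') := (h1.trans (hcert i hi)).trans hX
          have h6' : i ≤ 2 ^ (D * t ^ p') := by
            have h7 : 2 ^ (D * t) ≤ 2 ^ (D * t ^ p') := Nat.pow_le_pow_right (by norm_num) hDp
            omega
          have h8 : 2 ^ (D₂ * t ^ p' + D * t ^ p' + H * t ^ p' + 5) ≤
              2 ^ ((D₂ + D + H + 5) * t ^ p') := Nat.pow_le_pow_right (by norm_num) (by omega)
          refine le_trans ?_ h8
          have h9 : 2 ^ (D₂ * t ^ p' + D * t ^ p' + H * t ^ p' + 5) =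
              32 * (2 ^ (D₂ * t ^ p') * 2 ^ (D * t ^ p') * 2 ^ (H * t ^ p')) := by
            rw [pow_add 2 (D₂ * t ^ p' + D * t ^ p' + H * t ^ p'),
              pow_add 2 (D₂ * t ^ p' + D * t ^ p'), pow_add 2 (D₂ * t ^ p')]
            ring
          rw [h9]
          have hX1 : 1 ≤ 2 ^ (D₂ * t ^ p') := Nat.one_le_pow _ _ (by norm_num)
          have hZ1 : 1 ≤ 2 ^ (D * t ^ p') := Nat.one_le_pow _ _ (by norm_num)
          obtain ⟨X, hXe⟩ : ∃ X, X = 2 ^ (D₂ * t ^ p') := ⟨_, rfl⟩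
          obtain ⟨Z, hZe⟩ : ∃ Z, Z = 2 ^ (D * t ^ p') := ⟨_, rfl⟩
          obtain ⟨Y, hYe⟩ : ∃ Y, Y = 2 ^ (H * t ^ p') := ⟨_, rfl⟩
          rw [← hXe] at h6 hX1 ⊢
          rw [← hZe] at h6' hZ1 ⊢
          rw [← hYe] at h2pos ⊢
          have k1 : i * Y ≤ Z * Y := Nat.mul_le_mul_right _ h6'
          have k2 : Z * Y ≤ X * Z * Y := Nat.mul_le_mul_right _ (Nat.le_mul_of_pos_left _ hX1)
          have k3 : X ≤ X * Z * Y := (Nat.le_mul_of_pos_right X hZ1).trans
            (Nat.le_mul_of_pos_right _ h2pos)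
          have k4 : Z ≤ Z * Y := Nat.le_mul_of_pos_right _ h2pos
          have k5 : Y ≤ Z * Y := Nat.le_mul_of_pos_left _ hZ1
          omega
        · rw [hw, VPhi_inst, ← hz]
          simp only [unpair_enc, List.length_replicate]
          rw [hf, hbits', hv, hb0]
          exact mean_complete M hK1 (Nat.le_succ _) (hipad _ (Nat.le_succ _)) hBlk hc' hgp
            fun j hj => hg2 j (by omega)
    have hWw : W (w, β, pad) = true ↔ M.Q z i ∈ M.B := by
      have h1 := hWc w pad (by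
        rw [hwl]
        refine le_trans (Nat.pow_le_pow_right (by norm_num) ?_) hpad
        have h2 : wd r (E * t ^ r) ≤ E * t + 1 := wd_le_mul (by omega) le_rfl
        have h3 : E * t + 1 ≤ (E + 1) * t := by rw [Nat.add_mul, Nat.one_mul]; omega
        have h4 : wd r (E * t ^ r) ^ κ ≤ (E + 1) ^ κ * t ^ κ := by
          rw [← mul_pow]
          exact Nat.pow_le_pow_left (h2.trans h3) _
        have h5 := Nat.mul_le_mul_left cΦ h4
        rw [← Nat.mul_assoc] at h5
        exact h5.trans (Nat.mul_le_mul_right _ (by omega)))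
      rw [hwl, ← hβ] at h1
      rw [← h1]
      exact hmean
    rw [← hv, ← hbits', ← hf, hvl, ← hw, hWw]

end Pool.Agent.MP_92db0f_lc_gold
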