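import Pool.Agent.MP_92db0f_lc_gold.Hier
import Pool.Agent.MP_92db0f_lc_gold.Step
import Pool.Agent.MP_92db0f_lc_gold.Flat

/-!
The lower bound.
-/

set_option autoImplicit false
set_option linter.unusedSectionVars false

namespace Pool.Agent.MP_92db0f_lc_gold

open Lib.helper60 Function Turing Computability
open MP_92db0f_lc hiding answers
open MP_92db0f_lc_alg (answers PolyTime)

/-! ### real exponents -/

lemma rpow_nat_le (C c₀ p q : ℕ) (e : ℝ) (h : p * e ≤ q) : ∃ A : ℕ, ∀ n t : ℕ, 1 ≤ t →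
    n ≤ c₀ * t ^ p → C * (n : ℝ) ^ e + C ≤ ((A * t ^ q : ℕ) : ℝ) := by
  obtain ⟨A, hA⟩ := exists_nat_ge (C * (c₀ : ℝ) ^ e + 2 * C)
  refine ⟨A, fun n t ht hn => ?_⟩
  have ht' : (1 : ℝ) ≤ t := by exact_mod_cast ht
  have htq : (1 : ℝ) ≤ (t : ℝ) ^ q := one_le_pow₀ ht'
  have hc : (0 : ℝ) ≤ C := Nat.cast_nonneg C
  have hce : (0 : ℝ) ≤ (c₀ : ℝ) ^ e := Real.rpow_nonneg (Nat.cast_nonneg _) _
  push_cast
  have hAt : (C * (c₀ : ℝ) ^ e + 2 * C) * (t : ℝ) ^ q ≤ A * (t : ℝ) ^ q :=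
    mul_le_mul_of_nonneg_right hA (by positivity)
  refine le_trans ?_ hAt
  rcases le_or_gt e 0 with he | he
  · have h1 : (n : ℝ) ^ e ≤ 1 := by
      rcases Nat.eq_zero_or_pos n with rfl | hn
      · rcases eq_or_lt_of_le he with rfl | he
        · simp
        · rw [Nat.cast_zero, Real.zero_rpow he.ne]
          norm_num
      · exact Real.rpow_le_one_of_one_le_of_nonpos (by exact_mod_cast hn) he
    have h2 : C * (n : ℝ) ^ e ≤ C * 1 := mul_le_mul_of_nonneg_left h1 hc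
    have h3 : (0 : ℝ) ≤ C * (c₀ : ℝ) ^ e := by positivity
    nlinarith
  · have h1 : (n : ℝ) ≤ c₀ * (t : ℝ) ^ p := by exact_mod_cast hn
    have h2 : (n : ℝ) ^ e ≤ (c₀ * (t : ℝ) ^ p) ^ e :=
      Real.rpow_le_rpow (Nat.cast_nonneg _) h1 he.le
    rw [Real.mul_rpow (Nat.cast_nonneg _) (by positivity), ← Real.rpow_natCast_mul
      (by positivity)] at h2
    have h3 : (t : ℝ) ^ ((p : ℝ) * e) ≤ (t : ℝ) ^ q := by
      rw [← Real.rpow_natCast]
      exact Real.rpow_le_rpow_of_exponent_le ht' h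
    have h4 : (n : ℝ) ^ e ≤ (c₀ : ℝ) ^ e * (t : ℝ) ^ q :=
      h2.trans (mul_le_mul_of_nonneg_left h3 hce)
    have h5 := mul_le_mul_of_nonneg_left h4 hc
    nlinarith

/-- the parameters -/
lemma exists_param {k γ δ : ℝ} (hk : 1 ≤ k) (hγ : k * γ < 1) (hδ : δ < 1) :
    ∃ r κ : ℕ, 2 ≤ r ∧ r ≤ κ ∧ r * k ≤ κ ∧ ((κ + 3 : ℕ) : ℝ) * γ ≤ ((r - 1 : ℕ) : ℝ) ∧
      ∀ j : ℕ, r ≤ j → ((j + 3 : ℕ) : ℝ) * δ ≤ j := by
  obtain ⟨g, hg⟩ : ∃ g, g = max γ 0 := ⟨_, rfl⟩
  obtain ⟨d, hd⟩ : ∃ d, d = max δ 0 := ⟨_, rfl⟩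
  have hg0 : 0 ≤ g := by rw [hg]; exact le_max_right _ _
  have hgγ : γ ≤ g := by rw [hg]; exact le_max_left _ _
  have hd0 : 0 ≤ d := by rw [hd]; exact le_max_right _ _
  have hdδ : δ ≤ d := by rw [hd]; exact le_max_left _ _
  have hd1 : d < 1 := by rw [hd]; exact max_lt hδ one_pos
  have hkg : k * g < 1 := by
    rcases max_choice γ 0 with h | h
    · rw [hg, h]
      exact hγ
    · rw [hg, h, mul_zero]
      exact one_pos
  obtain ⟨r₁, h1⟩ := exists_nat_ge ((1 + 4 * g) / (1 - k * g))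
  obtain ⟨r₂, h2⟩ := exists_nat_ge (3 * d / (1 - d))
  rw [div_le_iff₀ (by linarith)] at h1 h2
  obtain ⟨r, hr⟩ : ∃ r, r = r₁ + r₂ + 2 := ⟨_, rfl⟩
  obtain ⟨κ, hκ⟩ : ∃ κ, κ = ⌈(r : ℝ) * k⌉₊ := ⟨_, rfl⟩
  have hr0 : (0 : ℝ) ≤ r := Nat.cast_nonneg r
  have hrr : (r : ℝ) = r₁ + r₂ + 2 := by rw [hr]; push_cast; ring
  have hκ1 : (r : ℝ) * k ≤ κ := by rw [hκ]; exact Nat.le_ceil _
  have hκ2 : (κ : ℝ) < (r : ℝ) * k + 1 := by
    rw [hκ]
    exact Nat.ceil_lt_add_one (by positivity)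
  have hr1 : (r₁ : ℝ) ≤ r := by
    rw [hrr]
    have : (0 : ℝ) ≤ r₂ := Nat.cast_nonneg _
    linarith
  have hr2 : (r₂ : ℝ) ≤ r := by
    rw [hrr]
    have : (0 : ℝ) ≤ r₁ := Nat.cast_nonneg _
    linarith
  refine ⟨r, κ, by omega, ?_, hκ1, ?_, ?_⟩
  · have : (r : ℝ) ≤ κ := by nlinarith
    exact_mod_cast this
  · have h3 : ((κ + 3 : ℕ) : ℝ) * γ ≤ ((κ + 3 : ℕ) : ℝ) * g :=
      mul_le_mul_of_nonneg_left hgγ (Nat.cast_nonneg _)
    refine h3.trans ?_
    rw [Nat.cast_sub (by omega)]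
    push_cast
    have h4 : ((κ : ℝ) + 3) * g ≤ ((r : ℝ) * k + 4) * g :=
      mul_le_mul_of_nonneg_right (by linarith) hg0
    have h5 : (r₁ : ℝ) * (1 - k * g) ≤ r * (1 - k * g) :=
      mul_le_mul_of_nonneg_right hr1 (by linarith)
    nlinarith
  · intro j hj
    have hj1 : (r : ℝ) ≤ j := by exact_mod_cast hj
    have h3 : ((j + 3 : ℕ) : ℝ) * δ ≤ ((j + 3 : ℕ) : ℝ) * d :=
      mul_le_mul_of_nonneg_left hdδ (Nat.cast_nonneg _)
    refine h3.trans ?_
    push_cast
    have h4 : (r₂ : ℝ) * (1 - d) ≤ j * (1 - d) :=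
      mul_le_mul_of_nonneg_right (by linarith) (by linarith)
    nlinarith

/-- the sequential computation -/
noncomputable def Decides.mach {O : Set (List Bool)} {R : List Bool × List Bool → Bool}
    {q : ((List Bool × List Bool) × List Bool) × ℕ → List Bool}
    {d : (List Bool × List Bool) × List Bool → Bool} {a : ℕ → List Bool} {N : ℕ → ℕ}
    {W P : Polynomial ℕ} (hR : OPT O R)
    (hD : Decides O (KL O) (fun p => R p = true) q d a N W P) : Mach O where
  R := R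
  q := flatQ W q
  d := d
  a := a
  N := fun n => N n * W.eval n
  W := W
  P := P * W + P
  hR := hR
  hround := flatQ_round W q
  hq := PT_flatQ W (PT_of_strN hD.query)
  hd := PT_of_bool hD.decision
  hlen := fun Q c h => (hD.length Q c h).trans (by
    rw [Polynomial.eval_add]
    exact Nat.le_add_left _ _)
  hN := fun n => by
    rw [Polynomial.eval_add, Polynomial.eval_mul]
    exact (Nat.mul_le_mul_right _ (hD.number n)).trans (Nat.le_add_right _ _)
  hNW := fun n h => by rw [h, Nat.mul_zero]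
  hL := fun z => by
    rw [hD.decides z, roundAnswers_eq _ W q (z, a z.length)]

lemma cost_le_round {O : Set (List Bool)} {R : List Bool × List Bool → Bool}
    {q : ((List Bool × List Bool) × List Bool) × ℕ → List Bool}
    {d : (List Bool × List Bool) × List Bool → Bool} {a : ℕ → List Bool} {N : ℕ → ℕ}
    {W P : Polynomial ℕ} (hR : OPT O R)
    (hD : Decides O (KL O) (fun p => R p = true) q d a N W P) (z : List Bool) {ρ j : ℕ}
    (hj : j < W.eval z.length) :
    cost (fun p => R p = true) ((hD.mach hR).Q z (ρ * W.eval z.length + j)) ≤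
      roundCost (fun p => R p = true) q (z, a z.length) (W.eval z.length) ρ := by
  have h1 : (hD.mach hR).Q z (ρ * W.eval z.length + j) =
      q (((z, a z.length), roundAnswers (Certified fun p => R p = true) q (z, a z.length)
        (W.eval z.length) ρ), j) :=
    flatQ_query (Certified fun p => R p = true) W q (z, a z.length) ρ j hj
  rw [h1]
  unfold roundCost
  exact Finset.le_sup (f := fun j => cost (fun p => R p = true)
    (q (((z, a z.length), roundAnswers (Certified fun p => R p = true) q (z, a z.length)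
      (W.eval z.length) ρ), j))) (Finset.mem_range.mpr hj)

/-- **The trade-off.** -/
theorem tradeoff (O : Set (List Bool)) {k γ δ : ℝ} (hk : 1 ≤ k) (hγ : k * γ < 1) (hδ : δ < 1) :
    ¬ InTradeoff O k γ δ (KL O) := by
  rintro ⟨R', q, d, a, N, Wd, P, C, hD, ha, hx⟩
  obtain ⟨R, hR, hRR⟩ := exists_OPT hD.verifier
  obtain rfl : R' = fun p => R p = true := by
    funext p
    exact propext (hRR p)
  obtain ⟨M, hM⟩ : ∃ M, M = hD.mach hR := ⟨_, rfl⟩
  have hMa : M.a = a := by rw [hM]; rfl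
  have hMN : ∀ n, M.N n = N n * Wd.eval n := fun n => by rw [hM]; rfl
  have hMW : M.W = Wd := by rw [hM]; rfl
  have hcost : ∀ (z : List Bool) (ρ j : ℕ), j < Wd.eval z.length →
      cost (fun p => M.R p = true) (M.Q z (ρ * Wd.eval z.length + j)) ≤
        roundCost (fun p => R p = true) q (z, a z.length) (Wd.eval z.length) ρ := by
    intro z ρ j hj
    rw [hM]
    exact cost_le_round hR hD z hj
  clear hM
  obtain ⟨r, κ, hr, hrκ, h1, h2, h3⟩ := exists_param hk hγ hδ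
  -- the bounds
  have hbase : ∀ c₀ : ℕ, ∃ A, ∀ (z : List Bool) (t : ℕ), 1 ≤ t → z.length ≤ c₀ * t ^ r →
      (M.a z.length).length ≤ A * t ^ (r - 1) ∧
      ∀ i < M.N z.length, cost (fun p => M.R p = true) (M.Q z i) ≤ A * t ^ κ := by
    intro c₀
    obtain ⟨A₁, hA₁⟩ := rpow_nat_le C c₀ r (r - 1) γ (by
      rcases le_or_gt γ 0 with h | h
      · exact (mul_nonpos_of_nonneg_of_nonpos (Nat.cast_nonneg _) h).trans (Nat.cast_nonneg _)
      · refine le_trans (mul_le_mul_of_nonneg_right ?_ h.le) h2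
        exact_mod_cast (by omega : r ≤ κ + 3))
    obtain ⟨A₂, hA₂⟩ := rpow_nat_le C c₀ r κ k h1
    refine ⟨A₁ + A₂, fun z t ht hz => ⟨?_, fun i hi => ?_⟩⟩
    · have h4 := (ha z.length).trans (hA₁ _ t ht hz)
      have h5 : (a z.length).length ≤ A₁ * t ^ (r - 1) := by exact_mod_cast h4
      rw [hMa]
      exact h5.trans (Nat.mul_le_mul_right _ (by omega))
    · rw [hMN] at hi
      have hK : 1 ≤ Wd.eval z.length := by
        by_contra hn
        have h6 : Wd.eval z.length = 0 := by omega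
        rw [h6, Nat.mul_zero] at hi
        omega
      obtain ⟨ρ, j, hj, hij, _⟩ := exists_dv hK i
      have hρ : ρ < N z.length := by
        by_contra hn
        have h6 : N z.length * Wd.eval z.length ≤ ρ * Wd.eval z.length :=
          Nat.mul_le_mul_right _ (not_lt.mp hn)
        omega
      have h4 := ((hx z).1 ρ hρ).trans (hA₂ _ t ht hz)
      have h5 : roundCost (fun p => R p = true) q (z, a z.length) (Wd.eval z.length) ρ ≤
        A₂ * t ^ κ := by exact_mod_cast h4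
      rw [hij]
      exact (hcost z ρ j hj).trans (h5.trans (Nat.mul_le_mul_right _ (by omega)))
  have hstep : ∀ p p' : ℕ, r ≤ p → p ≤ κ + 3 → (p : ℝ) * δ ≤ p' → ∀ c₀ : ℕ, ∃ A,
      ∀ (z : List Bool) (t : ℕ), 1 ≤ t → z.length ≤ c₀ * t ^ p →
      (M.a z.length).length ≤ A * t ^ (r - 1) ∧
      {ρ | ∃ j < M.W.eval z.length, ρ * M.W.eval z.length + j < M.N z.length ∧
        A * t ^ p' < cost (fun p => M.R p = true) (M.Q z (ρ * M.W.eval z.length + j))}.ncard ≤
          A * t ^ (r - 1) := by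
    intro p p' hp hpκ hpp c₀
    obtain ⟨A₁, hA₁⟩ := rpow_nat_le C c₀ p (r - 1) γ (by
      rcases le_or_gt γ 0 with h | h
      · exact (mul_nonpos_of_nonneg_of_nonpos (Nat.cast_nonneg _) h).trans (Nat.cast_nonneg _)
      · refine le_trans (mul_le_mul_of_nonneg_right ?_ h.le) h2
        exact_mod_cast hpκ)
    obtain ⟨A₂, hA₂⟩ := rpow_nat_le C c₀ p p' δ hpp
    refine ⟨A₁ + A₂, fun z t ht hz => ⟨?_, ?_⟩⟩
    · have h4 := (ha z.length).trans (hA₁ _ t ht hz)
      have h5 : (a z.length).length ≤ A₁ * t ^ (r - 1) := by exact_mod_cast h4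
      rw [hMa]
      exact h5.trans (Nat.mul_le_mul_right _ (by omega))
    · have h4 := (hx z).2.trans (hA₁ _ t ht hz)
      have h5 : {i | i < N z.length ∧ C * (z.length : ℝ) ^ δ + C <
          (roundCost (fun p => R p = true) q (z, a z.length) (Wd.eval z.length) i : ℝ)}.ncard
            ≤ A₁ * t ^ (r - 1) := by exact_mod_cast h4
      refine le_trans (Set.ncard_le_ncard ?_ ?_) (h5.trans (Nat.mul_le_mul_right _ (by omega)))
      · rintro ρ ⟨j, hj, hi1, hi2⟩
        rw [hMW] at hj hi1 hi2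
        rw [hMN] at hi1
        have hρ : ρ < N z.length := by
          by_contra hn
          have h6 : N z.length * Wd.eval z.length ≤ ρ * Wd.eval z.length :=
            Nat.mul_le_mul_right _ (not_lt.mp hn)
          omega
        refine ⟨hρ, (hA₂ _ t ht hz).trans_lt ?_⟩
        have h6 : A₂ * t ^ p' < roundCost (fun p => R p = true) q (z, a z.length)
            (Wd.eval z.length) ρ :=
          lt_of_lt_of_le (lt_of_le_of_lt (Nat.mul_le_mul_right _ (by omega)) hi2) (hcost z ρ j hj)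
        exact_mod_cast h6
      · exact (Set.finite_lt_nat (N z.length)).subset fun i hi => hi.1
  have h4 : ∀ j, r + j ≤ κ → ∀ L, InN O r (r + j) L → InDA O r κ L := by
    intro j
    induction j with
    | zero =>
      intro _ L hL
      exact base M hr (by omega) hbase hL
    | succ j ih =>
      intro hj L hL
      have h5 := h3 (r + j) (by omega)
      refine step M hr (p := r + (j + 1)) (p' := r + j) (by omega) (by omega) (by omega)
        (hstep _ _ (by omega) (by omega) ?_) (ih (by omega)) hL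
      rcases le_or_gt δ 0 with h | h
      · exact (mul_nonpos_of_nonneg_of_nonpos (Nat.cast_nonneg _) h).trans (Nat.cast_nonneg _)
      · refine le_trans (mul_le_mul_of_nonneg_right ?_ h.le) h5
        exact_mod_cast (by omega : r + (j + 1) ≤ r + j + 3)
  have h5 : ∀ L, InN O r κ L → InDA O r κ L := by
    intro L hL
    refine h4 (κ - r) (by omega) L ?_
    rwa [Nat.add_sub_cancel' hrκ]
  have h6 : ∀ L, InN O r (κ + 3) L → InDA O r κ L := fun L hL =>
    step M hr (p := κ + 3) (p' := κ) (by omega) (by omega) le_rfl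
      (hstep _ _ (by omega) le_rfl (h3 κ hrκ)) h5 hL
  exact hierarchy O hr (h6 _ (LD_mem O r κ))

/-- **The total cost.** -/
theorem total (O : Set (List Bool)) {s : ℝ} (hs : s < Real.goldenRatio) :
    ¬ InTotal O s (KL O) := by
  rintro ⟨R, q, d, N, W, P, C, hD, hC⟩
  obtain ⟨s', hs'⟩ : ∃ s', s' = max s 1 := ⟨_, rfl⟩
  have h1 : 1 ≤ s' := by rw [hs']; exact le_max_right _ _
  have h2 : s' < Real.goldenRatio := by
    rw [hs']
    exact max_lt hs Real.one_lt_goldenRatio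
  have h3 : s' * s' < s' + 1 := by
    have h4 := Real.goldenRatio_sq
    have h5 : (0 : ℝ) < Real.goldenRatio := Real.goldenRatio_pos
    have h6 := Real.one_lt_goldenRatio
    nlinarith
  have h4 : s' - 1 / s' < 1 := by
    rw [sub_lt_iff_lt_add, ← sub_lt_iff_lt_add']
    rw [lt_div_iff₀ (by linarith)]
    nlinarith
  obtain ⟨δ, hδ⟩ : ∃ δ, δ = (s' - 1 / s' + 1) / 2 := ⟨_, rfl⟩
  have hδ1 : δ < 1 := by rw [hδ]; linarith
  have hδ2 : s' - 1 / s' < δ := by rw [hδ]; linarith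
  obtain ⟨γ, hγ⟩ : ∃ γ, γ = s' - δ := ⟨_, rfl⟩
  have hkγ : s' * γ < 1 := by
    rw [hγ]
    have h5 : s' - δ < 1 / s' := by linarith
    have h6 := mul_lt_mul_of_pos_left h5 (show (0 : ℝ) < s' by linarith)
    rwa [mul_one_div_cancel (by linarith : s' ≠ 0)] at h6
  have hsn : ∀ n : ℕ, (n : ℝ) ^ s ≤ (n : ℝ) ^ s' + 1 := by
    intro n
    rcases Nat.eq_zero_or_pos n with rfl | hn
    · have h5 : ((0 : ℕ) : ℝ) ^ s ≤ 1 := by
        rw [Nat.cast_zero]
        rcases eq_or_ne s 0 with h | h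
        · rw [h, Real.rpow_zero]
        · rw [Real.zero_rpow h]
          norm_num
      have h6 : (0 : ℝ) ≤ ((0 : ℕ) : ℝ) ^ s' := Real.rpow_nonneg (Nat.cast_nonneg _) _
      linarith
    · have h5 : (n : ℝ) ^ s ≤ (n : ℝ) ^ s' :=
        Real.rpow_le_rpow_of_exponent_le (by exact_mod_cast hn) (by rw [hs']; exact le_max_left _ _)
      linarith
  refine tradeoff O h1 hkγ hδ1 ⟨R, q, d, fun _ => [], N, W, P, 2 * C + 1, hD, ?_, ?_⟩
  · intro n
    have h5 : (0 : ℝ) ≤ (n : ℝ) ^ γ := Real.rpow_nonneg (Nat.cast_nonneg _) _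
    simp only [List.length_nil, Nat.cast_zero]
    positivity
  · intro x
    obtain ⟨n, hn⟩ : ∃ n, n = x.length := ⟨_, rfl⟩
    have hx := hC x
    rw [← hn] at hx ⊢
    obtain ⟨c, hc⟩ : ∃ c : ℕ → ℕ, c = fun i => roundCost R q (x, []) (W.eval n) i := ⟨_, rfl⟩
    have hc' : ∀ i, roundCost R q (x, []) (W.eval n) i = c i := fun i => by rw [hc]
    simp only [hc'] at hx ⊢
    have hCn : (0 : ℝ) ≤ C := Nat.cast_nonneg C
    have hns : (0 : ℝ) ≤ (n : ℝ) ^ s' := Real.rpow_nonneg (Nat.cast_nonneg _) _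
    have hnδ : (0 : ℝ) ≤ (n : ℝ) ^ δ := Real.rpow_nonneg (Nat.cast_nonneg _) _
    have hnγ : (0 : ℝ) ≤ (n : ℝ) ^ γ := Real.rpow_nonneg (Nat.cast_nonneg _) _
    have hx' : ((∑ i ∈ Finset.range (N n), c i : ℕ) : ℝ) ≤ ((2 * C + 1 : ℕ) : ℝ) *
        ((n : ℝ) ^ s' + 1) := by
      have h5 := mul_le_mul_of_nonneg_left (hsn n) hCn
      push_cast at hx ⊢
      nlinarith
    refine ⟨fun i hi => ?_, ?_⟩
    · have h5 : c i ≤ ∑ i ∈ Finset.range (N n), c i :=
        Finset.single_le_sum (fun _ _ => Nat.zero_le _) (Finset.mem_range.mpr hi)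
      have h6 : (c i : ℝ) ≤ ((∑ i ∈ Finset.range (N n), c i : ℕ) : ℝ) := by exact_mod_cast h5
      linarith
    · obtain ⟨S, hS⟩ : ∃ S : Finset ℕ, S = (Finset.range (N n)).filter fun i =>
        ((2 * C + 1 : ℕ) : ℝ) * (n : ℝ) ^ δ + ((2 * C + 1 : ℕ) : ℝ) < c i := ⟨_, rfl⟩
      have hSS : {i | i < N n ∧ ((2 * C + 1 : ℕ) : ℝ) * (n : ℝ) ^ δ + ((2 * C + 1 : ℕ) : ℝ) <
          (c i : ℝ)} = (S : Set ℕ) := by
        ext i
        rw [hS]
        simp
      rw [hSS, Set.ncard_coe_finset]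
      have h5 : (S.card : ℝ) * (((2 * C + 1 : ℕ) : ℝ) * (n : ℝ) ^ δ + ((2 * C + 1 : ℕ) : ℝ)) ≤
          ∑ i ∈ S, (c i : ℝ) := by
        rw [← nsmul_eq_mul]
        exact Finset.card_nsmul_le_sum _ _ _ fun i hi => by
          rw [hS, Finset.mem_filter] at hi
          exact hi.2.le
      have h6 : ∑ i ∈ S, (c i : ℝ) ≤ ((∑ i ∈ Finset.range (N n), c i : ℕ) : ℝ) := by
        push_cast
        refine Finset.sum_le_sum_of_subset_of_nonneg ?_ fun _ _ _ => Nat.cast_nonneg _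
        rw [hS]
        exact Finset.filter_subset _ _
      have h7 := (h5.trans h6).trans hx'
      have hC1 : (0 : ℝ) < ((2 * C + 1 : ℕ) : ℝ) := by positivity
      have h8 : (S.card : ℝ) * ((n : ℝ) ^ δ + 1) ≤ (n : ℝ) ^ s' + 1 := by
        have h9 : ((2 * C + 1 : ℕ) : ℝ) * ((S.card : ℝ) * ((n : ℝ) ^ δ + 1)) ≤
            ((2 * C + 1 : ℕ) : ℝ) * ((n : ℝ) ^ s' + 1) := by
          refine le_trans (le_of_eq ?_) h7
          ring
        exact le_of_mul_le_mul_left h9 hC1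
      have h9 : (n : ℝ) ^ s' ≤ (n : ℝ) ^ δ * (n : ℝ) ^ γ := by
        rcases Nat.eq_zero_or_pos n with h | h
        · rw [h, Nat.cast_zero, Real.zero_rpow (by linarith)]
          exact mul_nonneg (Real.rpow_nonneg le_rfl _) (Real.rpow_nonneg le_rfl _)
        · rw [← Real.rpow_add (by exact_mod_cast h), hγ]
          exact le_of_eq (by ring_nf)
      have h10 : (S.card : ℝ) ≤ (n : ℝ) ^ γ + 1 := by
        have h11 : (S.card : ℝ) * ((n : ℝ) ^ δ + 1) ≤ ((n : ℝ) ^ γ + 1) * ((n : ℝ) ^ δ + 1) := by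
          refine h8.trans ?_
          nlinarith
        exact le_of_mul_le_mul_right h11 (by linarith)
      have h11 : (1 : ℝ) ≤ ((2 * C + 1 : ℕ) : ℝ) := by
        push_cast
        linarith
      nlinarith

end Pool.Agent.MP_92db0f_lc_gold
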