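import Pool.Agent.MP_92db0f_lc_gold.Sound

/-!
The meaning of the language of the queries.
-/

set_option autoImplicit false
set_option linter.unusedSectionVars false

namespace Pool.Agent.MP_92db0f_lc_gold

open Lib.helper60 Function Turing Computability
open MP_92db0f_lc hiding answers
open MP_92db0f_lc_alg (answers PolyTime)

variable {O : Set (List Bool)}

lemma VPt_iff (M : Mach O) (H D p' t pad i : ℕ) (z a f c v' C : List Bool)
    (hpad : 2 ^ (H * t ^ p') ≤ pad + 1 → i ≤ pad) :
    VPt M H D p' (((z, a, f), (t, pad)), (str i, (c, (v', C)))) = true ↔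
      (2 ^ (H * t ^ p') ≤ pad + 1 ∧ v'.length = i ∧
        okC (2 * (D * t) + 2) (M.W.eval z.length) (dv (M.W.eval z.length) i) f v' = true) ∧
      (∀ j < dv (M.W.eval z.length) i * M.W.eval z.length,
        (v'.getD j false = true → M.R (M.q ((z, a), v'.take j), blk pad C j) = true) ∧
        (inL (2 * (D * t) + 2) (M.W.eval z.length) f (dv (M.W.eval z.length) j) = true ∨
          v'.getD j false = brute M.R (M.q ((z, a), v'.take j), 2 ^ (H * t ^ p') - 1))) ∧
      M.R (M.q ((z, a), v'), c) = true := by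
  unfold VPt
  dsimp only
  rw [Bool.and_eq_true, Bool.and_eq_true, Bool.and_eq_true, Bool.and_eq_true, decide_eq_true_eq,
    decide_eq_true_eq, vlc_eq, vl_str]
  have h1 : p2 (pad + 1) (H * t ^ p') ≤ pad ↔ 2 ^ (H * t ^ p') ≤ pad + 1 := by
    rw [p2_eq]
    omega
  rw [h1, and_assoc (a := 2 ^ (H * t ^ p') ≤ pad + 1)]
  have key : ∀ (X Y Z : Prop), (2 ^ (H * t ^ p') ≤ pad + 1 → v'.length = i → (X ↔ Y)) →
      (((2 ^ (H * t ^ p') ≤ pad + 1 ∧ v'.length = i ∧ Z) ∧ X) ↔
        ((2 ^ (H * t ^ p') ≤ pad + 1 ∧ v'.length = i ∧ Z) ∧ Y)) := by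
    intro X Y Z h
    refine and_congr_right fun h2 => h h2.1 h2.2.1
  have h0 : (2 ^ (H * t ^ p') ≤ pad + 1 ∧ v'.length = min pad i ∧
      okC (2 * (D * t) + 2) (M.W.eval z.length) (dv (M.W.eval z.length) v'.length) f v' = true) ↔
      (2 ^ (H * t ^ p') ≤ pad + 1 ∧ v'.length = i ∧
        okC (2 * (D * t) + 2) (M.W.eval z.length) (dv (M.W.eval z.length) i) f v' = true) := by
    refine and_congr_right fun h2 => ?_
    rw [min_eq_right (hpad h2)]
    refine and_congr_right fun h3 => ?_
    rw [h3]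
  rw [h0]
  apply key
  intro h2 h3
  rw [h3]
  refine and_congr_left fun _ => ?_
  rw [List.all_eq_true]
  simp only [List.mem_range]
  refine forall₂_congr fun j _ => ?_
  unfold chk
  dsimp only
  rw [Bool.and_eq_true, Bool.or_eq_true, Bool.or_eq_true, Bool.not_eq_true', decide_eq_true_eq,
    p2_eq' h2]
  refine and_congr ?_ Iff.rfl
  cases v'.getD j false <;> simp

/-- **Soundness.** -/
lemma mean_sound (M : Mach O) {H D p' t pad i : ℕ} {z c v' C : List Bool}
    (hK : 1 ≤ M.W.eval z.length) (hpad : 2 ^ (H * t ^ p') ≤ pad + 1 → i ≤ pad)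
    (hB : ∀ s < dv (M.W.eval z.length) i * (M.W.eval z.length + 1),
      2 * (str (s + 1)).length + 2 ≤ 2 * (D * t) + 2)
    (h : VPt M H D p' (((z, M.a z.length, flat (2 * (D * t) + 2)
      (hbits M z (M.a z.length) (M.v z i) (2 ^ (H * t ^ p') - 1))), (t, pad)),
        (str i, (c, (v', C)))) = true) : M.R (M.Q z i, c) = true := by
  rw [VPt_iff M H D p' t pad i _ _ _ _ _ _ hpad] at h
  obtain ⟨⟨_, hl, h1⟩, h2, h3⟩ := h
  have h4 := agree M z i (2 ^ (H * t ^ p') - 1) (2 * (D * t) + 2) pad hK v' C hl hB h1 h2 _ le_rfl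
  have h5 : M.q ((z, M.a z.length), v') = M.Q z i := by
    unfold Mach.Q
    apply M.hround
    · rw [hl, M.length_v]
    · rw [hl]
      exact take_eq_of_getD (by rw [hl, M.length_v]) h4
  rwa [h5] at h3

open Classical in
/-- **Completeness.** -/
lemma mean_complete (M : Mach O) {H D p' t pad i : ℕ} {z c : List Bool}
    (hK : 1 ≤ M.W.eval z.length) (hpad : 2 ^ (H * t ^ p') ≤ pad + 1) (hi : i ≤ pad)
    (hB : ∀ s < dv (M.W.eval z.length) i * (M.W.eval z.length + 1),
      2 * (str (s + 1)).length + 2 ≤ 2 * (D * t) + 2)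
    (hc : M.R (M.Q z i, c) = true)
    {g : ℕ → List Bool} (hg : ∀ j < i, 2 * (g j).length + 2 ≤ pad)
    (hgR : ∀ j < i, M.Q z j ∈ M.B → M.R (M.Q z j, g j) = true) :
    VPt M H D p' (((z, M.a z.length, flat (2 * (D * t) + 2)
      (hbits M z (M.a z.length) (M.v z i) (2 ^ (H * t ^ p') - 1))), (t, pad)),
        (str i, (c, (M.v z i, mkFlat pad i g)))) = true := by
  rw [VPt_iff M H D p' t pad i _ _ _ _ _ _ (fun _ => hi)]
  obtain ⟨v, hv⟩ : ∃ v, v = M.v z i := ⟨_, rfl⟩
  have hvl : v.length = i := by rw [hv, M.length_v]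
  obtain ⟨b0, hb0⟩ : ∃ b0, b0 = 2 ^ (H * t ^ p') - 1 := ⟨_, rfl⟩
  have hBv : ∀ s < dv (M.W.eval z.length) v.length * (M.W.eval z.length + 1),
      2 * (str (s + 1)).length + 2 ≤ 2 * (D * t) + 2 := by
    rw [hvl]
    exact hB
  have hiK := dv_mul_le (M.W.eval z.length) i hK
  rw [← hv, ← hb0]
  refine ⟨⟨hpad, hvl, ?_⟩, ?_, ?_⟩
  · unfold okC
    rw [List.all_eq_true]
    intro ρ hρ
    rw [List.mem_range] at hρ
    rw [List.all_eq_true]
    intro s hs
    rw [List.mem_range] at hs
    rw [mem_hbits M z (M.a z.length) v b0 _ hBv (by rw [hvl]; exact hρ) (by omega)]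
    cases heavy M z (M.a z.length) v b0 ρ <;> simp [em']
  · intro j hj
    have hji : j < i := by omega
    have hq : M.q ((z, M.a z.length), v.take j) = M.Q z j := by
      rw [hv, M.v_take z i j hji.le]
      rfl
    rw [hq]
    have hvj : v.getD j false = decide (M.Q z j ∈ M.B) := by rw [hv, M.v_getD z i j hji]
    refine ⟨fun h => ?_, ?_⟩
    · rw [blk_mkFlat hg hji]
      rw [hvj, decide_eq_true_eq] at h
      exact hgR j hji h
    · obtain ⟨ρ, s, hs, hjs, hd⟩ := exists_dv hK j
      have hρ : ρ < dv (M.W.eval z.length) i := by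
        by_contra hn
        have h1 : dv (M.W.eval z.length) i * M.W.eval z.length ≤ ρ * M.W.eval z.length :=
          Nat.mul_le_mul_right _ (not_lt.mp hn)
        omega
      rw [hd, inL_hbits M z (M.a z.length) v b0 _ hBv (by rw [hvl]; exact hρ)]
      cases hh : heavy M z (M.a z.length) v b0 ρ
      · right
        rw [hvj, Bool.eq_iff_iff, decide_eq_true_eq]
        constructor
        · intro h4
          by_contra h5
          have h6 : heavy M z (M.a z.length) v b0 ρ = true := by
            unfold heavy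
            rw [List.any_eq_true]
            refine ⟨s, List.mem_range.mpr hs, ?_⟩
            rw [← hjs, hq, hvj]
            simp only [Bool.not_eq_true] at h5
            rw [h5]
            simpa using h4
          rw [hh] at h6
          exact absurd h6 (by simp)
        · exact brute_sound
      · left
        rfl
  · have hq : M.q ((z, M.a z.length), v) = M.Q z i := by
      rw [hv]
      rfl
    rw [hq]
    exact hc

end Pool.Agent.MP_92db0f_lc_gold
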