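import Pool.Agent.MP_92db0f_lc.Certs
import Pool.Agent.MP_92db0f_lc_alg.Defs

/-!
Functions computed in polynomial time with an oracle.
-/

set_option autoImplicit false
set_option linter.unusedSectionVars false

namespace Pool.Agent.MP_92db0f_lc_gold

open Lib.helper60 Function Turing Computability
open MP_92db0f_lc hiding answers
open MP_92db0f_lc_alg (answers PolyTime)

/-! ### answers -/

section

variable {α α' α'' : Type} (O : Set (List Bool))

lemma length_answers (q : α × List Bool → List Bool) (a : α) (i : ℕ) :
    (answers O q a i).length = i := by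
  induction i with
  | zero => rfl
  | succ i ih => rw [answers, List.length_append, ih, List.length_singleton]

lemma answers_take (q : α × List Bool → List Bool) (a : α) (i j : ℕ) (h : j ≤ i) :
    (answers O q a i).take j = answers O q a j := by
  induction i with
  | zero =>
    have : j = 0 := by omega
    subst this
    rfl
  | succ i ih =>
    rcases Nat.lt_or_ge i j with h1 | h1
    · have : j = i + 1 := by omega
      subst this
      exact List.take_of_length_le (by rw [length_answers])
    · rw [answers, List.take_append_of_le_length (by rw [length_answers]; exact h1)]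
      exact ih h1

/-- two computations with the same queries -/
lemma answers_congr {q : α × List Bool → List Bool} {q' : α' × List Bool → List Bool} {a : α}
    {a' : α'} {n : ℕ} (h : ∀ v : List Bool, v.length < n → q (a, v) = q' (a', v)) :
    ∀ i ≤ n, answers O q a i = answers O q' a' i := by
  intro i
  induction i with
  | zero => intro _; rfl
  | succ i ih =>
    intro hi
    rw [answers, answers, ← ih (by omega), h _ (by rw [length_answers]; omega)]

/-- continuation of a computation -/
lemma answers_seq {q : α × List Bool → List Bool} {q' : α' × List Bool → List Bool} {a : α}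
    {a' : α'} {n m : ℕ}
    (h : ∀ v : List Bool, v.length < m → q (a, answers O q a n ++ v) = q' (a', v)) :
    ∀ i ≤ m, answers O q a (n + i) = answers O q a n ++ answers O q' a' i := by
  intro i
  induction i with
  | zero => intro _; simp [answers]
  | succ i ih =>
    intro hi
    rw [← Nat.add_assoc, answers, ih (by omega), h _ (by rw [length_answers]; omega), answers,
      List.append_assoc]

end

/-! ### measures -/

/-- A polynomial-time measure of the size of the objects of a type. -/
class Meas (α : Type) [DEnc α] where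
  m : α → ℕ
  pt : PT m
  bd : ∀ a, tsize a ≤ 8 * (m a + 1)

instance : Meas (List Bool) where
  m := List.length
  pt := PT.length PT.id
  bd := fun a => by
    have := tsize_bits_le a
    omega

instance : Meas ℕ where
  m := fun n => n
  pt := PT.id
  bd := fun a => by
    have : tsize a = 2 * a + 1 := tsize_nat a
    omega

instance {α β : Type} [DEnc α] [DEnc β] [Meas α] [Meas β] : Meas (α × β) where
  m := fun z => Meas.m z.1 + Meas.m z.2 + 2
  pt := PT.nadd (PT.nadd (Meas.pt.comp PT.fst) (Meas.pt.comp PT.snd)) (PT.const 2)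
  bd := fun z => by
    have h1 := Meas.bd z.1
    have h2 := Meas.bd z.2
    have h3 : tsize z = tsize z.1 + tsize z.2 + 1 := tsize_pair _ _
    omega

/-- the polynomial bound in terms of the measure -/
lemma pbMeas {α : Type} [DEnc α] [Meas α] {t : α → ℕ} (h : PB t) :
    ∃ P : Polynomial ℕ, ∀ a n, Meas.m a ≤ n → t a ≤ P.eval n := by
  obtain ⟨P, hP⟩ := h
  refine ⟨P.comp (8 * (Polynomial.X + 1)), fun a n h => (hP a).trans ?_⟩
  have h1 : (P.comp (8 * (Polynomial.X + 1))).eval n = P.eval (8 * (n + 1)) := by
    simp [Polynomial.eval_comp]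
  rw [h1]
  exact evalMono P ((Meas.bd a).trans (by omega))

lemma natPB {α : Type} [DEnc α] {t : α → ℕ} (h : PT t) : PB t :=
  h.size.of_le fun a => by
    have : tsize (t a) = 2 * t a + 1 := tsize_nat _
    omega

/-! ### functions with an oracle -/

variable {O : Set (List Bool)} {α β γ ι : Type} [DEnc α] [DEnc β] [DEnc γ] [DEnc ι]

/-- The function `f` is computed in polynomial time with the oracle `O`. -/
def OPT (O : Set (List Bool)) {α β : Type} [DEnc α] [DEnc β] (f : α → β) : Prop :=
  ∃ (q : α × List Bool → List Bool) (g : α × List Bool → β) (N : α → ℕ),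
    PT q ∧ PT g ∧ PT N ∧ ∀ a, f a = g (a, answers O q a (N a))

lemma OPT.congr {f f' : α → β} (hf : OPT O f) (h : ∀ a, f a = f' a) : OPT O f' := by
  have : f = f' := funext h
  rwa [← this]

lemma OPT.of_PT {f : α → β} (hf : PT f) : OPT O f :=
  ⟨fun _ => [], fun z => f z.1, fun _ => 0, PT.const _, hf.comp PT.fst, PT.const 0, fun _ => rfl⟩

lemma OPT.map {f : α → β} {h : β → γ} (hf : OPT O f) (hh : PT h) : OPT O (fun a => h (f a)) := by
  obtain ⟨q, g, N, hq, hg, hN, hf⟩ := hf
  exact ⟨q, fun z => h (g z), N, hq, hh.comp hg, hN, fun a => by beta_reduce; rw [hf a]⟩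

lemma OPT.comp_PT {f : β → γ} {h : α → β} (hf : OPT O f) (hh : PT h) :
    OPT O (fun a => f (h a)) := by
  obtain ⟨q, g, N, hq, hg, hN, hf⟩ := hf
  refine ⟨fun z => q (h z.1, z.2), fun z => g (h z.1, z.2), fun a => N (h a),
    hq.comp (PT.pair (hh.comp PT.fst) PT.snd), hg.comp (PT.pair (hh.comp PT.fst) PT.snd),
    hN.comp hh, fun a => ?_⟩
  beta_reduce
  rw [hf (h a)]
  have := answers_congr O (q := fun z : α × List Bool => q (h z.1, z.2)) (q' := q) (a := a)
    (a' := h a) (n := N (h a)) (fun v _ => rfl) _ le_rfl
  simp only [this]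

/-- The general composition. The measure of the intermediate result is bounded. -/
lemma OPT.bind [Meas α] [Meas β] {f : α → β} {h : α × β → γ} {B : α → ℕ} (hf : OPT O f)
    (hh : OPT O h) (hB : PT B) (hfB : ∀ a, Meas.m (f a) ≤ B a) : OPT O (fun a => h (a, f a)) := by
  obtain ⟨q, g, N, hq, hg, hN, hf⟩ := hf
  obtain ⟨q', g', N', hq', hg', hN', hh⟩ := hh
  obtain ⟨P, hP⟩ := pbMeas (natPB hN')
  have hK : PT (fun a => P.eval (Meas.m a + B a + 2)) :=
    PT_peval P (PT.nadd (PT.nadd Meas.pt hB) (PT.const 2))
  have hlen : PT (fun z : α × List Bool => z.2.length) := PT.length PT.snd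
  have hN1 : PT (fun z : α × List Bool => N z.1) := hN.comp PT.fst
  have hmid : PT (fun z : α × List Bool => g (z.1, z.2.take (N z.1))) :=
    hg.comp (PT.pair PT.fst (PT_take hN1 PT.snd))
  have hrest : PT (fun z : α × List Bool => z.2.drop (N z.1)) := PT.drop hN1 PT.snd
  refine ⟨fun z => if z.2.length < N z.1 then q z else
      q' ((z.1, g (z.1, z.2.take (N z.1))), z.2.drop (N z.1)),
    fun z => g' ((z.1, g (z.1, z.2.take (N z.1))),
      (z.2.drop (N z.1)).take (N' (z.1, g (z.1, z.2.take (N z.1))))),
    fun a => N a + P.eval (Meas.m a + B a + 2), ?_, ?_, PT.nadd hN hK, ?_⟩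
  · exact PT.ite (PT.nlt hlen hN1) hq
      (hq'.comp (PT.pair (PT.pair PT.fst hmid) hrest))
  · exact hg'.comp (PT.pair (PT.pair PT.fst hmid) (PT_take (hN'.comp (PT.pair PT.fst hmid)) hrest))
  · intro a
    beta_reduce
    obtain ⟨Q, hQ⟩ : ∃ Q : α × List Bool → List Bool, Q = fun z => if z.2.length < N z.1 then q z
      else q' ((z.1, g (z.1, z.2.take (N z.1))), z.2.drop (N z.1)) := ⟨_, rfl⟩
    rw [← hQ]
    have hQz : ∀ z, Q z = if z.2.length < N z.1 then q z
      else q' ((z.1, g (z.1, z.2.take (N z.1))), z.2.drop (N z.1)) := fun z => by rw [hQ]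
    clear hQ
    have h1 : answers O Q a (N a) = answers O q a (N a) :=
      answers_congr O (fun v hv => by rw [hQz]; simp [hv]) _ le_rfl
    have h2 : ∀ i, answers O Q a (N a + i) = answers O Q a (N a) ++ answers O q' (a, f a) i := by
      intro i
      refine answers_seq O (m := i) (fun v _ => ?_) i le_rfl
      have h3 : (answers O Q a (N a)).length = N a := length_answers O Q a (N a)
      have h4 : ¬ (answers O Q a (N a) ++ v).length < N a := by
        rw [List.length_append, h3]
        omega
      have h5 : (answers O Q a (N a) ++ v).take (N a) = answers O q a (N a) := by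
        rw [List.take_append_of_le_length h3.ge, List.take_of_length_le h3.le, h1]
      have h6 : (answers O Q a (N a) ++ v).drop (N a) = v := by
        rw [List.drop_append_of_le_length h3.ge, List.drop_of_length_le h3.le, List.nil_append]
      rw [hQz]
      simp only [h4, if_false, h5, h6, ← hf a]
    rw [h2]
    have h3 : (answers O Q a (N a)).length = N a := length_answers O Q a (N a)
    have h5 : ∀ v, (answers O Q a (N a) ++ v).take (N a) = answers O q a (N a) := fun v => by
      rw [List.take_append_of_le_length h3.ge, List.take_of_length_le h3.le, h1]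
    have h6 : ∀ v, (answers O Q a (N a) ++ v).drop (N a) = v := fun v => by
      rw [List.drop_append_of_le_length h3.ge, List.drop_of_length_le h3.le, List.nil_append]
    simp only [h5, h6, ← hf a]
    rw [hh (a, f a), answers_take]
    apply hP
    have h7 : Meas.m (a, f a) = Meas.m a + Meas.m (f a) + 2 := rfl
    rw [h7]
    have := hfB a
    omega

/-- Pairs of functions. -/
lemma OPT.pair {f : α → β} {h : α → γ} (hf : OPT O f) (hh : OPT O h) :
    OPT O (fun a => (f a, h a)) := by
  obtain ⟨q, g, N, hq, hg, hN, hf⟩ := hf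
  obtain ⟨q', g', N', hq', hg', hN', hh⟩ := hh
  have hlen : PT (fun z : α × List Bool => z.2.length) := PT.length PT.snd
  have hN1 : PT (fun z : α × List Bool => N z.1) := hN.comp PT.fst
  have hrest : PT (fun z : α × List Bool => z.2.drop (N z.1)) := PT.drop hN1 PT.snd
  refine ⟨fun z => if z.2.length < N z.1 then q z else q' (z.1, z.2.drop (N z.1)),
    fun z => (g (z.1, z.2.take (N z.1)), g' (z.1, z.2.drop (N z.1))),
    fun a => N a + N' a, ?_, ?_, PT.nadd hN hN', ?_⟩
  · exact PT.ite (PT.nlt hlen hN1) hq (hq'.comp (PT.pair PT.fst hrest))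
  · exact PT.pair (hg.comp (PT.pair PT.fst (PT_take hN1 PT.snd))) (hg'.comp (PT.pair PT.fst hrest))
  · intro a
    beta_reduce
    obtain ⟨Q, hQ⟩ : ∃ Q : α × List Bool → List Bool, Q = fun z => if z.2.length < N z.1 then q z
      else q' (z.1, z.2.drop (N z.1)) := ⟨_, rfl⟩
    rw [← hQ]
    have hQz : ∀ z, Q z = if z.2.length < N z.1 then q z
      else q' (z.1, z.2.drop (N z.1)) := fun z => by rw [hQ]
    clear hQ
    have h1 : answers O Q a (N a) = answers O q a (N a) :=
      answers_congr O (fun v hv => by rw [hQz]; simp [hv]) _ le_rfl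
    have h3 : (answers O Q a (N a)).length = N a := length_answers O Q a (N a)
    have h2 : answers O Q a (N a + N' a) = answers O Q a (N a) ++ answers O q' a (N' a) := by
      refine answers_seq O (m := N' a) (fun v _ => ?_) _ le_rfl
      have h4 : ¬ (answers O Q a (N a) ++ v).length < N a := by
        rw [List.length_append, h3]
        omega
      have h6 : (answers O Q a (N a) ++ v).drop (N a) = v := by
        rw [List.drop_append_of_le_length h3.ge, List.drop_of_length_le h3.le, List.nil_append]
      rw [hQz]
      simp only [h4, if_false, h6]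
    rw [h2]
    simp only
    rw [List.take_append_of_le_length h3.ge, List.take_of_length_le h3.le,
      List.drop_append_of_le_length h3.ge, List.drop_of_length_le h3.le, List.nil_append, h1,
      ← hf a, ← hh a]

lemma OPT.bor {f h : α → Bool} (hf : OPT O f) (hh : OPT O h) : OPT O (fun a => f a || h a) :=
  (hf.pair hh).map (h := fun p : Bool × Bool => p.1 || p.2) (PT.bor PT.fst PT.snd)

lemma OPT.band {f h : α → Bool} (hf : OPT O f) (hh : OPT O h) : OPT O (fun a => f a && h a) :=
  (hf.pair hh).map (h := fun p : Bool × Bool => p.1 && p.2) (PT.band PT.fst PT.snd)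

/-! ### recursion that produces bits -/

/-- The string whose next bit is computed from the bits so far. -/
def gen {α : Type} (s : α × List Bool → Bool) (a : α) : ℕ → List Bool
  | 0 => []
  | i + 1 => gen s a i ++ [s (a, gen s a i)]

lemma length_gen {α : Type} (s : α × List Bool → Bool) (a : α) (i : ℕ) :
    (gen s a i).length = i := by
  induction i with
  | zero => rfl
  | succ i ih => rw [gen, List.length_append, ih, List.length_singleton]

/-- one step of the processing of the answers -/
def proc (g : (α × List Bool) × List Bool → Bool) (N : α × List Bool → ℕ)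
    (s : (α × ℕ) × (List Bool × List Bool)) : (α × ℕ) × (List Bool × List Bool) :=
  if s.1.2 ≤ s.2.2.length then
    (s.1, (s.2.1 ++ [g ((s.1.1, s.2.1), s.2.2.take (N (s.1.1, s.2.1)))], s.2.2.drop s.1.2))
  else s

lemma PT_proc {g : (α × List Bool) × List Bool → Bool} {N : α × List Bool → ℕ} (hg : PT g)
    (hN : PT N) : PT (proc g N) := by
  unfold proc
  have h1 : PT (fun s : (α × ℕ) × (List Bool × List Bool) => s.1.1) := PT.fst.p1
  have h2 : PT (fun s : (α × ℕ) × (List Bool × List Bool) => s.1.2) := PT.fst.p2
  have h3 : PT (fun s : (α × ℕ) × (List Bool × List Bool) => s.2.1) := PT.snd.p1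
  have h4 : PT (fun s : (α × ℕ) × (List Bool × List Bool) => s.2.2) := PT.snd.p2
  refine PT.ite (PT.nle h2 (PT.length h4)) ?_ PT.id
  refine PT.pair PT.fst (PT.pair (PT.append h3 (PT.cons ?_ (PT.const []))) (PT.drop h2 h4))
  exact hg.comp (PT.pair (PT.pair h1 h3) (PT_take (hN.comp (PT.pair h1 h3)) h4))

lemma proc_fst (g : (α × List Bool) × List Bool → Bool) (N : α × List Bool → ℕ)
    (s : (α × ℕ) × (List Bool × List Bool)) (i : ℕ) : ((proc g N)^[i] s).1 = s.1 := by
  induction i with
  | zero => rfl
  | succ i ih =>
    rw [iterate_succ_apply', ← ih]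
    unfold proc
    split_ifs <;> rfl

lemma proc_len (g : (α × List Bool) × List Bool → Bool) (N : α × List Bool → ℕ)
    (s : (α × ℕ) × (List Bool × List Bool)) (i : ℕ) :
    ((proc g N)^[i] s).2.1.length ≤ s.2.1.length + i ∧
    ((proc g N)^[i] s).2.2.length ≤ s.2.2.length := by
  induction i with
  | zero => exact ⟨le_rfl, le_rfl⟩
  | succ i ih =>
    rw [iterate_succ_apply']
    unfold proc
    unfold proc at ih
    split_ifs with h
    · simp only [List.length_append, List.length_singleton, List.length_drop]
      omega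
    · omega

lemma PT_proc_iterate {g : (α × List Bool) × List Bool → Bool} {N : α × List Bool → ℕ}
    (hg : PT g) (hN : PT N) {e : ι → α} {k n : ι → ℕ} {t : ι → List Bool} (he : PT e) (hk : PT k)
    (hn : PT n) (ht : PT t) :
    PT (fun x => (proc g N)^[n x] ((e x, k x), ([], t x))) := by
  have h0 : PT (fun x => (((e x, k x), ([], t x)) : (α × ℕ) × (List Bool × List Bool))) :=
    PT.pair (PT.pair he hk) (PT.pair (PT.const []) ht)
  refine PT.iterateNat hn h0 (PT_proc hg hN)
    ⟨fun x => tsize (e x, k x) + (4 * tsize (n x) + 1 + (4 * tsize (t x) + 1) + 1) + 1, ?_, ?_⟩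
  · have b1 := (PT.pair he hk).size
    exact (b1.add (((((PB.const 4).mul hn.size).add (PB.const 1)).add
      (((PB.const 4).mul ht.size).add (PB.const 1))).add (PB.const 1))).add (PB.const 1)
  · intro x i hi
    obtain ⟨s, hs⟩ : ∃ s, s = (proc g N)^[i] ((e x, k x), ([], t x)) := ⟨_, rfl⟩
    have h1 := proc_fst g N ((e x, k x), ([], t x)) i
    have h2 := proc_len g N ((e x, k x), ([], t x)) i
    rw [← hs] at h1 h2 ⊢
    dsimp only at h1
    have h3 : tsize s = tsize s.1 + (tsize s.2.1 + tsize s.2.2 + 1) + 1 := by
      rw [← tsize_pair, ← tsize_pair]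
    rw [h3, h1]
    have h4 := tsize_bits_le s.2.1
    have h5 := tsize_bits_le s.2.2
    have h6 := length_lt_tsize (t x)
    have h7 : tsize (n x) = 2 * n x + 1 := tsize_nat _
    simp only [List.length_nil] at h2
    beta_reduce
    omega

/-- **Recursion that produces bits, with an oracle.** -/
theorem OPT.gen [Meas α] {s : α × List Bool → Bool} (hs : OPT O s) :
    OPT O (fun z : α × ℕ => Pool.Agent.MP_92db0f_lc_gold.gen s z.1 z.2) := by
  obtain ⟨q, g, N, hq, hg, hN, hs⟩ := hs
  obtain ⟨P, hP⟩ := pbMeas (natPB hN)
  obtain ⟨K, hK⟩ : ∃ K : α × ℕ → ℕ, K = fun z => P.eval (Meas.m z.1 + z.2 + 2) + 1 := ⟨_, rfl⟩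
  have hKPT : PT K := by
    rw [hK]
    exact PT.nadd (PT_peval P (PT.nadd (PT.nadd (Meas.pt.comp PT.fst) PT.snd) (PT.const 2)))
      (PT.const 1)
  have hNK : ∀ (a : α) (n : ℕ) (u : List Bool), u.length ≤ n → N (a, u) ≤ K (a, n) := by
    intro a n u hu
    rw [hK]
    have h1 : Meas.m (a, u) = Meas.m a + u.length + 2 := rfl
    have h2 := hP (a, u) (Meas.m a + n + 2) (by rw [h1]; omega)
    exact h2.trans (Nat.le_succ _)
  have hpr : PT (fun z : (α × ℕ) × List Bool =>
      (proc g N)^[z.1.2] ((z.1.1, K z.1), ([], z.2))) :=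
    PT_proc_iterate hg hN PT.fst.p1 (hKPT.comp PT.fst) PT.fst.p2 PT.snd
  obtain ⟨Q, hQ⟩ : ∃ Q : (α × ℕ) × List Bool → List Bool, Q = fun z =>
    q ((z.1.1, ((proc g N)^[z.1.2] ((z.1.1, K z.1), ([], z.2))).2.1),
      ((proc g N)^[z.1.2] ((z.1.1, K z.1), ([], z.2))).2.2) := ⟨_, rfl⟩
  have hQz : ∀ z, Q z = q ((z.1.1, ((proc g N)^[z.1.2] ((z.1.1, K z.1), ([], z.2))).2.1),
      ((proc g N)^[z.1.2] ((z.1.1, K z.1), ([], z.2))).2.2) := fun z => by rw [hQ]
  refine ⟨Q, fun z => ((proc g N)^[z.1.2] ((z.1.1, K z.1), ([], z.2))).2.1, fun z => z.2 * K z,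
    ?_, hpr.p2.p1, PT.nmul PT.snd hKPT, ?_⟩
  · rw [hQ]
    exact hq.comp (PT.pair (PT.pair PT.fst.p1 hpr.p2.p1) hpr.p2.p2)
  · rintro ⟨a, n⟩
    -- processing of the answers to the first `i` blocks
    have key : ∀ i ≤ n, ∀ t, (proc g N)^[i] ((a, K (a, n)), ([], answers O Q (a, n) (i * K (a, n)) ++
        t)) = ((a, K (a, n)), (Pool.Agent.MP_92db0f_lc_gold.gen s a i, t)) := by
      intro i
      induction i with
      | zero => intro _ t; simp [answers, Pool.Agent.MP_92db0f_lc_gold.gen]
      | succ i ih =>
        intro hi t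
        have h1 := ih (by omega)
        -- stuck when less than a block is left
        have hst : ∀ (j : ℕ) (u v : List Bool), v.length < K (a, n) →
            (proc g N)^[j] ((a, K (a, n)), (u, v)) = ((a, K (a, n)), (u, v)) := by
          intro j u v hv
          induction j with
          | zero => rfl
          | succ j ihj =>
            rw [iterate_succ_apply', ihj]
            unfold proc
            rw [if_neg (by simpa using hv)]
        have hQv : ∀ v : List Bool, v.length < K (a, n) →
            Q ((a, n), answers O Q (a, n) (i * K (a, n)) ++ v) =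
              q ((a, Pool.Agent.MP_92db0f_lc_gold.gen s a i), v) := by
          intro v hv
          obtain ⟨r, hr⟩ := Nat.exists_eq_add_of_le (show i ≤ n by omega)
          have h2 : (proc g N)^[n] ((a, K (a, n)), ([], answers O Q (a, n) (i * K (a, n)) ++ v)) =
              ((a, K (a, n)), (Pool.Agent.MP_92db0f_lc_gold.gen s a i, v)) := by
            have h3 : (proc g N)^[n] ((a, K (a, n)), ([], answers O Q (a, n) (i * K (a, n)) ++
                v)) = (proc g N)^[r] ((proc g N)^[i] ((a, K (a, n)), ([],
                  answers O Q (a, n) (i * K (a, n)) ++ v))) := by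
              rw [← iterate_add_apply, Nat.add_comm r i, ← hr]
            rw [h3, h1, hst _ _ _ hv]
          rw [hQz]
          simp only
          rw [h2]
        have hsplit : answers O Q (a, n) ((i + 1) * K (a, n)) =
            answers O Q (a, n) (i * K (a, n)) ++
              answers O q (a, Pool.Agent.MP_92db0f_lc_gold.gen s a i) (K (a, n)) := by
          rw [Nat.add_mul, Nat.one_mul]
          exact answers_seq O hQv _ le_rfl
        rw [iterate_succ_apply', hsplit, List.append_assoc, h1]
        unfold proc
        have h4 := length_answers O q (a, Pool.Agent.MP_92db0f_lc_gold.gen s a i) (K (a, n))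
        have hNk := hNK a n (Pool.Agent.MP_92db0f_lc_gold.gen s a i) (by rw [length_gen]; omega)
        rw [if_pos (by simp only [List.length_append, h4]; omega)]
        simp only
        rw [List.take_append_of_le_length (by omega), answers_take _ _ _ _ _ hNk, ← hs,
          List.drop_append_of_le_length (by omega), List.drop_of_length_le (by omega),
          List.nil_append]
        rfl
    have h1 := key n le_rfl []
    rw [List.append_nil] at h1
    simp only
    rw [h1]

/-! ### consequences -/

lemma gen_range {α : Type} (p : α × ℕ → Bool) (a : α) (n : ℕ) :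
    gen (fun z : α × List Bool => p (z.1, z.2.length)) a n =
      (List.range n).map fun i => p (a, i) := by
  induction n with
  | zero => rfl
  | succ n ih =>
    rw [gen, List.range_succ, List.map_append, ← ih, length_gen]
    rfl

lemma OPT.bits [Meas α] {p : α × ℕ → Bool} (hp : OPT O p) {n : α → ℕ} (hn : PT n) :
    OPT O (fun a => (List.range (n a)).map fun i => p (a, i)) := by
  have h1 : OPT O (fun z : α × List Bool => p (z.1, z.2.length)) :=
    hp.comp_PT (PT.pair PT.fst (PT.length PT.snd))
  have h2 := (OPT.gen h1).comp_PT (h := fun a : α => (a, n a)) (PT.pair PT.id hn)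
  exact h2.congr fun a => gen_range p a (n a)

lemma OPT.any [Meas α] {p : α × ℕ → Bool} (hp : OPT O p) {n : α → ℕ} (hn : PT n) :
    OPT O (fun a => (List.range (n a)).any fun i => p (a, i)) := by
  have h1 := (hp.bits hn).map (h := fun l : List Bool => l.any fun b => b)
    (PT.any (p := fun z : List Bool × Bool => z.2) PT.id PT.snd)
  refine h1.congr fun a => ?_
  rw [List.any_map]
  rfl

end Pool.Agent.MP_92db0f_lc_gold
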