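import Pool.Agent.MP_92db0f_lc_gold.Eval

/-!
The language of the queries with few previous expensive rounds.
-/

set_option autoImplicit false
set_option linter.unusedSectionVars false

namespace Pool.Agent.MP_92db0f_lc_gold

open Lib.helper60 Function Turing Computability
open MP_92db0f_lc hiding answers
open MP_92db0f_lc_alg (answers PolyTime)

variable {O : Set (List Bool)}

/-- the description of a query -/
def core (x : List Bool) (t : ℕ) (a f is : List Bool) : List Bool :=
  encPair (x, encPair (List.replicate t true, encPair (a, encPair (f, is))))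

/-- the description, with the length `E * t ^ r` -/
def inst (E r : ℕ) (x : List Bool) (t : ℕ) (a f is : List Bool) : List Bool :=
  encPair (core x t a f is, List.replicate (E * t ^ r - (2 * (core x t a f is).length + 2)) true)

lemma length_core (x : List Bool) (t : ℕ) (a f is : List Bool) : (core x t a f is).length =
    2 * x.length + 2 + (2 * t + 2 + (2 * a.length + 2 + (2 * f.length + 2 + is.length))) := by
  unfold core
  simp only [length_encPair, List.length_replicate]

lemma length_inst {E r : ℕ} {x : List Bool} {t : ℕ} {a f is : List Bool}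
    (h : 2 * (core x t a f is).length + 2 ≤ E * t ^ r) :
    (inst E r x t a f is).length = E * t ^ r := by
  unfold inst
  rw [length_encPair, List.length_replicate]
  omega

lemma PT_inst (E r : ℕ) {α : Type} [DEnc α] {x a f is : α → List Bool} {t : α → ℕ} (hx : PT x)
    (ht : PT t) (ha : PT a) (hf : PT f) (hi : PT is) :
    PT (fun z => inst E r (x z) (t z) (a z) (f z) (is z)) := by
  unfold inst core
  have h := PT_encPair hx (PT_encPair (PT.replicate ht (PT.const true)) (PT_encPair ha
    (PT_encPair hf hi)))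
  exact PT_encPair h (PT.replicate (PT.nsub (PT.nmul (PT.const E) (PT_npow ht r))
    (PT.nadd (PT.nmul (PT.const 2) (PT.length h)) (PT.const 2))) (PT.const true))

/-- is the round `ρ` in the list `f`? -/
def inL (B K : ℕ) (f : List Bool) (ρ : ℕ) : Bool :=
  (List.range (K + 1)).any fun c => mem B f (ρ * (K + 1) + c)

lemma PT_inL {α : Type} [DEnc α] {B K ρ : α → ℕ} {f : α → List Bool} (hB : PT B) (hK : PT K)
    (hf : PT f) (hρ : PT ρ) : PT (fun a => inL (B a) (K a) (f a) (ρ a)) := by
  unfold inL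
  exact PT.any (p := fun y : α × ℕ => mem (B y.1) (f y.1) (ρ y.1 * (K y.1 + 1) + y.2))
    (PT.range (PT.nsucc hK)) (PT_mem (hB.comp PT.fst) (hf.comp PT.fst)
      (PT.nadd (PT.nmul (hρ.comp PT.fst) (PT.nsucc (hK.comp PT.fst))) PT.snd))

/-- are the counts of the rounds before `m` in accordance with the list? -/
def okC (B K m : ℕ) (f v : List Bool) : Bool :=
  (List.range m).all fun ρ => (List.range (K + 1)).all fun c =>
    !mem B f (ρ * (K + 1) + c) || decide (cnt K ρ v = c)

lemma PT_okC {α : Type} [DEnc α] {B K m : α → ℕ} {f v : α → List Bool} (hB : PT B) (hK : PT K)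
    (hm : PT m) (hf : PT f) (hv : PT v) : PT (fun a => okC (B a) (K a) (m a) (f a) (v a)) := by
  unfold okC
  refine PT.all (p := fun y : α × ℕ => (List.range (K y.1 + 1)).all fun c =>
    !mem (B y.1) (f y.1) (y.2 * (K y.1 + 1) + c) || decide (cnt (K y.1) y.2 (v y.1) = c))
    (PT.range hm) ?_
  refine PT.all (p := fun y : (α × ℕ) × ℕ =>
    !mem (B y.1.1) (f y.1.1) (y.1.2 * (K y.1.1 + 1) + y.2) ||
      decide (cnt (K y.1.1) y.1.2 (v y.1.1) = y.2)) (PT.range (PT.nsucc (hK.comp PT.fst))) ?_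
  exact PT.bor (PT.bnot (PT_mem (hB.comp PT.fst.p1) (hf.comp PT.fst.p1) (PT.nadd (PT.nmul
    PT.fst.p2 (PT.nsucc (hK.comp PT.fst.p1))) PT.snd)))
    (PT.neq (PT_cnt (hK.comp PT.fst.p1) PT.fst.p2 (hv.comp PT.fst.p1)) PT.snd)

/-- the components of an input of the verifier: the input of the complete problem, the advice, the
list; the number `t` and the length of the padding; the number of the query; the certificate of the
query, the answers and the certificates of the answers -/
abbrev Cmp : Type := ((List Bool × List Bool × List Bool) × (ℕ × ℕ)) ×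
  (List Bool × (List Bool × (List Bool × List Bool)))

/-- the check of the answer with the number `j` -/
def chk (M : Mach O) (H D p' : ℕ) (y : Cmp × ℕ) : Bool :=
  (!y.1.2.2.2.1.getD y.2 false || M.R (M.q ((y.1.1.1.1, y.1.1.1.2.1), y.1.2.2.2.1.take y.2),
    blk y.1.1.2.2 y.1.2.2.2.2 y.2)) &&
  (inL (2 * (D * y.1.1.2.1) + 2) (M.W.eval y.1.1.1.1.length) y.1.1.1.2.2
    (dv (M.W.eval y.1.1.1.1.length) y.2) ||
    decide (y.1.2.2.2.1.getD y.2 false = brute M.R
      (M.q ((y.1.1.1.1, y.1.1.1.2.1), y.1.2.2.2.1.take y.2), p2 y.1.1.2.2 (H * y.1.1.2.1 ^ p'))))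

lemma OPT_chk (M : Mach O) (H D p' : ℕ) : OPT O (chk M H D p') := by
  unfold chk
  have hpad : PT (fun y : Cmp × ℕ => y.1.1.2.2) := PT.fst.p1.p2.p2
  have ht : PT (fun y : Cmp × ℕ => y.1.1.2.1) := PT.fst.p1.p2.p1
  have hv : PT (fun y : Cmp × ℕ => y.1.2.2.2.1) := PT.fst.p2.p2.p2.p1
  have hg : PT (fun y : Cmp × ℕ => y.1.2.2.2.1.getD y.2 false) :=
    PT.getD hv PT.snd (PT.const false)
  have hQ : PT (fun y : Cmp × ℕ =>
      M.q ((y.1.1.1.1, y.1.1.1.2.1), y.1.2.2.2.1.take y.2)) :=
    M.hq.comp (PT.pair (PT.pair PT.fst.p1.p1.p1 PT.fst.p1.p1.p2.p1) (PT_take PT.snd hv))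
  have hK : PT (fun y : Cmp × ℕ => M.W.eval y.1.1.1.1.length) :=
    PT_peval M.W (PT.length PT.fst.p1.p1.p1)
  refine OPT.band (OPT.bor (OPT.of_PT (PT.bnot hg)) (M.hR.comp_PT (PT.pair hQ
    (PT_blk hpad PT.fst.p2.p2.p2.p2 PT.snd)))) (OPT.bor (OPT.of_PT (PT_inL (PT.nadd (PT.nmul
      (PT.const 2) (PT.nmul (PT.const D) ht)) (PT.const 2)) hK PT.fst.p1.p1.p2.p2
        (PT_dv hK PT.snd))) ?_)
  have hb : OPT O (fun y : Cmp × ℕ => brute M.R
      (M.q ((y.1.1.1.1, y.1.1.1.2.1), y.1.2.2.2.1.take y.2), p2 y.1.1.2.2 (H * y.1.1.2.1 ^ p'))) :=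
    (OPT_brute M.hR).comp_PT (PT.pair hQ (PT_p2 hpad (PT.nmul (PT.const H) (PT_npow ht p'))))
  refine (((OPT.of_PT hg).pair hb).map (h := fun w : Bool × Bool => decide (w.1 = w.2))
    (PT.beq PT.fst PT.snd)).congr fun y => ?_
  rfl

/-- the verifier for the queries, in terms of the components -/
def VPt (M : Mach O) (H D p' : ℕ) (e : Cmp) : Bool :=
  ((decide (p2 (e.1.2.2 + 1) (H * e.1.2.1 ^ p') ≤ e.1.2.2) &&
    decide (e.2.2.2.1.length = vlc e.1.2.2 e.2.1)) &&
  okC (2 * (D * e.1.2.1) + 2) (M.W.eval e.1.1.1.length)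
    (dv (M.W.eval e.1.1.1.length) e.2.2.2.1.length) e.1.1.2.2 e.2.2.2.1) &&
  (((List.range (dv (M.W.eval e.1.1.1.length) e.2.2.2.1.length * M.W.eval e.1.1.1.length)).all
    fun j => chk M H D p' (e, j)) && M.R (M.q ((e.1.1.1, e.1.1.2.1), e.2.2.2.1), e.2.2.1))

lemma OPT_VPt (M : Mach O) (H D p' : ℕ) : OPT O (VPt M H D p') := by
  unfold VPt
  have ht : PT (fun e : Cmp => e.1.2.1) := PT.fst.p2.p1
  have hpad : PT (fun e : Cmp => e.1.2.2) := PT.fst.p2.p2
  have hH : PT (fun e : Cmp => H * e.1.2.1 ^ p') := PT.nmul (PT.const H) (PT_npow ht p')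
  have hv : PT (fun e : Cmp => e.2.2.2.1) := PT.snd.p2.p2.p1
  have hK : PT (fun e : Cmp => M.W.eval e.1.1.1.length) := PT_peval M.W (PT.length PT.fst.p1.p1)
  have hm : PT (fun e : Cmp => dv (M.W.eval e.1.1.1.length) e.2.2.2.1.length) :=
    PT_dv hK (PT.length hv)
  refine OPT.band (OPT.of_PT (PT.band (PT.band (PT.nle (PT_p2 (PT.nsucc hpad) hH) hpad)
    (PT.neq (PT.length hv) (PT_vlc hpad PT.snd.p1))) (PT_okC (PT.nadd (PT.nmul (PT.const 2)
      (PT.nmul (PT.const D) ht)) (PT.const 2)) hK hm PT.fst.p1.p2.p2 hv))) ?_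
  exact OPT.band ((OPT_chk M H D p').all (PT.nmul hm hK)) (M.hR.comp_PT
    (PT.pair (M.hq.comp (PT.pair (PT.pair PT.fst.p1.p1 PT.fst.p1.p2.p1) hv)) PT.snd.p2.p1))

/-- the components of an input -/
def prj (u : List Bool) (K c p : ℕ) (w : List Bool × List Bool) : Cmp :=
  (((zred u K c p ((unpair (unpair w.1).1).1, (unpair (unpair (unpair w.1).1).2).1.length),
    (unpair (unpair (unpair (unpair w.1).1).2).2).1,
    (unpair (unpair (unpair (unpair (unpair w.1).1).2).2).2).1),
    ((unpair (unpair (unpair w.1).1).2).1.length, (unpair w.2).2.length)),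
    ((unpair (unpair (unpair (unpair (unpair w.1).1).2).2).2).2,
      ((unpair (unpair w.2).1).1, ((unpair (unpair (unpair w.2).1).2).1,
        (unpair (unpair (unpair w.2).1).2).2))))

lemma PT_prj (u : List Bool) (K c p : ℕ) : PT (prj u K c p) := by
  unfold prj
  have u1 : PT (fun w : List Bool × List Bool => unpair (unpair w.1).1) :=
    PT_unpair.comp (PT_unpair.comp PT.fst).p1
  have u2 : PT (fun w : List Bool × List Bool => unpair (unpair (unpair w.1).1).2) :=
    PT_unpair.comp u1.p2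
  have u3 : PT (fun w : List Bool × List Bool => unpair (unpair (unpair (unpair w.1).1).2).2) :=
    PT_unpair.comp u2.p2
  have u4 : PT (fun w : List Bool × List Bool =>
      unpair (unpair (unpair (unpair (unpair w.1).1).2).2).2) := PT_unpair.comp u3.p2
  have uy : PT (fun w : List Bool × List Bool => unpair w.2) := PT_unpair.comp PT.snd
  have uy1 : PT (fun w : List Bool × List Bool => unpair (unpair w.2).1) := PT_unpair.comp uy.p1
  have uy2 : PT (fun w : List Bool × List Bool => unpair (unpair (unpair w.2).1).2) :=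
    PT_unpair.comp uy1.p2
  have ht : PT (fun w : List Bool × List Bool =>
      (unpair (unpair (unpair w.1).1).2).1.length) := PT.length u2.p1
  exact PT.pair (PT.pair (PT.pair ((PT_zred u K c p).comp (PT.pair u1.p1 ht))
    (PT.pair u3.p1 u4.p1)) (PT.pair ht (PT.length uy.p2)))
    (PT.pair u4.p2 (PT.pair uy1.p1 (PT.pair uy2.p1 uy2.p2)))

/-- the verifier for the queries -/
def VPhi (M : Mach O) (u : List Bool) (K c p H D p' : ℕ)
    (w : List Bool × List Bool) : Bool := VPt M H D p' (prj u K c p w)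

lemma OPT_VPhi (M : Mach O) (u : List Bool) (K c p H D p' : ℕ) :
    OPT O (VPhi M u K c p H D p') := (OPT_VPt M H D p').comp_PT (PT_prj u K c p)

lemma VPhi_inst (M : Mach O) (u : List Bool) (K c p H D p' E r : ℕ) (x : List Bool) (t : ℕ)
    (a f is y : List Bool) : VPhi M u K c p H D p' (inst E r x t a f is, y) =
      VPt M H D p' (((zred u K c p (x, t), a, f), (t, (unpair y).2.length)),
        (is, ((unpair (unpair y).1).1, ((unpair (unpair (unpair y).1).2).1,
          (unpair (unpair (unpair y).1).2).2)))) := by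
  unfold VPhi prj inst core
  simp only [unpair_enc, List.length_replicate]

end Pool.Agent.MP_92db0f_lc_gold
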