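import Pool.Agent.MP_92db0f_lc_gold.Root

/-!
Search for certificates, and lists of positions.
-/

set_option autoImplicit false
set_option linter.unusedSectionVars false

namespace Pool.Agent.MP_92db0f_lc_gold

open Lib.helper60 Function Turing Computability
open MP_92db0f_lc hiding answers
open MP_92db0f_lc_alg (answers PolyTime)

/-! ### search for certificates -/

/-- search for a certificate among the first `b` strings -/
def brute (R : List Bool × List Bool → Bool) (z : List Bool × ℕ) : Bool :=
  (List.range z.2).any fun j => R (z.1, str j)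

lemma OPT_brute {O : Set (List Bool)} {R : List Bool × List Bool → Bool} (hR : OPT O R) :
    OPT O (brute R) := by
  unfold brute
  exact OPT.any (p := fun z : (List Bool × ℕ) × ℕ => R (z.1.1, str z.2))
    (hR.comp_PT (PT.pair PT.fst.p1 (PT_str PT.snd))) PT.snd

lemma brute_sound {R : List Bool × List Bool → Bool} {Q : List Bool} {b : ℕ}
    (h : brute R (Q, b) = true) : Q ∈ Certified fun p => R p = true := by
  unfold brute at h
  rw [List.any_eq_true] at h
  obtain ⟨j, _, hj⟩ := h
  exact ⟨_, hj⟩

lemma brute_complete {R : List Bool × List Bool → Bool} {Q : List Bool} {b l : ℕ}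
    (hb : 2 ^ (l + 1) ≤ b + 1) (hQ : Q ∈ Certified fun p => R p = true)
    (hc : cost (fun p => R p = true) Q ≤ l) : brute R (Q, b) = true := by
  have hne : {l | ∃ c : List Bool, c.length = l ∧ R (Q, c) = true}.Nonempty := by
    obtain ⟨c, hc⟩ := hQ
    exact ⟨_, c, rfl, hc⟩
  obtain ⟨c, hc1, hc2⟩ := Nat.sInf_mem hne
  unfold cost at hc
  rw [← hc1] at hc
  unfold brute
  rw [List.any_eq_true]
  refine ⟨vl c, ?_, ?_⟩
  · rw [List.mem_range]
    have h1 := vl_lt c
    have h2 : 2 ^ (c.length + 1) ≤ 2 ^ (l + 1) := Nat.pow_le_pow_right (by norm_num) (by omega)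
    dsimp only
    omega
  · rw [str_vl]
    exact hc2

/-! ### lists of positions -/

/-- is `i` among the positions in the string `f` of blocks of length `B`? -/
def mem (B : ℕ) (f : List Bool) (i : ℕ) : Bool :=
  (List.range f.length).any fun j => decide (blk B f j = str (i + 1))

lemma PT_mem {α : Type} [DEnc α] {B i : α → ℕ} {f : α → List Bool} (hB : PT B) (hf : PT f)
    (hi : PT i) : PT (fun a => mem (B a) (f a) (i a)) := by
  unfold mem
  refine PT.any (p := fun y : α × ℕ => decide (blk (B y.1) (f y.1) y.2 = str (i y.1 + 1)))
    (PT.range (PT.length hf)) ?_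
  exact PT_leq (PT_blk (hB.comp PT.fst) (hf.comp PT.fst) PT.snd) (PT_str (PT.nsucc (hi.comp PT.fst)))

/-- the string of blocks for the positions of the ones in `bits` -/
def flat (B : ℕ) (bits : List Bool) : List Bool :=
  mkFlat B ((List.range bits.length).filter fun i => bits.getD i false).length
    fun j => str (((List.range bits.length).filter fun i => bits.getD i false).getD j 0 + 1)

lemma PT_mkBlk {α : Type} [DEnc α] {B : α → ℕ} {w : α → List Bool} (hB : PT B) (hw : PT w) :
    PT (fun a => mkBlk (B a) (w a)) := by
  unfold mkBlk
  exact PT_encPair hw (PT.replicate (PT.nsub hB (PT.nadd (PT.nmul (PT.const 2) (PT.length hw))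
    (PT.const 2))) (PT.const false))

lemma PT_flat {α : Type} [DEnc α] {B : α → ℕ} {f : α → List Bool} (hB : PT B) (hf : PT f) :
    PT (fun a => flat (B a) (f a)) := by
  unfold flat mkFlat
  have hl : PT (fun a => (List.range (f a).length).filter fun i => (f a).getD i false) :=
    PT.filter (p := fun y : α × ℕ => (f y.1).getD y.2 false) (PT.range (PT.length hf))
      (PT.getD (hf.comp PT.fst) PT.snd (PT.const false))
  refine PT.flatMap (g := fun y : α × ℕ => mkBlk (B y.1)
    (str (((List.range (f y.1).length).filter fun i => (f y.1).getD i false).getD y.2 0 + 1)))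
    (PT.range (PT.length hl)) ?_
  exact PT_mkBlk (hB.comp PT.fst) (PT_str (PT.nsucc (PT.getD (hl.comp PT.fst) PT.snd
    (PT.const 0))))

lemma unpair_nil : unpair [] = ([], []) := rfl

lemma mem_flat {B : ℕ} {bits : List Bool} (hB : ∀ i < bits.length, 2 * (str (i + 1)).length + 2 ≤ B)
    (i : ℕ) : mem B (flat B bits) i = bits.getD i false := by
  obtain ⟨l, hl⟩ : ∃ l, l = (List.range bits.length).filter fun i => bits.getD i false :=
    ⟨_, rfl⟩
  have hmem : ∀ i, i ∈ l ↔ bits.getD i false = true := by
    intro i
    rw [hl, List.mem_filter, List.mem_range]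
    constructor
    · exact fun h => h.2
    · intro h
      refine ⟨?_, h⟩
      by_contra hn
      rw [List.getD_eq_default _ _ (not_lt.mp hn)] at h
      exact absurd h (by simp)
  have hlt : ∀ i ∈ l, i < bits.length := by
    intro i hi
    rw [hl, List.mem_filter, List.mem_range] at hi
    exact hi.1
  have hw : ∀ j < l.length, 2 * (str (l.getD j 0 + 1)).length + 2 ≤ B := by
    intro j hj
    rw [List.getD_eq_getElem _ _ hj]
    exact hB _ (hlt _ (List.getElem_mem hj))
  unfold flat mem
  rw [← hl]
  have hlen := length_mkFlat (B := B) (M := l.length) (w := fun j => str (l.getD j 0 + 1)) hw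
  have hBpos : l ≠ [] → 1 ≤ B := by
    intro h
    have h1 : 0 < l.length := List.length_pos_of_ne_nil h
    have := hw 0 h1
    omega
  rw [Bool.eq_iff_iff, ← hmem i, List.any_eq_true]
  simp only [List.mem_range, decide_eq_true_eq]
  constructor
  · rintro ⟨j, hj, h1⟩
    rcases Nat.lt_or_ge j l.length with h2 | h2
    · rw [blk_mkFlat hw h2] at h1
      have h3 := congrArg vl h1
      rw [vl_str, vl_str, List.getD_eq_getElem _ _ h2] at h3
      have h4 : l[j] = i := by omega
      rw [← h4]
      exact List.getElem_mem h2
    · exfalso
      unfold blk at h1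
      have h3 : (mkFlat B l.length fun j => str (l.getD j 0 + 1)).drop (j * B) = [] := by
        apply List.drop_of_length_le
        rw [hlen]
        exact Nat.mul_le_mul_right _ h2
      rw [h3, List.take_nil, unpair_nil] at h1
      have h4 := congrArg vl h1
      rw [vl_str] at h4
      simp [vl] at h4
  · intro h
    obtain ⟨j, hj, h1⟩ := List.mem_iff_getElem.mp h
    refine ⟨j, ?_, ?_⟩
    · rw [hlen]
      have := hBpos (by rintro rfl; simp at hj)
      exact lt_of_lt_of_le hj (Nat.le_mul_of_pos_right _ this)
    · rw [blk_mkFlat hw hj, List.getD_eq_getElem _ _ hj, h1]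

lemma length_positions (bits : List Bool) :
    ((List.range bits.length).filter fun i => bits.getD i false).length = bits.count true := by
  induction bits using List.reverseRecOn with
  | nil => rfl
  | append_singleton bits b ih =>
    rw [List.length_append, List.length_singleton, List.range_succ, List.filter_append,
      List.length_append, List.count_append]
    have h1 : ((List.range bits.length).filter fun i => (bits ++ [b]).getD i false) =
        ((List.range bits.length).filter fun i => bits.getD i false) := by
      apply List.filter_congr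
      intro i hi
      rw [List.mem_range] at hi
      rw [List.getD_append _ _ _ _ hi]
    rw [h1, ih]
    congr 1
    have h2 : (bits ++ [b]).getD bits.length false = b := by
      rw [List.getD_append_right _ _ _ _ le_rfl, Nat.sub_self]
      rfl
    cases b <;> simp [List.filter_cons, h2]

lemma length_flat {B : ℕ} {bits : List Bool}
    (hB : ∀ i < bits.length, 2 * (str (i + 1)).length + 2 ≤ B) :
    (flat B bits).length = bits.count true * B := by
  obtain ⟨l, hl⟩ : ∃ l, l = (List.range bits.length).filter fun i => bits.getD i false :=
    ⟨_, rfl⟩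
  have hlt : ∀ i ∈ l, i < bits.length := by
    intro i hi
    rw [hl, List.mem_filter, List.mem_range] at hi
    exact hi.1
  have hw : ∀ j < l.length, 2 * (str (l.getD j 0 + 1)).length + 2 ≤ B := by
    intro j hj
    rw [List.getD_eq_getElem _ _ hj]
    exact hB _ (hlt _ (List.getElem_mem hj))
  unfold flat
  rw [← hl, length_mkFlat hw, hl, length_positions]

lemma count_le {bits : List Bool} {S : Set ℕ} (hS : S.Finite)
    (h : ∀ j < bits.length, bits.getD j false = true → j ∈ S) : bits.count true ≤ S.ncard := by
  classical
  rw [← length_positions, Set.ncard_eq_toFinset_card _ hS]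
  have h1 : ((List.range bits.length).filter fun i => bits.getD i false).Nodup :=
    List.nodup_range.filter _
  rw [← List.toFinset_card_of_nodup h1]
  apply Finset.card_le_card
  intro j hj
  rw [List.mem_toFinset, List.mem_filter, List.mem_range] at hj
  rw [Set.Finite.mem_toFinset]
  exact h j hj.1 hj.2

end Pool.Agent.MP_92db0f_lc_gold
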