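import Pool.Agent.MP_92db0f_lc_gold.Upper

/-!
Rational exponents.
-/

set_option autoImplicit false
set_option linter.unusedSectionVars false

namespace Pool.Agent.MP_92db0f_lc_gold

lemma exists_ratio {k γ : ℝ} (hk : 1 ≤ k) (h : 1 < k * γ) :
    ∃ a b : ℕ, 1 ≤ b ∧ b ≤ a ∧ (a : ℝ) / b ≤ k ∧ (b : ℝ) / a ≤ γ := by
  have hγ : 0 < γ := by
    by_contra hn
    have := mul_nonpos_of_nonneg_of_nonpos (show (0 : ℝ) ≤ k by linarith) (not_lt.mp hn)
    linarith
  rcases le_or_gt 1 γ with h1 | h1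
  · exact ⟨1, 1, le_rfl, le_rfl, by simpa using hk, by simpa using h1⟩
  · have h2 : 1 / γ < k := by
      rw [div_lt_iff₀ hγ]
      exact h
    obtain ⟨r, hr1, hr2⟩ := exists_rat_btwn h2
    have h3 : (1 : ℝ) < 1 / γ := by
      rw [lt_div_iff₀ hγ]
      linarith
    have hr : (1 : ℝ) < r := h3.trans hr1
    have hr' : (1 : ℚ) < r := by exact_mod_cast hr
    have hnum : 0 < r.num := Rat.num_pos.mpr (by linarith)
    have hden : (0 : ℝ) < r.den := by exact_mod_cast r.pos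
    have hcast : ((r.num.toNat : ℕ) : ℝ) = (r.num : ℝ) := by
      have h4 : ((r.num.toNat : ℕ) : ℤ) = r.num := Int.toNat_of_nonneg hnum.le
      have h5 : (((r.num.toNat : ℕ) : ℤ) : ℝ) = (r.num : ℝ) := by rw [h4]
      rwa [Int.cast_natCast] at h5
    have hdiv : (r.num : ℝ) / r.den = r := by
      exact_mod_cast r.num_div_den
    have hnum' : (0 : ℝ) < r.num := by exact_mod_cast hnum
    refine ⟨r.num.toNat, r.den, r.pos, ?_, ?_, ?_⟩
    · have h4 : (r.den : ℝ) ≤ ((r.num.toNat : ℕ) : ℝ) := by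
        rw [hcast]
        rw [← hdiv, lt_div_iff₀ hden] at hr
        linarith
      exact_mod_cast h4
    · rw [hcast, hdiv]
      exact hr2.le
    · rw [hcast, div_le_iff₀ hnum']
      rw [← hdiv, div_lt_div_iff₀ hγ hden] at hr1
      linarith

lemma exists_ratio' {s : ℝ} (hs : Real.goldenRatio < s) :
    ∃ a b : ℕ, 1 ≤ b ∧ b ≤ a ∧ (a : ℝ) / b ≤ s ∧ 1 + (b : ℝ) / a ≤ s := by
  have h1 := Real.one_lt_goldenRatio
  have h2 : 1 < s * (s - 1) := by
    have h3 := Real.goldenRatio_sq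
    nlinarith
  obtain ⟨a, b, hb, hab, h3, h4⟩ := exists_ratio (h1.trans hs).le h2
  exact ⟨a, b, hb, hab, h3, by linarith⟩

end Pool.Agent.MP_92db0f_lc_gold
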