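import Pool.Agent.MP_92db0f_lc_gold.Compl

/-!
Roots of natural numbers, and classes of languages defined by exponents.
-/

set_option autoImplicit false
set_option linter.unusedSectionVars false

namespace Pool.Agent.MP_92db0f_lc_gold

open Lib.helper60 Function Turing Computability
open MP_92db0f_lc hiding answers
open MP_92db0f_lc_alg (answers PolyTime)

/-- One more than the integral part of the `r`-th root of `n`. -/
def wd (r n : ℕ) : ℕ := Nat.findGreatest (fun u => u ^ r ≤ n) n + 1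

lemma wd_pos (r n : ℕ) : 1 ≤ wd r n := by unfold wd; omega

lemma wd_pow_le {r : ℕ} (hr : 1 ≤ r) (n : ℕ) : (wd r n - 1) ^ r ≤ n := by
  unfold wd
  rw [Nat.add_sub_cancel]
  exact Nat.findGreatest_spec (P := fun u => u ^ r ≤ n) (Nat.zero_le n)
    (by rw [zero_pow (by omega)]; exact Nat.zero_le n)

lemma lt_wd_pow {r : ℕ} (hr : 1 ≤ r) (n : ℕ) : n < wd r n ^ r := by
  by_contra h
  rw [not_lt] at h
  have h1 : wd r n ≤ n := (Nat.le_self_pow (by omega) _).trans h
  have h2 := Nat.le_findGreatest (P := fun u => u ^ r ≤ n) h1 h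
  unfold wd at h2
  omega

lemma wd_le_of_lt {r n v : ℕ} (hr : 1 ≤ r) (h : n < v ^ r) : wd r n ≤ v := by
  have h1 := wd_pow_le hr n
  have h2 : (wd r n - 1) ^ r < v ^ r := lt_of_le_of_lt h1 h
  have h3 := lt_of_pow_lt_pow_left₀ r (Nat.zero_le v) h2
  omega

lemma wd_le_mul {r : ℕ} (hr : 1 ≤ r) {n c t : ℕ} (h : n ≤ c * t ^ r) : wd r n ≤ c * t + 1 := by
  apply wd_le_of_lt hr
  have h1 : (c * t) ^ r + 1 ≤ (c * t + 1) ^ r := by
    obtain ⟨s, rfl⟩ := Nat.exists_eq_add_of_le hr
    have h2 : (c * t) ^ (1 + s) ≤ (c * t) * (c * t + 1) ^ s := by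
      rw [pow_add, pow_one]
      exact Nat.mul_le_mul_left _ (Nat.pow_le_pow_left (by omega) _)
    have h3 : 1 ≤ (c * t + 1) ^ s := Nat.one_le_pow _ _ (by omega)
    rw [pow_add (c * t + 1), pow_one, Nat.add_mul, Nat.one_mul]
    omega
  rcases Nat.eq_zero_or_pos c with rfl | hc
  · simp only [Nat.zero_mul] at h h1 ⊢
    have : 0 < (0 + 1) ^ r := by positivity
    omega
  · have h2 : c * t ^ r ≤ (c * t) ^ r := by
      rw [mul_pow]
      exact Nat.mul_le_mul_right _ (Nat.le_self_pow (by omega) c)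
    omega

lemma self_le_wd {r u n : ℕ} (hr : 1 ≤ r) (h : u ^ r ≤ n) : u < wd r n := by
  by_contra hlt
  rw [not_lt] at hlt
  have h1 := lt_wd_pow hr n
  have h2 : wd r n ^ r ≤ u ^ r := Nat.pow_le_pow_left hlt r
  omega

/-- A polynomial in `n` is bounded by an exponential function of the root. -/
lemma poly_wd (P : Polynomial ℕ) (r : ℕ) : ∃ A, ∀ n t, n ≤ t ^ r → 1 ≤ t →
    P.eval n + 1 ≤ 2 ^ (A * t) := by
  obtain ⟨s₀, hs⟩ := exists_poly_le (P.comp (Polynomial.X ^ r) + 1)
  refine ⟨s₀ + 1, fun n t hn ht => ?_⟩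
  have h1 := hs t
  have h2 : (P.comp (Polynomial.X ^ r) + 1).eval t = P.eval (t ^ r) + 1 := by
    simp [Polynomial.eval_comp]
  rw [h2] at h1
  have h3 : P.eval n ≤ P.eval (t ^ r) := evalMono P hn
  refine (Nat.add_le_add_right h3 1).trans (h1.trans (Nat.pow_le_pow_right (by norm_num) ?_))
  have h4 : s₀ ≤ s₀ * t := Nat.le_mul_of_pos_right _ (by omega)
  have h5 : (s₀ + 1) * t = s₀ * t + t := by ring
  omega

/-! ### classes -/

/-- nondeterministic time `2 ^ O(n ^ (p / r))` with the oracle `O` -/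
def InN (O : Set (List Bool)) (r p : ℕ) (L : Set (List Bool)) : Prop :=
  ∃ (V : List Bool × List Bool → Bool) (c : ℕ), OPT O V ∧
    ∀ x, x ∈ L ↔ ∃ y : List Bool, y.length ≤ 2 ^ (c * wd r x.length ^ p) ∧ V (x, y) = true

/-- deterministic time `2 ^ O(n ^ (κ / r))` with the oracle `O` and `O(n ^ ((r - 1) / r))` bits of
advice -/
def InDA (O : Set (List Bool)) (r κ : ℕ) (L : Set (List Bool)) : Prop :=
  ∃ (W : List Bool × List Bool × ℕ → Bool) (b : ℕ → List Bool) (c : ℕ), OPT O W ∧
    (∀ n, (b n).length ≤ c * wd r n ^ (r - 1)) ∧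
    ∀ (x : List Bool) (pad : ℕ), 2 ^ (c * wd r x.length ^ κ) ≤ pad →
      (x ∈ L ↔ W (x, b x.length, pad) = true)

/-- the reduction function -/
def zred (u : List Bool) (K c p : ℕ) (z : List Bool × ℕ) : List Bool :=
  encPair (u, encPair (encPair (z.1, List.replicate (c * z.2 ^ p) true),
    List.replicate (K * ((encPair (z.1, List.replicate (c * z.2 ^ p) true)).length + 1)) true))

lemma PT_zred (u : List Bool) (K c p : ℕ) : PT (zred u K c p) := by
  unfold zred
  have h1 : PT (fun z : List Bool × ℕ => encPair (z.1, List.replicate (c * z.2 ^ p) true)) :=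
    PT_encPair PT.fst (PT.replicate (PT.nmul (PT.const c) (PT_npow PT.snd p)) (PT.const true))
  exact PT_encPair (PT.const u) (PT_encPair h1 (PT.replicate (PT.nmul (PT.const K)
    (PT.nsucc (PT.length h1))) (PT.const true)))

/-- the length of the reduction function -/
def zlen (u : List Bool) (K c p m t : ℕ) : ℕ :=
  2 * u.length + 2 + (2 * (2 * m + 2 + c * t ^ p) + 2 + K * (2 * m + 2 + c * t ^ p + 1))

lemma length_zred (u : List Bool) (K c p : ℕ) (x : List Bool) (t : ℕ) :
    (zred u K c p (x, t)).length = zlen u K c p x.length t := by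
  unfold zred zlen
  simp only [length_encPair, List.length_replicate]

lemma zlen_le (u : List Bool) (K c p : ℕ) : ∃ c₀, ∀ m t, 1 ≤ t → m ≤ t ^ p →
    zlen u K c p m t ≤ c₀ * t ^ p := by
  refine ⟨2 * u.length + 4 + (2 * (c + 4) + K * (c + 5)), fun m t ht hm => ?_⟩
  have h1 : 1 ≤ t ^ p := Nat.one_le_pow _ _ ht
  unfold zlen
  obtain ⟨s, hs⟩ : ∃ s, s = t ^ p := ⟨_, rfl⟩
  rw [← hs] at h1 hm ⊢
  have h2 : 2 * m + 2 + c * s ≤ (c + 4) * s := by
    have : (c + 4) * s = c * s + 4 * s := by ring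
    omega
  have h3 : 2 * m + 2 + c * s + 1 ≤ (c + 5) * s := by
    have : (c + 5) * s = c * s + 5 * s := by ring
    omega
  have h4 := Nat.mul_le_mul_left K h3
  have h5 : (2 * u.length + 4) * 1 ≤ (2 * u.length + 4) * s := Nat.mul_le_mul_left _ h1
  have h6 : (2 * u.length + 4 + (2 * (c + 4) + K * (c + 5))) * s =
    (2 * u.length + 4) * s + (2 * ((c + 4) * s) + K * ((c + 5) * s)) := by ring
  rw [h6]
  omega

/-- The reduction to the complete problem. -/
theorem reduce {O : Set (List Bool)} {r p : ℕ} (hr : 1 ≤ r) {L : Set (List Bool)}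
    (hL : InN O r p L) : ∃ (u : List Bool) (K c : ℕ), ∀ x : List Bool,
      x ∈ L ↔ zred u K c p (x, wd r x.length) ∈ KL O := by
  obtain ⟨V, c, hV, hL⟩ := hL
  let V₁ : List Bool × List Bool → Bool := fun w =>
    decide (w.2.length - 1 ≤ p2 w.2.length (unpair w.1).2.length) && V ((unpair w.1).1, w.2)
  have hV₁ : OPT O V₁ := by
    have h1 : PT (fun w : List Bool × List Bool => unpair w.1) := PT_unpair.comp PT.fst
    have h2 : PT (fun w : List Bool × List Bool => w.2.length) := PT.length PT.snd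
    exact OPT.band (OPT.of_PT (PT.nle (PT.nsub h2 (PT.const 1)) (PT_p2 h2 (PT.length h1.p2))))
      (hV.comp_PT (PT.pair h1.p1 PT.snd))
  obtain ⟨u, K, hu⟩ := KL_complete hV₁ 0
  refine ⟨u, K, c, fun x => ?_⟩
  unfold zred
  rw [hu, hL x]
  refine exists_congr fun y => ?_
  have h0 : V₁ (encPair (x, List.replicate (c * wd r x.length ^ p) true), y) = true ↔
      y.length ≤ 2 ^ (c * wd r x.length ^ p) ∧ V (x, y) = true := by
    simp only [V₁, unpair_enc, Bool.and_eq_true, decide_eq_true_eq, List.length_replicate]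
    rw [p2_eq]
    have h1 : 1 ≤ 2 ^ (c * wd r x.length ^ p) := Nat.one_le_pow _ _ (by norm_num)
    refine and_congr_left fun _ => ?_
    omega
  rw [h0]
  constructor
  · rintro ⟨h1, h2⟩
    refine ⟨h1.trans (Nat.pow_le_pow_right (by norm_num) ?_), h1, h2⟩
    rw [length_encPair, List.length_replicate]
    dsimp only
    omega
  · rintro ⟨_, h2⟩
    exact h2

end Pool.Agent.MP_92db0f_lc_gold
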