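import Pool.Agent.MP_92db0f_lc_gold.Phi

/-!
The list of the expensive rounds determines the answers.
-/

set_option autoImplicit false
set_option linter.unusedSectionVars false

namespace Pool.Agent.MP_92db0f_lc_gold

open Lib.helper60 Function Turing Computability
open MP_92db0f_lc hiding answers
open MP_92db0f_lc_alg (answers PolyTime)

variable {O : Set (List Bool)}

lemma take_eq_of_getD {v v' : List Bool} (hl : v.length = v'.length) {m : ℕ}
    (h : ∀ j < m, v.getD j false = v'.getD j false) : v.take m = v'.take m := by
  apply List.ext_getElem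
  · rw [List.length_take, List.length_take, hl]
  · intro i h1 h2
    rw [List.length_take] at h1 h2
    rw [List.getElem_take, List.getElem_take]
    have h3 := h i (by omega)
    rwa [List.getD_eq_getElem _ _ (by omega), List.getD_eq_getElem _ _ (by omega)] at h3

lemma getD_take {v : List Bool} {m j : ℕ} (hj : j < m) :
    (v.take m).getD j false = v.getD j false := by
  rw [List.getD_eq_getElem?_getD, List.getD_eq_getElem?_getD, List.getElem?_take, if_pos hj]

/-- does the round `ρ` contain an expensive positive answer? -/
def heavy (M : Mach O) (z a v : List Bool) (b0 ρ : ℕ) : Bool :=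
  (List.range (M.W.eval z.length)).any fun j => v.getD (ρ * M.W.eval z.length + j) false &&
    !brute M.R (M.q ((z, a), v.take (ρ * M.W.eval z.length + j)), b0)

/-- the bits for the expensive rounds and their counts -/
def hbits (M : Mach O) (z a v : List Bool) (b0 : ℕ) : List Bool :=
  (List.range (dv (M.W.eval z.length) v.length * (M.W.eval z.length + 1))).map fun s =>
    heavy M z a v b0 (dv (M.W.eval z.length + 1) s) &&
      decide (cnt (M.W.eval z.length) (dv (M.W.eval z.length + 1) s) v =
        s - dv (M.W.eval z.length + 1) s * (M.W.eval z.length + 1))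

lemma length_hbits (M : Mach O) (z a v : List Bool) (b0 : ℕ) : (hbits M z a v b0).length =
    dv (M.W.eval z.length) v.length * (M.W.eval z.length + 1) := by simp [hbits]

lemma hbits_getD (M : Mach O) (z a v : List Bool) (b0 : ℕ) {ρ c : ℕ}
    (hρ : ρ < dv (M.W.eval z.length) v.length) (hc : c ≤ M.W.eval z.length) :
    (hbits M z a v b0).getD (ρ * (M.W.eval z.length + 1) + c) false =
      (heavy M z a v b0 ρ && decide (cnt (M.W.eval z.length) ρ v = c)) := by
  have h1 : (ρ + 1) * (M.W.eval z.length + 1) ≤
      dv (M.W.eval z.length) v.length * (M.W.eval z.length + 1) := Nat.mul_le_mul_right _ hρ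
  rw [Nat.add_mul, Nat.one_mul] at h1
  have h2 : ρ * (M.W.eval z.length + 1) + c < (hbits M z a v b0).length := by
    rw [length_hbits]
    omega
  rw [List.getD_eq_getElem _ _ h2]
  unfold hbits
  rw [List.getElem_map, List.getElem_range, dv_eq (show c < M.W.eval z.length + 1 by omega),
    Nat.add_sub_cancel_left]

lemma mem_hbits (M : Mach O) (z a v : List Bool) (b0 B : ℕ)
    (hB : ∀ s < dv (M.W.eval z.length) v.length * (M.W.eval z.length + 1),
      2 * (str (s + 1)).length + 2 ≤ B) {ρ c : ℕ}
    (hρ : ρ < dv (M.W.eval z.length) v.length) (hc : c ≤ M.W.eval z.length) :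
    mem B (flat B (hbits M z a v b0)) (ρ * (M.W.eval z.length + 1) + c) =
      (heavy M z a v b0 ρ && decide (cnt (M.W.eval z.length) ρ v = c)) := by
  rw [mem_flat (by rw [length_hbits]; exact hB), hbits_getD M z a v b0 hρ hc]

lemma inL_hbits (M : Mach O) (z a v : List Bool) (b0 B : ℕ)
    (hB : ∀ s < dv (M.W.eval z.length) v.length * (M.W.eval z.length + 1),
      2 * (str (s + 1)).length + 2 ≤ B) {ρ : ℕ}
    (hρ : ρ < dv (M.W.eval z.length) v.length) :
    inL B (M.W.eval z.length) (flat B (hbits M z a v b0)) ρ = heavy M z a v b0 ρ := by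
  unfold inL
  rw [Bool.eq_iff_iff, List.any_eq_true]
  constructor
  · rintro ⟨c, hc, h⟩
    rw [List.mem_range] at hc
    rw [mem_hbits M z a v b0 B hB hρ (by omega), Bool.and_eq_true] at h
    exact h.1
  · intro h
    refine ⟨cnt (M.W.eval z.length) ρ v, ?_, ?_⟩
    · rw [List.mem_range]
      have := cnt_le (M.W.eval z.length) ρ v
      omega
    · rw [mem_hbits M z a v b0 B hB hρ (cnt_le _ _ _), h]
      simp

/-- the number of ones -/
lemma count_hbits (M : Mach O) (z a v : List Bool) (b0 : ℕ) {S : Set ℕ} (hS : S.Finite)
    (h : ∀ ρ < dv (M.W.eval z.length) v.length, heavy M z a v b0 ρ = true → ρ ∈ S) :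
    (hbits M z a v b0).count true ≤ S.ncard := by
  refine (count_le (S := (fun ρ => ρ * (M.W.eval z.length + 1) +
    cnt (M.W.eval z.length) ρ v) '' S) (hS.image _) ?_).trans (Set.ncard_image_le hS)
  intro s hs hb
  rw [length_hbits] at hs
  obtain ⟨ρ, c, hc, hsc, hd⟩ := exists_dv (show 1 ≤ M.W.eval z.length + 1 by omega) s
  have hρ : ρ < dv (M.W.eval z.length) v.length := by
    by_contra hn
    have h1 : dv (M.W.eval z.length) v.length * (M.W.eval z.length + 1) ≤
      ρ * (M.W.eval z.length + 1) := Nat.mul_le_mul_right _ (not_lt.mp hn)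
    omega
  rw [hsc, hbits_getD M z a v b0 hρ (by omega), Bool.and_eq_true, decide_eq_true_eq] at hb
  refine ⟨ρ, h ρ hρ hb.1, ?_⟩
  dsimp only
  rw [hb.2, hsc]

open Classical in
/-- **The list determines the answers.** -/
lemma agree (M : Mach O) (z : List Bool) (i b0 B BC : ℕ) (hK : 1 ≤ M.W.eval z.length)
    (v' C : List Bool) (hv' : v'.length = i)
    (hB : ∀ s < dv (M.W.eval z.length) i * (M.W.eval z.length + 1),
      2 * (str (s + 1)).length + 2 ≤ B)
    (h1 : okC B (M.W.eval z.length) (dv (M.W.eval z.length) i)
      (flat B (hbits M z (M.a z.length) (M.v z i) b0)) v' = true)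
    (h2 : ∀ j < dv (M.W.eval z.length) i * M.W.eval z.length,
      (v'.getD j false = true → M.R (M.q ((z, M.a z.length), v'.take j), blk BC C j) = true) ∧
      (inL B (M.W.eval z.length) (flat B (hbits M z (M.a z.length) (M.v z i) b0))
        (dv (M.W.eval z.length) j) = true ∨
        v'.getD j false = brute M.R (M.q ((z, M.a z.length), v'.take j), b0))) :
    ∀ ρ ≤ dv (M.W.eval z.length) i, ∀ j < ρ * M.W.eval z.length,
      v'.getD j false = (M.v z i).getD j false := by
  obtain ⟨K, hKe⟩ : ∃ K, K = M.W.eval z.length := ⟨_, rfl⟩
  obtain ⟨v, hv⟩ : ∃ v, v = M.v z i := ⟨_, rfl⟩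
  have hvl : v.length = i := by rw [hv, M.length_v]
  have hBv : ∀ s < dv (M.W.eval z.length) v.length * (M.W.eval z.length + 1),
      2 * (str (s + 1)).length + 2 ≤ B := by
    rw [hvl]
    exact hB
  intro ρ
  induction ρ with
  | zero => intro _ j hj; omega
  | succ ρ ih =>
    intro hρ
    have ih := ih (by omega)
    have hρK : (ρ + 1) * M.W.eval z.length ≤ dv (M.W.eval z.length) i * M.W.eval z.length :=
      Nat.mul_le_mul_right _ hρ
    have hiK := dv_mul_le (M.W.eval z.length) i hK
    have hρ1 : (ρ + 1) * M.W.eval z.length = ρ * M.W.eval z.length + M.W.eval z.length := by ring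
    -- the queries of the round
    have hq : ∀ j < M.W.eval z.length,
        M.q ((z, M.a z.length), v'.take (ρ * M.W.eval z.length + j)) =
          M.Q z (ρ * M.W.eval z.length + j) := by
      intro j hj
      have hl1 : (v'.take (ρ * M.W.eval z.length + j)).length = ρ * M.W.eval z.length + j := by
        rw [List.length_take]
        omega
      unfold Mach.Q
      apply M.hround
      · rw [hl1, M.length_v]
      · rw [hl1, dv_eq hj, List.take_take, min_eq_left (by omega),
          M.v_take z _ _ (by omega)]
        have h3 : M.v z (ρ * M.W.eval z.length) = v.take (ρ * M.W.eval z.length) := by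
          rw [hv, M.v_take z _ _ (by omega)]
        rw [h3]
        apply take_eq_of_getD (by omega)
        intro j' hj'
        rw [hv]
        exact ih j' hj'
    have hA : ∀ j < M.W.eval z.length, v'.getD (ρ * M.W.eval z.length + j) false = true →
        v.getD (ρ * M.W.eval z.length + j) false = true := by
      intro j hj h
      have h3 := (h2 (ρ * M.W.eval z.length + j) (by omega)).1 h
      rw [hq j hj] at h3
      rw [hv, M.v_getD z i _ (by omega), decide_eq_true_eq]
      exact ⟨_, h3⟩
    have hB' : ∀ j < M.W.eval z.length, v'.getD (ρ * M.W.eval z.length + j) false =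
        v.getD (ρ * M.W.eval z.length + j) false := by
      have hin := inL_hbits M z (M.a z.length) v b0 B hBv (ρ := ρ) (by rw [hvl]; omega)
      cases hh : heavy M z (M.a z.length) v b0 ρ
      · intro j hj
        have h3 := (h2 (ρ * M.W.eval z.length + j) (by omega)).2
        rw [dv_eq hj, ← hv, hin, hh, hq j hj] at h3
        have h3 := h3.resolve_left (by simp)
        rw [h3, hv, M.v_getD z i _ (by omega)]
        rw [Bool.eq_iff_iff, decide_eq_true_eq]
        constructor
        · exact brute_sound
        · intro h4
          by_contra h5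
          have h6 : heavy M z (M.a z.length) v b0 ρ = true := by
            unfold heavy
            rw [List.any_eq_true]
            refine ⟨j, List.mem_range.mpr hj, ?_⟩
            rw [hv, M.v_getD z i _ (by omega), M.v_take z _ _ (by omega)]
            have h7 : M.q ((z, M.a z.length), M.v z (ρ * M.W.eval z.length + j)) =
                M.Q z (ρ * M.W.eval z.length + j) := rfl
            rw [h7]
            simp only [Bool.not_eq_true] at h5
            rw [h5]
            simpa using h4
          rw [hh] at h6
          exact absurd h6 (by simp)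
      · apply cnt_eq _ hA
        unfold okC at h1
        rw [List.all_eq_true] at h1
        have h3 := h1 ρ (List.mem_range.mpr (by omega))
        rw [List.all_eq_true] at h3
        have hc := cnt_le (M.W.eval z.length) ρ v
        have h4 := h3 (cnt (M.W.eval z.length) ρ v) (List.mem_range.mpr (by omega))
        rw [← hv, mem_hbits M z (M.a z.length) v b0 B hBv (by rw [hvl]; omega) hc, hh] at h4
        simpa using h4
    intro j hj
    rcases Nat.lt_or_ge j (ρ * M.W.eval z.length) with h | h
    · exact ih j h
    · obtain ⟨s, hs⟩ := Nat.exists_eq_add_of_le h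
      rw [hs, ← hv]
      exact hB' s (by omega)

end Pool.Agent.MP_92db0f_lc_gold
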