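import Pool.Agent.MP_92db0f_lc_gold.Conv

/-!
The upper bound in terms of the classes.
-/

set_option autoImplicit false
set_option linter.unusedSectionVars false

namespace Pool.Agent.MP_92db0f_lc_gold

open Lib.helper60 Function Turing Computability
open MP_92db0f_lc hiding answers
open MP_92db0f_lc_alg (answers PolyTime join)

/-- `L` is decided relative to `A` with `O(n ^ (b / a))` queries of length `O(n)` and one query of
length `O(n ^ (a / b))` -/
def Few (A : Set (List Bool)) (a b : ℕ) (L : Set (List Bool)) : Prop :=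
  ∃ (C : ℕ) (T : ℕ → ℕ) (F : ℕ → ℕ → ℕ) (R : List Bool × List Bool → Prop)
    (q : (List Bool × List Bool) × List Bool → List Bool)
    (d : (List Bool × List Bool) × List Bool → Bool),
    (∀ n, 2 ^ T n ≤ C * n + C) ∧ (∀ n, F n 0 ^ a ≤ C * n ^ b + C) ∧
    (∀ n, F n (C * n + C) ≤ 1) ∧ (∀ n l, C * n ^ a + C < l ^ b → F n l = 0) ∧
    MP_92db0f_lc_thr.Decides A T F (fun _ => []) (fun w => w) R q d L

lemma root_bound {a b : ℕ} (ha : 1 ≤ a) (hb : 1 ≤ b) {C n m : ℕ} (h : m ^ a ≤ C * n ^ b + C)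
    {e : ℝ} (he : (b : ℝ) / a ≤ e) : (m : ℝ) ≤ (C + 1 : ℕ) * (n : ℝ) ^ e + (C + 1 : ℕ) := by
  have ha' : (0 : ℝ) < a := by exact_mod_cast ha
  have hb' : (0 : ℝ) < b := by exact_mod_cast hb
  have he0 : 0 < e := lt_of_lt_of_le (by positivity) he
  rcases Nat.eq_zero_or_pos n with rfl | hn
  · rw [zero_pow (by omega), Nat.mul_zero, Nat.zero_add] at h
    have h1 : m ≤ C := (Nat.le_self_pow (by omega) m).trans h
    have h2 : (m : ℝ) ≤ C := by exact_mod_cast h1
    have h3 : (0 : ℝ) ≤ ((0 : ℕ) : ℝ) ^ e := Real.rpow_nonneg (Nat.cast_nonneg _) _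
    push_cast at h3 ⊢
    have h4 : (0 : ℝ) ≤ C := Nat.cast_nonneg _
    nlinarith
  · have hn' : (1 : ℝ) ≤ n := by exact_mod_cast hn
    obtain ⟨x, hx⟩ : ∃ x : ℝ, x = (n : ℝ) ^ ((b : ℝ) / a) := ⟨_, rfl⟩
    have hx0 : 0 ≤ x := by rw [hx]; positivity
    have hxe : x ≤ (n : ℝ) ^ e := by
      rw [hx]
      exact Real.rpow_le_rpow_of_exponent_le hn' he
    have hxa : x ^ a = (n : ℝ) ^ b := by
      rw [hx, ← Real.rpow_natCast, ← Real.rpow_mul (by positivity), div_mul_cancel₀ _ ha'.ne',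
        Real.rpow_natCast]
    have hc : (1 : ℝ) ≤ (C + 1 : ℕ) := by push_cast; linarith [Nat.cast_nonneg (α := ℝ) C]
    by_contra hlt
    rw [not_le] at hlt
    have h1 : ((C + 1 : ℕ) : ℝ) * (x + 1) < m := by nlinarith
    have h2 : (((C + 1 : ℕ) : ℝ) * (x + 1)) ^ a < (m : ℝ) ^ a :=
      pow_lt_pow_left₀ h1 (by positivity) (by omega)
    have h3 : ((C + 1 : ℕ) : ℝ) ≤ ((C + 1 : ℕ) : ℝ) ^ a := le_self_pow₀ hc (by omega)
    have h4 : x ^ a + 1 ^ a ≤ (x + 1) ^ a := pow_add_pow_le hx0 zero_le_one (by omega)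
    rw [one_pow, hxa] at h4
    rw [mul_pow] at h2
    have h5 : ((m : ℝ)) ^ a ≤ C * (n : ℝ) ^ b + C := by exact_mod_cast h
    have h6 : (0 : ℝ) ≤ (n : ℝ) ^ b := by positivity
    have h7 : ((C + 1 : ℕ) : ℝ) * ((n : ℝ) ^ b + 1) ≤ ((C + 1 : ℕ) : ℝ) ^ a * (x + 1) ^ a :=
      mul_le_mul h3 h4 (by positivity) (by positivity)
    push_cast at h7
    have h8 : (0 : ℝ) ≤ C := Nat.cast_nonneg _
    push_cast at h2
    nlinarith

section

variable {A : Set (List Bool)} {a b : ℕ} {L : Set (List Bool)}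

/-- the data of a computation with few queries -/
lemma Few.data (ha : 1 ≤ a) (hb : 1 ≤ b) (h : Few A a b L) :
    ∃ (C : ℕ) (N : ℕ → ℕ) (R : List Bool × List Bool → Prop)
      (q : ((List Bool × List Bool) × List Bool) × ℕ → List Bool)
      (d : (List Bool × List Bool) × List Bool → Bool) (P : Polynomial ℕ),
      Decides A L R q d (fun _ => []) N 1 P ∧ ∀ x : List Bool,
        (∀ i < N x.length, roundCost R q (x, []) 1 i ^ b ≤ C * x.length ^ a + C) ∧
        {i | i < N x.length ∧ roundCost R q (x, []) 1 i ≠ 0}.ncard ^ a ≤ C * x.length ^ b + C ∧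
        {i | i < N x.length ∧ C * x.length + C ≤ roundCost R q (x, []) 1 i}.ncard ≤ 1 := by
  obtain ⟨C, T, F, R, q, d, h1, h2, h3, h4, hD⟩ := h
  obtain ⟨R', q', P, hD', hc⟩ := conv h1 hD
  refine ⟨C + 1, fun n => 2 ^ T n, R', q', d, P, hD', fun x => ⟨?_, ?_, ?_⟩⟩
  · intro i hi
    rcases hc x i with h5 | ⟨Q, hQ, h5⟩
    · rw [h5, zero_pow (by omega)]
      exact Nat.zero_le _
    · have h6 : Q.length ^ b ≤ C * x.length ^ a + C := by
        by_contra hn
        have h7 := h4 x.length Q.length (by omega)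
        have h8 := hD.profile x Q.length
        rw [h7] at h8
        have h9 : i ∈ {i : ℕ | i < 2 ^ T x.length ∧ ∃ Q' : List Bool, q ((x, []), answers (join A
            (MP_92db0f_lc_thr.certified (fun w => w) R)) q (x, []) i) = true :: Q' ∧
              Q.length ≤ Q'.length} := ⟨hi, Q, hQ, le_rfl⟩
        have h10 : {i : ℕ | i < 2 ^ T x.length ∧ ∃ Q' : List Bool, q ((x, []), answers (join A
            (MP_92db0f_lc_thr.certified (fun w => w) R)) q (x, []) i) = true :: Q' ∧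
              Q.length ≤ Q'.length}.Finite :=
          (Set.finite_lt_nat (2 ^ T x.length)).subset fun _ hj => hj.1
        have h11 := (Set.ncard_pos h10).mpr ⟨i, h9⟩
        omega
      refine (Nat.pow_le_pow_left h5 b).trans (h6.trans ?_)
      rw [Nat.add_mul]
      omega
  · have h5 := hD.profile x 0
    have h6 : {i | i < 2 ^ T x.length ∧ roundCost R' q' (x, []) 1 i ≠ 0}.ncard ≤
        F x.length 0 := by
      refine (Set.ncard_le_ncard ?_ ?_).trans h5
      · rintro i ⟨hi, hne⟩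
        rcases hc x i with h7 | ⟨Q, hQ, _⟩
        · exact absurd h7 hne
        · exact ⟨hi, Q, hQ, Nat.zero_le _⟩
      · exact (Set.finite_lt_nat (2 ^ T x.length)).subset fun _ hj => hj.1
    refine (Nat.pow_le_pow_left h6 a).trans ((h2 x.length).trans ?_)
    rw [Nat.add_mul]
    omega
  · have h5 := hD.profile x (C * x.length + C)
    refine le_trans (Set.ncard_le_ncard ?_ ?_) (h5.trans (h3 x.length))
    · rintro i ⟨hi, hne⟩
      rcases hc x i with h7 | ⟨Q, hQ, h8⟩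
      · rw [h7] at hne
        omega
      · rw [Nat.add_mul] at hne
        exact ⟨hi, Q, hQ, by omega⟩
    · exact (Set.finite_lt_nat (2 ^ T x.length)).subset fun _ hj => hj.1

/-- **The upper bound for the trade-off.** -/
theorem Few.inTradeoff (ha : 1 ≤ a) (hb : 1 ≤ b) (h : Few A a b L) {k γ δ : ℝ}
    (hk : (a : ℝ) / b ≤ k) (hγ : (b : ℝ) / a ≤ γ) : InTradeoff A k γ δ L := by
  obtain ⟨C, N, R, q, d, P, hD, hx⟩ := h.data ha hb
  refine ⟨R, q, d, fun _ => [], N, 1, P, C + 1, hD, ?_, ?_⟩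
  · intro n
    have h5 : (0 : ℝ) ≤ (n : ℝ) ^ γ := Real.rpow_nonneg (Nat.cast_nonneg _) _
    simp only [List.length_nil, Nat.cast_zero]
    positivity
  · intro x
    rw [Polynomial.eval_one]
    refine ⟨fun i hi => root_bound hb ha ((hx x).1 i hi) hk, ?_⟩
    have h1 := root_bound ha hb (hx x).2.1 hγ
    have h2 : {i | i < N x.length ∧ ((C + 1 : ℕ) : ℝ) * (x.length : ℝ) ^ δ + ((C + 1 : ℕ) : ℝ) <
        (roundCost R q (x, []) 1 i : ℝ)}.ncard ≤
          {i | i < N x.length ∧ roundCost R q (x, []) 1 i ≠ 0}.ncard := by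
      refine Set.ncard_le_ncard ?_ ((Set.finite_lt_nat (N x.length)).subset fun _ hj => hj.1)
      rintro i ⟨hi, hlt⟩
      refine ⟨hi, fun h0 => ?_⟩
      rw [h0, Nat.cast_zero] at hlt
      have h5 : (0 : ℝ) ≤ (x.length : ℝ) ^ δ := Real.rpow_nonneg (Nat.cast_nonneg _) _
      have h6 : (0 : ℝ) ≤ ((C + 1 : ℕ) : ℝ) * (x.length : ℝ) ^ δ + ((C + 1 : ℕ) : ℝ) := by
        positivity
      linarith
    have h3 : (({i | i < N x.length ∧ ((C + 1 : ℕ) : ℝ) * (x.length : ℝ) ^ δ +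
        ((C + 1 : ℕ) : ℝ) < (roundCost R q (x, []) 1 i : ℝ)}.ncard : ℕ) : ℝ) ≤
          (({i | i < N x.length ∧ roundCost R q (x, []) 1 i ≠ 0}.ncard : ℕ) : ℝ) := by
      exact_mod_cast h2
    exact h3.trans h1

/-- **The upper bound for the total cost.** -/
theorem Few.inTotal (ha : 1 ≤ a) (hb : 1 ≤ b) (h : Few A a b L) {s : ℝ}
    (hs1 : (a : ℝ) / b ≤ s) (hs2 : 1 + (b : ℝ) / a ≤ s) : InTotal A s L := by
  classical
  obtain ⟨C, N, R, q, d, P, hD, hx⟩ := h.data ha hb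
  refine ⟨R, q, d, N, 1, P, 4 * (C + 1) * (C + 1) + (C + 1) + 4 * (C + 1) * (C + 1), hD,
    fun x => ?_⟩
  rw [Polynomial.eval_one]
  obtain ⟨c, hc⟩ : ∃ c : ℕ → ℕ, c = fun i => roundCost R q (x, []) 1 i := ⟨_, rfl⟩
  have hc' : ∀ i, roundCost R q (x, []) 1 i = c i := fun i => by rw [hc]
  obtain ⟨h1, h2, h3⟩ := hx x
  simp only [hc'] at h1 h2 h3 ⊢
  obtain ⟨n, hn⟩ : ∃ n, n = x.length := ⟨_, rfl⟩
  rw [← hn] at h1 h2 h3 ⊢
  obtain ⟨S, hS⟩ : ∃ S : Finset ℕ, S = (Finset.range (N n)).filter fun i => c i ≠ 0 := ⟨_, rfl⟩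
  obtain ⟨S', hS'⟩ : ∃ S' : Finset ℕ, S' = (Finset.range (N n)).filter fun i =>
    C * n + C ≤ c i := ⟨_, rfl⟩
  have hSS : {i | i < N n ∧ c i ≠ 0} = (S : Set ℕ) := by
    ext i
    rw [hS]
    simp
  have hSS' : {i | i < N n ∧ C * n + C ≤ c i} = (S' : Set ℕ) := by
    ext i
    rw [hS']
    simp
  rw [hSS, Set.ncard_coe_finset] at h2
  rw [hSS', Set.ncard_coe_finset] at h3
  -- the bound for all costs
  obtain ⟨m, hm⟩ : ∃ m : ℝ, m = ((C + 1 : ℕ) : ℝ) * (n : ℝ) ^ ((a : ℝ) / b) +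
    ((C + 1 : ℕ) : ℝ) := ⟨_, rfl⟩
  have hm0 : 0 ≤ m := by rw [hm]; positivity
  have hcm : ∀ i < N n, (c i : ℝ) ≤ m := by
    intro i hi
    rw [hm]
    exact root_bound hb ha (h1 i hi) le_rfl
  have hcard : (S.card : ℝ) ≤ ((C + 1 : ℕ) : ℝ) * (n : ℝ) ^ ((b : ℝ) / a) +
    ((C + 1 : ℕ) : ℝ) := root_bound ha hb h2 le_rfl
  have hsum : ((∑ i ∈ Finset.range (N n), c i : ℕ) : ℝ) ≤
      (S.card : ℝ) * (C * n + C) + m := by
    push_cast
    have e1 : ∑ i ∈ Finset.range (N n), (c i : ℝ) = ∑ i ∈ S, (c i : ℝ) := by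
      rw [hS, Finset.sum_filter]
      refine Finset.sum_congr rfl fun i _ => ?_
      split_ifs with h
      · rfl
      · rw [not_not] at h
        rw [h, Nat.cast_zero]
    have e2 : ∑ i ∈ S, (c i : ℝ) ≤ ∑ i ∈ S, ((C * n + C : ℝ) + if i ∈ S' then m else 0) := by
      refine Finset.sum_le_sum fun i hi => ?_
      rw [hS, Finset.mem_filter, Finset.mem_range] at hi
      split_ifs with h
      · have := hcm i hi.1
        have h0 : (0 : ℝ) ≤ C * n + C := by positivity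
        linarith
      · rw [hS', Finset.mem_filter, Finset.mem_range, not_and, not_le] at h
        have h4 : (c i : ℝ) ≤ C * n + C := by exact_mod_cast (h hi.1).le
        linarith
    have e3 : ∑ i ∈ S, ((C * n + C : ℝ) + if i ∈ S' then m else 0) ≤
        (S.card : ℝ) * (C * n + C) + m := by
      rw [Finset.sum_add_distrib, Finset.sum_const, nsmul_eq_mul]
      have e4 : ∑ i ∈ S, (if i ∈ S' then m else 0) = ((S.filter fun i => i ∈ S').card : ℝ) * m := by
        rw [← Finset.sum_filter, Finset.sum_const, nsmul_eq_mul]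
      rw [e4]
      have e5 : (S.filter fun i => i ∈ S').card ≤ 1 := by
        refine le_trans (Finset.card_le_card ?_) h3
        intro i hi
        exact (Finset.mem_filter.mp hi).2
      have e6 : ((S.filter fun i => i ∈ S').card : ℝ) ≤ 1 := by exact_mod_cast e5
      nlinarith
    rw [e1]
    exact e2.trans e3
  refine hsum.trans ?_
  -- the powers
  obtain ⟨X, hX⟩ : ∃ X : ℝ, X = (n : ℝ) ^ s := ⟨_, rfl⟩
  have ha' : (0 : ℝ) < a := by exact_mod_cast ha
  have hb' : (0 : ℝ) < b := by exact_mod_cast hb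
  have hX0 : 0 ≤ X := by rw [hX]; positivity
  have p1 : (n : ℝ) ^ ((a : ℝ) / b) ≤ X + 1 := by
    rcases Nat.eq_zero_or_pos n with h | h
    · rw [h, Nat.cast_zero, Real.zero_rpow (by positivity)]
      linarith
    · have := Real.rpow_le_rpow_of_exponent_le (show (1 : ℝ) ≤ n by exact_mod_cast h) hs1
      rw [hX]
      linarith
  have p2 : ((n : ℝ) ^ ((b : ℝ) / a) + 1) * (n + 1) ≤ 4 * (X + 1) := by
    rcases Nat.eq_zero_or_pos n with h | h
    · rw [h, Nat.cast_zero, Real.zero_rpow (by positivity)]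
      linarith
    · have h' : (1 : ℝ) ≤ n := by exact_mod_cast h
      have q1 : (n : ℝ) ^ ((b : ℝ) / a) * n = (n : ℝ) ^ (1 + (b : ℝ) / a) := by
        rw [Real.rpow_add (by linarith), Real.rpow_one]
        ring
      have q2 : (n : ℝ) ^ (1 + (b : ℝ) / a) ≤ X := by
        rw [hX]
        exact Real.rpow_le_rpow_of_exponent_le h' hs2
      have q3 : (1 : ℝ) ≤ (n : ℝ) ^ ((b : ℝ) / a) := Real.one_le_rpow h' (by positivity)
      nlinarith
  have hmX : m ≤ ((C + 1 : ℕ) : ℝ) * (X + 1) + ((C + 1 : ℕ) : ℝ) := by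
    rw [hm]
    have := mul_le_mul_of_nonneg_left p1 (Nat.cast_nonneg (α := ℝ) (C + 1))
    linarith
  have hSX : (S.card : ℝ) * (C * n + C) ≤
      ((C + 1 : ℕ) : ℝ) * ((C + 1 : ℕ) : ℝ) * (4 * (X + 1)) := by
    have r1 : (S.card : ℝ) * (C * n + C) ≤ (((C + 1 : ℕ) : ℝ) * (n : ℝ) ^ ((b : ℝ) / a) +
        ((C + 1 : ℕ) : ℝ)) * (((C + 1 : ℕ) : ℝ) * (n + 1)) := by
      refine mul_le_mul hcard ?_ (by positivity) (by positivity)
      push_cast
      nlinarith [Nat.cast_nonneg (α := ℝ) n]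
    refine r1.trans (le_of_eq_of_le ?_ (mul_le_mul_of_nonneg_left p2
      (show (0 : ℝ) ≤ ((C + 1 : ℕ) : ℝ) * ((C + 1 : ℕ) : ℝ) by positivity)))
    ring
  rw [← hX]
  push_cast at hmX hSX ⊢
  have hCn : (0 : ℝ) ≤ C := Nat.cast_nonneg C
  nlinarith [mul_nonneg hCn hX0, mul_nonneg hCn hCn, mul_nonneg (mul_nonneg hCn hCn) hX0]

end

end Pool.Agent.MP_92db0f_lc_gold
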